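import Pool.Agent.FN.Terms
import Pool.Agent.FNX.Prog2
import Pool.Agent.FNR.Multi

/-! # Values of polynomials with few terms, of any degree, as an entry -/

namespace Pool.Agent.FNS

open MvPolynomial Pool.Agent.FN Pool.Agent.FNX Pool.Agent.FNR

/-- values of polynomials with few terms, of any degree, as an entry -/
theorem entry (s N D : ℕ) : ∃ E : ℕ, ∀ {K L : Type} [Field K] [CharZero K] [Field L]
    [Algebra K L] (δ : Derivation K L L), CK δ → ∀ (a b : Fin N → L), Spz δ a b →
      ∀ f : MvPolynomial (Fin N) K, f.support.card ≤ s →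
        RelV δ D (Fin.snoc a (aeval a f) : Fin (N + 1) → L) (Fin.snoc b (aeval b f)) →
          RelV δ E a b := by
  choose E hE using fun m => prog_elimV N m D
  refine ⟨∑ m ∈ Finset.range (s * (3 * N + 2) + 1 + 1), E m, ?_⟩
  intro K L _ _ _ _ δ hδ a b hab f hf h
  obtain ⟨l, hl, hfl, hlen⟩ := prog_of_terms f hf
  obtain ⟨j, hj⟩ := FNX.val_mem (L := L) l hfl
  choose σ hσ using fun i : Fin N => FNX.val_var (L := L) l i
  have h1 : RelV δ D (FNX.val a l) (FNX.val b l) := by
    have key : ∀ (c : Fin N → L) (i : Fin (N + 1)), (Fin.snoc c (aeval c f) : Fin (N + 1) → L) i =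
        FNX.val c l ((Fin.snoc σ j : Fin (N + 1) → Fin (N + l.length)) i) := by
      intro c i
      refine Fin.lastCases ?_ (fun i => ?_) i
      · rw [Fin.snoc_last, Fin.snoc_last, hj]
      · rw [Fin.snoc_castSucc, Fin.snoc_castSucc, hσ]
    exact relV_comp h _ (key a) (key b)
  refine (hE l.length δ hδ a b hab l rfl hl h1).mono ?_
  exact Finset.single_le_sum (f := E) (fun _ _ => Nat.zero_le _)
    (Finset.mem_range.2 (Nat.lt_succ_of_le hlen))

end Pool.Agent.FNS
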