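import Mathlib
import Pool.Agent.SMS.ConXder

/-!
# A linear relation between logarithmic derivatives with constant coefficients
-/

set_option autoImplicit false

namespace Pool.Agent.FNS

open Polynomial IntermediateField

section Dlog

variable {R L : Type} [CommRing R] [Field L] [Algebra R L] (D : Derivation R L L)

theorem dlog_mul {x y : L} (hx : x ≠ 0) (hy : y ≠ 0) :
    D (x * y) / (x * y) = D x / x + D y / y := by
  rw [Derivation.leibniz]
  simp only [smul_eq_mul]
  field_simp
  ring

theorem dlog_zpow {x : L} (hx : x ≠ 0) (n : ℤ) : D (x ^ n) / x ^ n = n * (D x / x) := by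
  rw [Derivation.leibniz_zpow, zpow_sub_one₀ hx]
  simp only [smul_eq_mul, zsmul_eq_mul]
  have h1 : x ^ n ≠ 0 := zpow_ne_zero n hx
  field_simp

theorem dlog_prod {ι : Type*} (s : Finset ι) (f : ι → L) (h : ∀ i ∈ s, f i ≠ 0) :
    D (∏ i ∈ s, f i) / ∏ i ∈ s, f i = ∑ i ∈ s, D (f i) / f i := by
  classical
  induction s using Finset.induction_on with
  | empty => simp
  | insert a s ha ih =>
    rw [Finset.prod_insert ha, Finset.sum_insert ha, dlog_mul D (h a (by simp))
      (Finset.prod_ne_zero_iff.2 fun i hi => h i (by simp [hi])),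
      ih fun i hi => h i (by simp [hi])]

end Dlog

section Unique

variable {F L : Type} [Field F] [Field L] [Algebra F L] [CharZero F]

theorem der_eq_zero (t : L) (halg : Algebra.IsAlgebraic F⟮t⟯ L) (D : Derivation F L L)
    (hD : D t = 0) (x : L) : D x = 0 := by
  let Kf : IntermediateField F L :=
    { carrier := {x | D x = 0}
      mul_mem' := fun {x y} hx hy => by
        change D (x * y) = 0
        rw [Derivation.leibniz, show D x = 0 from hx, show D y = 0 from hy, smul_zero, smul_zero,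
          add_zero]
      add_mem' := fun {x y} hx hy => by
        change D (x + y) = 0
        rw [map_add, show D x = 0 from hx, show D y = 0 from hy, add_zero]
      algebraMap_mem' := fun c => D.map_algebraMap c
      inv_mem' := fun x hx => by
        change D x⁻¹ = 0
        rw [Derivation.leibniz_inv, show D x = 0 from hx, smul_zero] }
  have hle : F⟮t⟯ ≤ Kf := adjoin_simple_le_iff.2 hD
  have hk : ∀ y : F⟮t⟯, D (y : L) = 0 := fun y => hle y.2
  let D' : Derivation F⟮t⟯ L L := Derivation.mk'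
    { toFun := D
      map_add' := map_add D
      map_smul' := fun r x => by
        change D (((r : L)) * x) = (r : L) * D x
        rw [Derivation.leibniz, hk r, smul_zero, add_zero, smul_eq_mul] }
    (fun x y => D.leibniz x y)
  have hc : CharZero F⟮t⟯ :=
    charZero_of_injective_algebraMap (algebraMap F F⟮t⟯).injective
  have h1 : aeval x (minpoly F⟮t⟯ x) = 0 := minpoly.aeval _ x
  have h2 := D'.map_aeval (minpoly F⟮t⟯ x) x
  rw [h1, map_zero] at h2
  have h3 : (minpoly F⟮t⟯ x).Separable :=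
    (minpoly.irreducible (halg.isAlgebraic x).isIntegral).separable
  have h4 : aeval x (derivative (minpoly F⟮t⟯ x)) ≠ 0 := h3.aeval_derivative_ne_zero h1
  exact (smul_eq_zero.1 h2.symm).resolve_left h4

theorem der_comm (t : L) (halg : Algebra.IsAlgebraic F⟮t⟯ L) (D : Derivation F L L)
    (hD : D t = 1) (σ : L ≃ₐ[F⟮t⟯] L) (x : L) : D (σ x) = σ (D x) := by
  let τ : L ≃ₐ[F] L := σ.restrictScalars F
  let D1 : Derivation F L L := Derivation.mk'
    { toFun := fun x => τ.symm (D (τ x))
      map_add' := fun x y => by rw [map_add, map_add, map_add]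
      map_smul' := fun r x => by rw [map_smul, D.map_smul, map_smul, RingHom.id_apply] }
    (fun x y => by
      change τ.symm (D (τ (x * y))) = x • τ.symm (D (τ y)) + y • τ.symm (D (τ x))
      rw [map_mul, Derivation.leibniz, map_add, smul_eq_mul, smul_eq_mul, map_mul, map_mul,
        τ.symm_apply_apply, τ.symm_apply_apply, smul_eq_mul, smul_eq_mul])
  have ht : τ t = t := by
    have := σ.commutes (AdjoinSimple.gen F t)
    rwa [AdjoinSimple.algebraMap_gen] at this
  have h0 : (D1 - D) t = 0 := by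
    rw [Derivation.sub_apply]
    change τ.symm (D (τ t)) - D t = 0
    rw [ht, hD, map_one, sub_self]
  have h1 := der_eq_zero t halg (D1 - D) h0 x
  rw [Derivation.sub_apply, sub_eq_zero] at h1
  change τ.symm (D (τ x)) = D x at h1
  have h2 := congrArg τ h1
  rw [τ.apply_symm_apply] at h2
  exact h2

end Unique

section Regular

variable {F L : Type} [Field F] [Field L] [Algebra F L]

/-- `x` is a fraction of polynomials in `t` which is regular at `t = 0`, with value `c` -/
def Reg (t x : L) (c : F) : Prop :=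
  ∃ P Q : F[X], Q.eval 0 ≠ 0 ∧ x * aeval t Q = aeval t P ∧ P.eval 0 = c * Q.eval 0

theorem Reg.add {t x y : L} {c d : F} (hx : Reg t x c) (hy : Reg t y d) :
    Reg t (x + y) (c + d) := by
  obtain ⟨P, Q, h1, h2, h3⟩ := hx
  obtain ⟨P', Q', h1', h2', h3'⟩ := hy
  refine ⟨P * Q' + P' * Q, Q * Q', ?_, ?_, ?_⟩
  · rw [eval_mul]
    exact mul_ne_zero h1 h1'
  · rw [map_add, map_mul, map_mul, map_mul, ← h2, ← h2']
    ring
  · rw [eval_add, eval_mul, eval_mul, eval_mul, h3, h3']
    ring

theorem Reg.neg {t x : L} {c : F} (hx : Reg t x c) : Reg t (-x) (-c) := by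
  obtain ⟨P, Q, h1, h2, h3⟩ := hx
  refine ⟨-P, Q, h1, ?_, ?_⟩
  · rw [map_neg, ← h2]
    ring
  · rw [eval_neg, h3]
    ring

theorem Reg.smul {t x : L} {c : F} (θ : F) (hx : Reg t x c) :
    Reg t (algebraMap F L θ * x) (θ * c) := by
  obtain ⟨P, Q, h1, h2, h3⟩ := hx
  refine ⟨C θ * P, Q, h1, ?_, ?_⟩
  · rw [map_mul, aeval_C, ← h2]
    ring
  · rw [eval_mul, eval_C, h3]
    ring

theorem Reg.zero (t : L) : Reg t (0 : L) (0 : F) :=
  ⟨0, 1, by simp, by simp, by simp⟩

theorem Reg.sum {t : L} {ι : Type*} (s : Finset ι) (x : ι → L) (c : ι → F)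
    (h : ∀ i ∈ s, Reg t (x i) (c i)) : Reg t (∑ i ∈ s, x i) (∑ i ∈ s, c i) := by
  classical
  induction s using Finset.induction_on with
  | empty => simpa using Reg.zero (F := F) t
  | insert a s ha ih =>
    rw [Finset.sum_insert ha, Finset.sum_insert ha]
    exact (h a (by simp)).add (ih fun i hi => h i (by simp [hi]))

theorem Reg.unique {t x : L} {c d : F} (ht : Transcendental F t) (hx : Reg t x c)
    (hy : Reg t x d) : c = d := by
  obtain ⟨P, Q, h1, h2, h3⟩ := hx
  obtain ⟨P', Q', h1', h2', h3'⟩ := hy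
  have h4 : P * Q' = P' * Q := by
    apply transcendental_iff_injective.1 ht
    rw [map_mul, map_mul, ← h2, ← h2']
    ring
  have h5 := congrArg (fun p : F[X] => p.eval 0) h4
  simp only [eval_mul] at h5
  rw [h3, h3'] at h5
  have h6 : (c - d) * (Q.eval 0 * Q'.eval 0) = 0 := by linear_combination h5
  rcases mul_eq_zero.1 h6 with h | h
  · exact sub_eq_zero.1 h
  · exact absurd h (mul_ne_zero h1 h1')

theorem ne_zero_of_tr {t : L} (ht : Transcendental F t) : t ≠ 0 := fun h =>
  ht (h ▸ isAlgebraic_zero)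

theorem reg_dlog_poly {t : L} (ht : Transcendental F t) (D : Derivation F L L) (hD : D t = 1)
    {A : F[X]} (hA : A ≠ 0) :
    ∃ h : ℤ, Reg t (t * (D (aeval t A) / aeval t A)) (h : F) := by
  have ht0 := ne_zero_of_tr ht
  obtain ⟨q, hq, hqn⟩ := exists_eq_pow_rootMultiplicity_mul_and_not_dvd A hA 0
  set n := A.rootMultiplicity 0
  have hq0 : q.eval 0 ≠ 0 := fun h => hqn (dvd_iff_isRoot.2 h)
  have hqne : q ≠ 0 := fun h => hq0 (by rw [h, eval_zero])
  have hqt : aeval t q ≠ 0 := fun h => hqne (transcendental_iff.1 ht q h)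
  have hAt : aeval t A = t ^ (n : ℤ) * aeval t q := by
    rw [hq, map_mul, map_pow, map_sub, aeval_X, C_0, map_zero, sub_zero, zpow_natCast]
  refine ⟨n, C (n : F) * q + X * derivative q, q, hq0, ?_, ?_⟩
  · rw [hAt, dlog_mul D (zpow_ne_zero _ ht0) hqt, dlog_zpow D ht0, D.map_aeval, hD]
    simp only [smul_eq_mul, mul_one, map_add, map_mul, aeval_X, map_natCast, Int.cast_natCast]
    field_simp
  · simp

theorem reg_dlog {t : L} (ht : Transcendental F t) (D : Derivation F L L) (hD : D t = 1)
    {N : L} (hN : N ∈ F⟮t⟯) (h0 : N ≠ 0) :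
    ∃ h : ℤ, Reg t (t * (D N / N)) (h : F) := by
  obtain ⟨r, s, hrs⟩ := (mem_adjoin_simple_iff F N).1 hN
  have hr : aeval t r ≠ 0 := fun h => h0 (by rw [hrs, h, zero_div])
  have hs : aeval t s ≠ 0 := fun h => h0 (by rw [hrs, h, div_zero])
  have hr0 : r ≠ 0 := fun h => hr (by rw [h, map_zero])
  have hs0 : s ≠ 0 := fun h => hs (by rw [h, map_zero])
  obtain ⟨a, ha⟩ := reg_dlog_poly ht D hD hr0
  obtain ⟨b, hb⟩ := reg_dlog_poly ht D hD hs0
  refine ⟨a - b, ?_⟩
  have h1 : D N / N = D (aeval t r) / aeval t r - D (aeval t s) / aeval t s := by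
    have h2 := dlog_mul D h0 hs
    rw [show N * aeval t s = aeval t r by rw [hrs, div_mul_cancel₀ _ hs]] at h2
    rw [h2]
    ring
  have h3 := ha.add hb.neg
  rw [h1, Int.cast_sub, mul_sub, sub_eq_add_neg, sub_eq_add_neg]
  exact h3

end Regular

section Norm

variable {F L : Type} [Field F] [Field L] [Algebra F L] [CharZero F] [IsAlgClosed L]

theorem norm_rel {t : L} (ht : Transcendental F t) (halg : Algebra.IsAlgebraic F⟮t⟯ L)
    (D : Derivation F L L) (hD : D t = 1) {q : ℕ} (M : Fin q → L) (hM : ∀ p, M p ≠ 0)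
    (θ : Fin q → F) (h : ∑ p, algebraMap F L (θ p) * (D (M p) / M p) = 0) (p0 : Fin q)
    (hp0 : M p0 = t) : ∃ n : Fin q → ℤ, n p0 ≠ 0 ∧ ∑ p, (n p : F) * θ p = 0 := by
  classical
  have hc : CharZero F⟮t⟯ :=
    charZero_of_injective_algebraMap (algebraMap F F⟮t⟯).injective
  let E : IntermediateField F⟮t⟯ L := IntermediateField.adjoin F⟮t⟯ (Set.range M)
  have hfin : FiniteDimensional F⟮t⟯ E := by
    apply IntermediateField.finiteDimensional_adjoin
    intro x _
    exact (halg.isAlgebraic x).isIntegral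
  have hME : ∀ p, M p ∈ E := fun p => subset_adjoin _ _ ⟨p, rfl⟩
  let m : Fin q → E := fun p => ⟨M p, hME p⟩
  have hm0 : ∀ p, m p ≠ 0 := fun p h => hM p (congrArg Subtype.val h)
  let N : Fin q → F⟮t⟯ := fun p => Algebra.norm F⟮t⟯ (m p)
  have hN : ∀ p, (N p : L) = ∏ σ : E →ₐ[F⟮t⟯] L, σ (m p) := fun p =>
    Algebra.norm_eq_prod_embeddings F⟮t⟯ L (m p)
  have hσ0 : ∀ (σ : E →ₐ[F⟮t⟯] L) (p : Fin q), σ (m p) ≠ 0 := fun σ p =>
    (map_ne_zero σ).2 (hm0 p)
  have hN0 : ∀ p, (N p : L) ≠ 0 := fun p => by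
    rw [hN]
    exact Finset.prod_ne_zero_iff.2 fun σ _ => hσ0 σ p
  have hIC : IsAlgClosure F⟮t⟯ L := ⟨inferInstance, halg⟩
  have hnorm : Normal F⟮t⟯ L := IsAlgClosure.normal F⟮t⟯ L
  have hσ : ∀ σ : E →ₐ[F⟮t⟯] L,
      ∑ p, algebraMap F L (θ p) * (D (σ (m p)) / σ (m p)) = 0 := by
    intro σ
    let σ1 : L →ₐ[F⟮t⟯] L := σ.liftNormal L
    let σ2 : L ≃ₐ[F⟮t⟯] L := AlgEquiv.ofBijective σ1 (AlgHom.normal_bijective _ L L σ1)
    have h1 : ∀ p, σ (m p) = σ2 (M p) := fun p => (σ.liftNormal_commutes L (m p)).symm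
    have h2 : ∀ c : F, σ2 (algebraMap F L c) = algebraMap F L c := fun c => by
      rw [IsScalarTower.algebraMap_apply F F⟮t⟯ L, σ2.commutes]
    have h3 : σ2 (∑ p, algebraMap F L (θ p) * (D (M p) / M p)) = 0 := by rw [h, map_zero]
    rw [map_sum] at h3
    rw [← h3]
    refine Finset.sum_congr rfl fun p _ => ?_
    rw [h1, der_comm t halg D hD σ2 (M p), map_mul, h2, map_div₀]
  have hsum : ∑ p, algebraMap F L (θ p) * (D (N p : L) / (N p : L)) = 0 := by
    have h1 : ∀ p, D (N p : L) / (N p : L) = ∑ σ : E →ₐ[F⟮t⟯] L, D (σ (m p)) / σ (m p) :=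
      fun p => by
        rw [hN]
        exact dlog_prod D _ _ fun σ _ => hσ0 σ p
    simp only [h1, Finset.mul_sum]
    rw [Finset.sum_comm]
    exact Finset.sum_eq_zero fun σ _ => hσ σ
  have hreg : ∀ p, ∃ n : ℤ, Reg t (t * (D (N p : L) / (N p : L))) (n : F) := fun p =>
    reg_dlog ht D hD (N p).2 (hN0 p)
  choose n hn using hreg
  refine ⟨n, ?_, ?_⟩
  · intro h0
    have ht0 := ne_zero_of_tr ht
    have hgen : m p0 = algebraMap F⟮t⟯ E (AdjoinSimple.gen F t) := by
      apply Subtype.ext
      change M p0 = _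
      rw [hp0]
      rfl
    have h1 : (N p0 : L) = t ^ ((Module.finrank F⟮t⟯ E : ℕ) : ℤ) := by
      change ((Algebra.norm F⟮t⟯ (m p0) : F⟮t⟯) : L) = _
      rw [hgen, Algebra.norm_algebraMap, zpow_natCast]
      rfl
    have h2 : t * (D (N p0 : L) / (N p0 : L)) = algebraMap F L (Module.finrank F⟮t⟯ E : F) := by
      rw [h1, dlog_zpow D ht0, hD, map_natCast]
      field_simp
      simp
    have h3 : Reg t (t * (D (N p0 : L) / (N p0 : L))) (Module.finrank F⟮t⟯ E : F) :=
      ⟨C (Module.finrank F⟮t⟯ E : F), 1, by simp, by rw [h2, aeval_C]; simp, by simp⟩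
    have h4 := Reg.unique ht (hn p0) h3
    rw [h0] at h4
    have h5 : Module.finrank F⟮t⟯ E ≠ 0 := Module.finrank_pos.ne'
    apply h5
    have h6 : ((Module.finrank F⟮t⟯ E : ℕ) : F) = ((0 : ℕ) : F) := by
      rw [← h4]; simp
    exact Nat.cast_injective h6
  · have h1 : Reg t (∑ p, algebraMap F L (θ p) * (t * (D (N p : L) / (N p : L))))
        (∑ p, θ p * (n p : F)) :=
      Reg.sum _ _ _ fun p _ => (hn p).smul (θ p)
    have h2 : ∑ p, algebraMap F L (θ p) * (t * (D (N p : L) / (N p : L))) = 0 := by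
      have h3 : ∑ p, algebraMap F L (θ p) * (t * (D (N p : L) / (N p : L))) =
          t * ∑ p, algebraMap F L (θ p) * (D (N p : L) / (N p : L)) := by
        rw [Finset.mul_sum]
        exact Finset.sum_congr rfl fun p _ => by ring
      rw [h3, hsum, mul_zero]
    rw [h2] at h1
    have h4 := Reg.unique ht h1 (Reg.zero t)
    rw [← h4]
    exact Finset.sum_congr rfl fun p _ => mul_comm _ _

end Norm

section Basis

variable {K L : Type} [Field K] [Field L] [Algebra K L]

open scoped IntermediateField.algebraAdjoinAdjoin in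
theorem exists_base {t : L} (ht : Transcendental K t) :
    ∃ F : IntermediateField K L, Transcendental F t ∧ Algebra.IsAlgebraic F⟮t⟯ L := by
  have h0 : AlgebraicIndepOn K _root_.id ({t} : Set L) := by
    have h1 : AlgebraicIndependent K (fun _ : Unit => t) := by
      rw [algebraicIndependent_unique_type_iff]
      exact ht
    have h2 := h1.coe_range
    rwa [Set.range_const] at h2
  obtain ⟨s, hts, hs⟩ := exists_isTranscendenceBasis_superset h0
  have hmem : t ∈ s := hts rfl
  have hins : insert t (s \ {t}) = s := Set.insert_sdiff_self_of_mem hmem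
  have hnot : t ∉ s \ {t} := fun h => h.2 rfl
  have hind : AlgebraicIndepOn K _root_.id (insert t (s \ {t})) := by
    rw [hins]
    exact hs.1
  have h1 := ((AlgebraicIndepOn.insert_iff hnot).1 hind).2
  rw [Set.image_id] at h1
  refine ⟨IntermediateField.adjoin K (s \ {t}), ?_, ?_⟩
  · intro h
    exact h1 ((IsFractionRing.isAlgebraic_iff (Algebra.adjoin K (s \ {t}))
      (IntermediateField.adjoin K (s \ {t})) L).2 h)
  · have h2 := hs.isAlgebraic_field
    rw [Subtype.range_coe] at h2
    have hle : IntermediateField.adjoin K s ≤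
        (IntermediateField.adjoin K (s \ {t}))⟮t⟯.restrictScalars K := by
      rw [adjoin_le_iff]
      intro x hx
      by_cases hxt : x = t
      · rw [hxt]
        exact mem_adjoin_simple_self _ t
      · exact (algebraMap (IntermediateField.adjoin K (s \ {t}))
          (IntermediateField.adjoin K (s \ {t}))⟮t⟯ ⟨x, subset_adjoin K _ ⟨hx, hxt⟩⟩).2
    constructor
    intro x
    let f : IntermediateField.adjoin K s →+* (IntermediateField.adjoin K (s \ {t}))⟮t⟯ :=
      { toFun := fun a => ⟨a.1, hle a.2⟩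
        map_one' := rfl
        map_mul' := fun _ _ => rfl
        map_zero' := rfl
        map_add' := fun _ _ => rfl }
    have hf : Function.Injective f := fun a b hab => by
      have h3 := congrArg (fun z : (IntermediateField.adjoin K (s \ {t}))⟮t⟯ => (z : L)) hab
      exact Subtype.ext h3
    exact (h2.isAlgebraic x).ringHom_of_comp_eq (f := f) (g := RingHom.id L) hf rfl

end Basis

theorem ax2 {L : Type} [Field L] [CharZero L] [IsAlgClosed L] (B : Subfield L) {r : ℕ}
    (Y : Fin r → L) (hY : ∀ j, Y j ≠ 0) (μ : Fin r → L) (hμ : ∀ j, μ j ∈ B) (hμ0 : μ ≠ 0)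
    (h : ∀ d : Derivation B L L, ∑ j, μ j * (d (Y j) / Y j) = 0) :
    ∃ e : Fin r → ℤ, e ≠ 0 ∧ IsAlgebraic B (∏ j, Y j ^ e j) := by
  classical
  let μB : Fin r → B := fun j => ⟨μ j, hμ j⟩
  let V : Submodule ℤ B := Submodule.span ℤ (Set.range μB)
  have hVf : Module.Finite ℤ V := Module.Finite.span_of_finite ℤ (Set.finite_range μB)
  have hVfree : Module.Free ℤ V := inferInstance
  let b := Module.finBasis ℤ V
  let q := Module.finrank ℤ V
  let θ : Fin q → B := fun p => (b p : B)
  let v : Fin r → V := fun j => ⟨μB j, Submodule.subset_span ⟨j, rfl⟩⟩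
  let a : Fin r → Fin q → ℤ := fun j p => b.repr (v j) p
  have ha : ∀ j, μB j = ∑ p, (a j p : B) * θ p := by
    intro j
    have h1 := congrArg (fun z : V => (z : B)) (b.sum_repr (v j))
    simp only [Submodule.coe_sum, Submodule.coe_smul] at h1
    refine h1.symm.trans (Finset.sum_congr rfl fun p _ => ?_)
    rw [zsmul_eq_mul]
  obtain ⟨p0, hp0⟩ : ∃ p0, (fun j => a j p0) ≠ 0 := by
    by_contra hcon
    push Not at hcon
    apply hμ0
    funext j
    have h1 : μB j = 0 := by
      rw [ha j]
      exact Finset.sum_eq_zero fun p _ => by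
        rw [show a j p = 0 from congrFun (hcon p) j, Int.cast_zero, zero_mul]
    exact congrArg Subtype.val h1
  refine ⟨fun j => a j p0, hp0, ?_⟩
  by_contra ht
  let M : Fin q → L := fun p => ∏ j, Y j ^ a j p
  have hM : ∀ p, M p ≠ 0 := fun p =>
    Finset.prod_ne_zero_iff.2 fun j _ => zpow_ne_zero _ (hY j)
  have htr : Transcendental B (M p0) := ht
  obtain ⟨F, hF, halg⟩ := exists_base htr
  have hcB : CharZero B := ((algebraMap B L).charZero_iff (algebraMap B L).injective).2 inferInstance
  have hcF : CharZero F := ((algebraMap F L).charZero_iff (algebraMap F L).injective).2 inferInstance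
  obtain ⟨D, hD⟩ := Pool.Agent.SMS.exists_der (k := F) (L := L) (M p0) hF
  have hdlog : ∀ p, D (M p) / M p = ∑ j, (a j p : L) * (D (Y j) / Y j) := fun p => by
    rw [dlog_prod D _ _ fun j _ => zpow_ne_zero _ (hY j)]
    exact Finset.sum_congr rfl fun j _ => dlog_zpow D (hY j) _
  have hsum : ∑ p, algebraMap F L (algebraMap B F (θ p)) * (D (M p) / M p) = 0 := by
    have h1 := h (D.restrictScalars B)
    simp only [Derivation.restrictScalars_apply] at h1
    rw [← h1]
    have h2 : ∀ j, μ j = ∑ p, (a j p : L) * (θ p : L) := fun j => by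
      have h3 := congrArg Subtype.val (ha j)
      simpa using h3
    simp only [hdlog, h2, Finset.mul_sum, Finset.sum_mul]
    rw [Finset.sum_comm]
    refine Finset.sum_congr rfl fun j _ => Finset.sum_congr rfl fun p _ => ?_
    rw [← IsScalarTower.algebraMap_apply B F L]
    change (θ p : L) * _ = _
    ring
  obtain ⟨n, hn0, hn⟩ := norm_rel hF halg D hD M hM (fun p => algebraMap B F (θ p)) hsum p0 rfl
  have h4 : ∑ p, (n p : B) * θ p = 0 := by
    apply (algebraMap B F).injective
    rw [map_sum, map_zero, ← hn]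
    exact Finset.sum_congr rfl fun p _ => by rw [map_mul, map_intCast]
  have h5 : ∑ p, n p • b p = 0 := by
    apply Subtype.ext
    simp only [Submodule.coe_sum, Submodule.coe_smul, ZeroMemClass.coe_zero]
    rw [← h4]
    exact Finset.sum_congr rfl fun p _ => by rw [zsmul_eq_mul]
  have h6 := Fintype.linearIndependent_iff.1 b.linearIndependent n h5 p0
  exact hn0 h6

end Pool.Agent.FNS
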