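import Pool.Agent.FNS.Jt

/-! # SPX, parts (e) and (f): pairs of values -/

set_option autoImplicit false

namespace Pool.Agent.FNS

open MvPolynomial Pool.Agent.FN Pool.Agent.FNX Pool.Agent.FNR

section ind

variable {G : Type} [Field G] {C : Subfield G} {τ ι : Type}

/-- the variables of the second kind as variables over the polynomials in the first kind -/
noncomputable def prsIter (τ ι : Type) (C : Type) [CommRing C] :
    MvPolynomial (τ ⊕ ι) C →ₐ[C] MvPolynomial ι (MvPolynomial τ C) :=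
  aeval (Sum.elim (fun w => MvPolynomial.C (X w)) X)

theorem prs_iter (x : τ → G) (Z : ι → G) (h : MvPolynomial (τ ⊕ ι) C) :
    eval₂ ((aeval x : MvPolynomial τ C →ₐ[C] G) : MvPolynomial τ C →+* G) Z (prsIter τ ι C h) =
      aeval (Sum.elim x Z) h := by
  induction h using MvPolynomial.induction_on with
  | C c =>
    rw [show (MvPolynomial.C c : MvPolynomial (τ ⊕ ι) C) = algebraMap C _ c from rfl,
      AlgHom.commutes, AlgHom.commutes,
      show (algebraMap C (MvPolynomial ι (MvPolynomial τ C)) c) =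
        MvPolynomial.C (algebraMap C (MvPolynomial τ C) c) from rfl, eval₂_C]
    exact (aeval x : MvPolynomial τ C →ₐ[C] G).commutes c
  | add p q hp hq => rw [map_add, eval₂_add, map_add, hp, hq]
  | mul_X p v hp =>
    rw [map_mul, eval₂_mul, map_mul, hp, aeval_X]
    congr 1
    unfold prsIter
    rw [aeval_X]
    rcases v with w | j
    · simp
    · simp

theorem prs_ind {B : Subfield G} (hCB : C ≤ B) (x x' : τ → G) (hx : ∀ w, x w ∈ B) (Z Z' : ι → G)
    (hind : AlgebraicIndependent B Z)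
    (hab : ∀ P : MvPolynomial τ C, aeval x P = 0 → aeval x' P = 0)
    (h : MvPolynomial (τ ⊕ ι) C) (h0 : aeval (Sum.elim x Z) h = 0) :
    aeval (Sum.elim x' Z') h = 0 := by
  classical
  have hmem : ∀ P : MvPolynomial τ C, aeval x P ∈ B := by
    intro P
    induction P using MvPolynomial.induction_on with
    | C c =>
      rw [show (MvPolynomial.C c : MvPolynomial τ C) = algebraMap C _ c from rfl, AlgHom.commutes]
      exact hCB c.2
    | add p q hp hq => rw [map_add]; exact B.add_mem hp hq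
    | mul_X p v hp => rw [map_mul, aeval_X]; exact B.mul_mem hp (hx v)
  let φ : MvPolynomial τ C →+* B :=
    ((aeval x : MvPolynomial τ C →ₐ[C] G) : MvPolynomial τ C →+* G).codRestrict B hmem
  have hφ : ∀ P, ((φ P : B) : G) = aeval x P := fun P => rfl
  have h1 : (MvPolynomial.map φ (prsIter τ ι C h)) = 0 := by
    apply hind.eq_zero_of_aeval_eq_zero
    rw [aeval_def, eval₂_map, ← h0, ← prs_iter]
    congr 1
  rw [← prs_iter]
  have h2 : ∀ m, aeval x' ((prsIter τ ι C h).coeff m) = 0 := by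
    intro m
    apply hab
    have h3 := congrArg (coeff m) h1
    rw [coeff_map, coeff_zero] at h3
    rw [← hφ, h3]
    rfl
  rw [eval₂_eq]
  exact Finset.sum_eq_zero fun m _ => by
    rw [show ((aeval x' : MvPolynomial τ C →ₐ[C] G) : MvPolynomial τ C →+* G)
      ((prsIter τ ι C h).coeff m) = aeval x' ((prsIter τ ι C h).coeff m) from rfl, h2, zero_mul]

end ind

section ee

variable {G : Type} [Field G] {C B : Subfield G} {τ : Type} {ρ s : ℕ}

/-- part (e): the specialization has no kernel -/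
theorem prs_e (hCB : C ≤ B) (x x' : τ → G) (hx : ∀ w, x w ∈ B)
    (hab : ∀ P : MvPolynomial τ C, aeval x P = 0 → aeval x' P = 0) (Y Y' : Fin (ρ + 1) → G)
    (hS : ∀ P : MvPolynomial (τ ⊕ Fin (ρ + 1)) C,
      aeval (Sum.elim x' Y') P = 0 → aeval (Sum.elim x Y) P = 0)
    (j0 : Fin (ρ + 1)) (hind : AlgebraicIndependent B fun j : {j // j ≠ j0} => Y j)
    (g : Fin s → MvPolynomial τ C) (f : Fin s → Fin (ρ + 1) → ℕ) (hf : Function.Injective f)
    (h1 : ∑ i, aeval x' (g i) * ∏ j, Y' j ^ f i j = 0) (i0 : Fin s) (h3 : aeval x (g i0) ≠ 0)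
    (A : MvPolynomial (τ ⊕ Fin (ρ + 1)) C) (hA : aeval (Sum.elim x Y) A = 0) :
    aeval (Sum.elim x' Y') A = 0 := by
  classical
  set x0' : τ ⊕ {j // j ≠ j0} → G := Sum.elim x' (fun j => Y' j) with hx0'
  set x0 : τ ⊕ {j // j ≠ j0} → G := Sum.elim x (fun j => Y j) with hx0
  let em : τ ⊕ {j // j ≠ j0} → τ ⊕ Fin (ρ + 1) := Sum.map id Subtype.val
  have hem' : ∀ h : MvPolynomial (τ ⊕ {j // j ≠ j0}) C,
      aeval (Sum.elim x' Y') (rename em h) = aeval x0' h := by
    intro h
    rw [aeval_rename]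
    congr 1
    congr 1
    funext v
    rcases v with w | j <;> rfl
  have hem : ∀ h : MvPolynomial (τ ⊕ {j // j ≠ j0}) C,
      aeval (Sum.elim x Y) (rename em h) = aeval x0 h := by
    intro h
    rw [aeval_rename]
    congr 1
    congr 1
    funext v
    rcases v with w | j <;> rfl
  have hS0 : ∀ h : MvPolynomial (τ ⊕ {j // j ≠ j0}) C, aeval x0' h = 0 → aeval x0 h = 0 := by
    intro h hh
    rw [← hem]
    exact hS _ (by rw [hem']; exact hh)
  have hI0 : ∀ h : MvPolynomial (τ ⊕ {j // j ≠ j0}) C, aeval x0 h = 0 → aeval x0' h = 0 :=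
    fun h hh => prs_ind hCB x x' hx _ _ hind hab h hh
  let R : Subalgebra C G := (aeval x0' : MvPolynomial (τ ⊕ {j // j ≠ j0}) C →ₐ[C] G).range
  have hRm : ∀ h : MvPolynomial (τ ⊕ {j // j ≠ j0}) C, aeval x0' h ∈ R := fun h => ⟨h, rfl⟩
  -- the remaining element is algebraic
  let gt : Fin s → MvPolynomial (τ ⊕ {j // j ≠ j0}) C := fun i =>
    rename Sum.inl (g i) * ∏ j : {j // j ≠ j0}, X (Sum.inr j) ^ f i j
  have hgt' : ∀ i, aeval x0' (gt i) = aeval x' (g i) * ∏ j : {j // j ≠ j0}, Y' j ^ f i j := by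
    intro i
    simp only [gt, map_mul, map_prod, map_pow, aeval_X, aeval_rename, hx0', Sum.elim_inr,
      Sum.elim_comp_inl]
  have hgt : ∀ i, aeval x0 (gt i) = aeval x (g i) * ∏ j : {j // j ≠ j0}, Y j ^ f i j := by
    intro i
    simp only [gt, map_mul, map_prod, map_pow, aeval_X, aeval_rename, hx0, Sum.elim_inr,
      Sum.elim_comp_inl]
  have halg0 : IsAlgebraic R (Y' j0) := by
    let Q : Polynomial R := ∑ i, Polynomial.C (⟨aeval x0' (gt i), hRm _⟩ : R) *
      Polynomial.X ^ (f i j0)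
    refine ⟨Q, ?_, ?_⟩
    · intro hQ
      have hc := congrArg (fun q : Polynomial R => ((q.coeff (f i0 j0) : R) : G)) hQ
      simp only [Q, Polynomial.finsetSum_coeff, Polynomial.coeff_C_mul, Polynomial.coeff_X_pow,
        mul_ite, mul_one, mul_zero, Polynomial.coeff_zero] at hc
      rw [← Finset.sum_filter] at hc
      have hc1 : aeval x0' (∑ i ∈ Finset.univ.filter (fun i => f i0 j0 = f i j0), gt i) = 0 := by
        rw [map_sum]
        have h5 : ((∑ i ∈ Finset.univ.filter (fun i => f i0 j0 = f i j0),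
            (⟨aeval x0' (gt i), hRm _⟩ : R) : R) : G) =
            ∑ i ∈ Finset.univ.filter (fun i => f i0 j0 = f i j0), aeval x0' (gt i) := by
          rw [AddSubmonoidClass.coe_finsetSum]
        rw [← h5, hc]
        rfl
      have hc2 := hS0 _ hc1
      rw [map_sum] at hc2
      have hxm : ∀ P : MvPolynomial τ C, aeval x P ∈ B := by
        intro P
        induction P using MvPolynomial.induction_on with
        | C c =>
          rw [show (MvPolynomial.C c : MvPolynomial τ C) = algebraMap C _ c from rfl,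
            AlgHom.commutes]
          exact hCB c.2
        | add p q hp hq => rw [map_add]; exact B.add_mem hp hq
        | mul_X p v hp => rw [map_mul, aeval_X]; exact B.mul_mem hp (hx v)
      let mm : Fin s → ({j // j ≠ j0} →₀ ℕ) := fun i =>
        Finsupp.equivFunOnFinite.symm (fun j => f i j)
      let p : MvPolynomial {j // j ≠ j0} B :=
        ∑ i ∈ Finset.univ.filter (fun i => f i0 j0 = f i j0),
          monomial (mm i) (⟨aeval x (g i), hxm _⟩ : B)
      have hp : p = 0 := by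
        apply hind.eq_zero_of_aeval_eq_zero
        rw [← hc2]
        simp only [p, map_sum]
        refine Finset.sum_congr rfl fun i _ => ?_
        rw [aeval_monomial, hgt]
        congr 1
        rw [Finsupp.prod_fintype _ _ (fun j => pow_zero _)]
        rfl
      have hp2 := congrArg (coeff (mm i0)) hp
      simp only [p, coeff_sum, coeff_monomial, coeff_zero] at hp2
      rw [Finset.sum_eq_single i0] at hp2
      · rw [if_pos rfl] at hp2
        exact h3 (congrArg Subtype.val hp2)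
      · intro i hi hne
        rw [if_neg]
        intro hmm
        apply hne
        apply hf
        funext j
        rw [Finset.mem_filter] at hi
        by_cases hj : j = j0
        · rw [hj, hi.2]
        · exact DFunLike.congr_fun hmm ⟨j, hj⟩
      · intro hn
        exact (hn (by simp)).elim
    · simp only [Q, map_sum, map_mul, Polynomial.aeval_C, map_pow, Polynomial.aeval_X]
      rw [← h1]
      refine Finset.sum_congr rfl fun i _ => ?_
      rw [Fintype.prod_eq_mul_prod_subtype_ne (fun j => Y' j ^ f i j) j0]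
      show aeval x0' (gt i) * Y' j0 ^ f i j0 = _
      rw [hgt']
      ring
  have halg : ∀ P : MvPolynomial (τ ⊕ Fin (ρ + 1)) C, IsAlgebraic R (aeval (Sum.elim x' Y') P) := by
    intro P
    have hin : ∀ z : G, z ∈ R → IsAlgebraic R z := fun z hz =>
      isAlgebraic_algebraMap (⟨z, hz⟩ : R)
    induction P using MvPolynomial.induction_on with
    | C c =>
      rw [show (MvPolynomial.C c : MvPolynomial (τ ⊕ Fin (ρ + 1)) C) = algebraMap C _ c from rfl,
        AlgHom.commutes]
      exact hin _ (R.algebraMap_mem c)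
    | add p q hp hq => rw [map_add]; exact hp.add hq
    | mul_X p v hp =>
      rw [map_mul, aeval_X]
      refine hp.mul ?_
      rcases v with w | j
      · refine hin _ ⟨X (Sum.inl w), ?_⟩
        simp [hx0']
      · by_cases hj : j = j0
        · rw [hj]
          exact halg0
        · refine hin _ ⟨X (Sum.inr ⟨j, hj⟩), ?_⟩
          simp [hx0']
  by_contra hw
  obtain ⟨q, hq0, hq⟩ := (halg A).exists_nonzero_coeff_and_aeval_eq_zero
    (mem_nonZeroDivisors_of_ne_zero hw)
  have hlift : ∀ k, ∃ h : MvPolynomial (τ ⊕ {j // j ≠ j0}) C, aeval x0' h = ((q.coeff k : R) : G) :=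
    fun k => (q.coeff k).2
  choose h hh using hlift
  let H : MvPolynomial (τ ⊕ Fin (ρ + 1)) C :=
    ∑ k ∈ Finset.range (q.natDegree + 1), rename em (h k) * A ^ k
  have hH' : aeval (Sum.elim x' Y') H = 0 := by
    simp only [H, map_sum, map_mul, map_pow, hem', hh]
    rw [← hq, Polynomial.aeval_eq_sum_range]
    rfl
  have hH := hS _ hH'
  simp only [H, map_sum, map_mul, map_pow, hem, hA] at hH
  rw [Finset.sum_eq_single 0] at hH
  · rw [pow_zero, mul_one] at hH
    have h6 := hI0 _ hH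
    rw [hh] at h6
    exact hq0 (Subtype.ext h6)
  · intro k _ hk
    rw [zero_pow hk, mul_zero]
  · intro hn
    exact absurd (Finset.mem_range.mpr (Nat.succ_pos _)) hn

end ee

section ff

variable {G : Type} [Field G] {C : Subfield G} {σ : Type}

/-- pairs of values of fractions -/
def prsS (C : Subfield G) (y y' : σ → G) (p q : G) : Prop :=
  ∃ A B : MvPolynomial σ C, aeval y B ≠ 0 ∧ aeval y' B ≠ 0 ∧ p * aeval y B = aeval y A ∧
    q * aeval y' B = aeval y' A

theorem prsS.mul {y y' : σ → G} {p q p1 q1 : G} (h : prsS C y y' p q) (h1 : prsS C y y' p1 q1) :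
    prsS C y y' (p * p1) (q * q1) := by
  obtain ⟨A, B, hB, hB', hp, hq⟩ := h
  obtain ⟨A1, B1, hB1, hB1', hp1, hq1⟩ := h1
  refine ⟨A * A1, B * B1, ?_, ?_, ?_, ?_⟩
  · rw [map_mul]; exact mul_ne_zero hB hB1
  · rw [map_mul]; exact mul_ne_zero hB' hB1'
  · rw [map_mul, map_mul, ← hp, ← hp1]; ring
  · rw [map_mul, map_mul, ← hq, ← hq1]; ring

theorem prsS.add {y y' : σ → G} {p q p1 q1 : G} (h : prsS C y y' p q) (h1 : prsS C y y' p1 q1) :
    prsS C y y' (p + p1) (q + q1) := by
  obtain ⟨A, B, hB, hB', hp, hq⟩ := h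
  obtain ⟨A1, B1, hB1, hB1', hp1, hq1⟩ := h1
  refine ⟨A * B1 + A1 * B, B * B1, ?_, ?_, ?_, ?_⟩
  · rw [map_mul]; exact mul_ne_zero hB hB1
  · rw [map_mul]; exact mul_ne_zero hB' hB1'
  · rw [map_mul, map_add, map_mul, map_mul, ← hp, ← hp1]; ring
  · rw [map_mul, map_add, map_mul, map_mul, ← hq, ← hq1]; ring

theorem prsS.val (y y' : σ → G) (A : MvPolynomial σ C) :
    prsS C y y' (aeval y A) (aeval y' A) :=
  ⟨A, 1, by rw [map_one]; exact one_ne_zero, by rw [map_one]; exact one_ne_zero,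
    by rw [map_one, mul_one], by rw [map_one, mul_one]⟩

theorem prsS.const (y y' : σ → G) (c : C) : prsS C y y' c c := by
  have h := prsS.val (C := C) y y' (MvPolynomial.C c)
  rw [show (MvPolynomial.C c : MvPolynomial σ C) = algebraMap C _ c from rfl, AlgHom.commutes,
    AlgHom.commutes] at h
  exact h

theorem prsS.neg {y y' : σ → G} {p q : G} (h : prsS C y y' p q) : prsS C y y' (-p) (-q) := by
  have h1 := (prsS.const y y' (-1 : C)).mul h
  rw [show (((-1 : C) : G)) = -1 by simp, neg_one_mul, neg_one_mul] at h1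
  exact h1

theorem prsS.inv {y y' : σ → G}
    (hk : ∀ A : MvPolynomial σ C, aeval y A = 0 ↔ aeval y' A = 0) {p q : G}
    (h : prsS C y y' p q) : prsS C y y' p⁻¹ q⁻¹ := by
  obtain ⟨A, B, hB, hB', hp, hq⟩ := h
  by_cases h0 : aeval y A = 0
  · have h0' := (hk A).1 h0
    have hp0 : p = 0 := by
      rw [h0] at hp
      exact (mul_eq_zero.1 hp).resolve_right hB
    have hq0 : q = 0 := by
      rw [h0'] at hq
      exact (mul_eq_zero.1 hq).resolve_right hB'
    have h2 := prsS.const y y' (0 : C)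
    rw [hp0, hq0, inv_zero]
    simpa using h2
  · have h0' : aeval y' A ≠ 0 := fun h => h0 ((hk A).2 h)
    refine ⟨B, A, h0, h0', ?_, ?_⟩
    · have hp0 : p ≠ 0 := by
        rintro rfl
        exact h0 (by rw [← hp, zero_mul])
      rw [← hp, ← mul_assoc, inv_mul_cancel₀ hp0, one_mul]
    · have hq0 : q ≠ 0 := by
        rintro rfl
        exact h0' (by rw [← hq, zero_mul])
      rw [← hq, ← mul_assoc, inv_mul_cancel₀ hq0, one_mul]

theorem prsS.pow {y y' : σ → G} {p q : G} (h : prsS C y y' p q) (n : ℕ) :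
    prsS C y y' (p ^ n) (q ^ n) := by
  induction n with
  | zero =>
    have h2 := prsS.const y y' (1 : C)
    rw [pow_zero, pow_zero]
    simpa using h2
  | succ n ih => rw [pow_succ, pow_succ]; exact ih.mul h

theorem prsS.zpow {y y' : σ → G}
    (hk : ∀ A : MvPolynomial σ C, aeval y A = 0 ↔ aeval y' A = 0) {p q : G}
    (h : prsS C y y' p q) (n : ℤ) : prsS C y y' (p ^ n) (q ^ n) := by
  rcases n with n | n
  · rw [Int.ofNat_eq_natCast, zpow_natCast, zpow_natCast]
    exact h.pow n
  · rw [zpow_negSucc, zpow_negSucc]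
    exact (h.pow _).inv hk

theorem prsS.prod {y y' : σ → G} {ι : Type} (T : Finset ι) (p q : ι → G)
    (h : ∀ i ∈ T, prsS C y y' (p i) (q i)) : prsS C y y' (∏ i ∈ T, p i) (∏ i ∈ T, q i) := by
  classical
  induction T using Finset.induction_on with
  | empty =>
    have h2 := prsS.const y y' (1 : C)
    rw [Finset.prod_empty, Finset.prod_empty]
    simpa using h2
  | insert i T hi ih =>
    rw [Finset.prod_insert hi, Finset.prod_insert hi]
    exact (h i (Finset.mem_insert_self i T)).mul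
      (ih fun j hj => h j (Finset.mem_insert_of_mem hj))

theorem prsS.aeval {y y' : σ → G} {κ : Type} (u u' : κ → G) (h : ∀ w, prsS C y y' (u w) (u' w))
    (P : MvPolynomial κ C) : prsS C y y' (MvPolynomial.aeval u P) (MvPolynomial.aeval u' P) := by
  induction P using MvPolynomial.induction_on with
  | C c =>
    rw [show (MvPolynomial.C c : MvPolynomial κ C) = algebraMap C _ c from rfl, AlgHom.commutes,
      AlgHom.commutes]
    exact prsS.const y y' c
  | add p q hp hq => rw [map_add, map_add]; exact hp.add hq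
  | mul_X p v hp =>
    rw [map_mul, map_mul, aeval_X, aeval_X]
    exact hp.mul (h v)

/-- closure under the derivation -/
theorem prsS.der {y y' : σ → G} (D : Derivation ℤ G G) (hC : ∀ x ∈ C, D x = 0)
    (hk : ∀ A : MvPolynomial σ C, MvPolynomial.aeval y A = 0 ↔ MvPolynomial.aeval y' A = 0)
    (hy : ∀ w, prsS C y y' (D (y w)) (D (y' w))) {p q : G} (h : prsS C y y' p q) :
    prsS C y y' (D p) (D q) := by
  have h1 : ∀ A : MvPolynomial σ C,
      prsS C y y' (D (MvPolynomial.aeval y A)) (D (MvPolynomial.aeval y' A)) := by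
    intro A
    induction A using MvPolynomial.induction_on with
    | C c =>
      rw [show (MvPolynomial.C c : MvPolynomial σ C) = algebraMap C _ c from rfl,
        AlgHom.commutes, AlgHom.commutes, show D (algebraMap C G c) = 0 from hC _ c.2]
      simpa using prsS.const y y' (0 : C)
    | add p q hp hq => rw [map_add, map_add, map_add, map_add]; exact hp.add hq
    | mul_X p v hp =>
      rw [map_mul (MvPolynomial.aeval y), map_mul (MvPolynomial.aeval y'), aeval_X, aeval_X,
        Derivation.leibniz, Derivation.leibniz, smul_eq_mul, smul_eq_mul, smul_eq_mul, smul_eq_mul]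
      refine ((prsS.val y y' p).mul (hy v)).add (prsS.mul ?_ hp)
      have := prsS.val (C := C) y y' (X v)
      rwa [aeval_X, aeval_X] at this
  have h0 := h
  obtain ⟨A, B, hB, hB', hp, hq⟩ := h
  have hp2 : D p = (D (MvPolynomial.aeval y A) + -(p * D (MvPolynomial.aeval y B))) *
      (MvPolynomial.aeval y B)⁻¹ := by
    rw [eq_mul_inv_iff_mul_eq₀ hB, ← hp, Derivation.leibniz, smul_eq_mul, smul_eq_mul]
    ring
  have hq2 : D q = (D (MvPolynomial.aeval y' A) + -(q * D (MvPolynomial.aeval y' B))) *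
      (MvPolynomial.aeval y' B)⁻¹ := by
    rw [eq_mul_inv_iff_mul_eq₀ hB', ← hq, Derivation.leibniz, smul_eq_mul, smul_eq_mul]
    ring
  rw [hp2, hq2]
  exact ((h1 A).add (h0.mul (h1 B)).neg).mul ((prsS.val y y' B).inv hk)

end ff

/-- pure algebra, the parts (e), (f) of the page -/
theorem pairs {G : Type} [Field G] (D : Derivation ℤ G G) (C : Subfield G)
    (hC : ∀ x ∈ C, D x = 0) {N ρ s : ℕ} (a b : Fin N → G)
    (hab : ∀ P : MvPolynomial (Fin N × ℕ) C, aeval (jt D b) P = 0 → aeval (jt D a) P = 0)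
    (Y Y' : Fin (ρ + 1) → G) (hY : ∀ j, Y j ≠ 0) (hY' : ∀ j, Y' j ≠ 0)
    (hS : ∀ P : MvPolynomial ((Fin N × ℕ) ⊕ Fin (ρ + 1)) C,
      aeval (Sum.elim (jt D a) Y') P = 0 → aeval (Sum.elim (jt D b) Y) P = 0)
    (B : Subfield G) (hCB : C ≤ B) (hbB : ∀ w, jt D b w ∈ B) (j0 : Fin (ρ + 1))
    (hind : AlgebraicIndependent B fun j : {j // j ≠ j0} => Y j)
    (κ n : Fin s → C) (c : Fin s → Fin N) (f : Fin s → Fin (ρ + 1) → ℕ)
    (hf : Function.Injective f)
    (h1 : ∑ i, (κ i : G) * a (c i) * ∏ j, Y' j ^ f i j = 0)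
    (h3 : ∑ i, (n i : G) * κ i * b (c i) * ∏ j, Y j ^ f i j ≠ 0)
    (ν : Fin (ρ + 1) → C) (v v' : G) (hv : ∀ j, D (Y j) = ν j * v * Y j)
    (hv' : ∀ j, D (Y' j) = ν j * v' * Y' j)
    (h4 : ∑ i, (κ i : G) * D (a (c i)) * ∏ j, Y' j ^ f i j +
      v' * ∑ i, (n i : G) * κ i * a (c i) * ∏ j, Y' j ^ f i j = 0)
    (h5 : ∑ i, (κ i : G) * D (b (c i)) * ∏ j, Y j ^ f i j +
      v * ∑ i, (n i : G) * κ i * b (c i) * ∏ j, Y j ^ f i j = 0)
    (ε : Fin (ρ + 1) → ℤ) (P : MvPolynomial (Fin (N + 1) × ℕ) C)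
    (hP : aeval (jt D (Fin.snoc b (∏ j, Y j ^ ε j) : Fin (N + 1) → G)) P = 0) :
    aeval (jt D (Fin.snoc a (∏ j, Y' j ^ ε j) : Fin (N + 1) → G)) P = 0 := by
  classical
  have _ := hY
  have _ := hY'
  set y : (Fin N × ℕ) ⊕ Fin (ρ + 1) → G := Sum.elim (jt D b) Y with hy
  set y' : (Fin N × ℕ) ⊕ Fin (ρ + 1) → G := Sum.elim (jt D a) Y' with hy'
  let g : Fin s → MvPolynomial (Fin N × ℕ) C := fun i => MvPolynomial.C (κ i) * X (c i, 0)
  have hg : ∀ z : Fin N → G, ∀ i, aeval (jt D z) (g i) = κ i * z (c i) := by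
    intro z i
    simp only [g, map_mul, aeval_X]
    rw [show (MvPolynomial.C (κ i) : MvPolynomial (Fin N × ℕ) C) = algebraMap C _ (κ i) from rfl,
      AlgHom.commutes]
    rfl
  obtain ⟨i0, hi0⟩ : ∃ i, aeval (jt D b) (g i) ≠ 0 := by
    by_contra hcon
    push Not at hcon
    apply h3
    refine Finset.sum_eq_zero fun i _ => ?_
    have h6 := hcon i
    rw [hg] at h6
    rw [mul_assoc (n i : G), h6, mul_zero, zero_mul]
  have hk : ∀ A : MvPolynomial ((Fin N × ℕ) ⊕ Fin (ρ + 1)) C, aeval y A = 0 ↔ aeval y' A = 0 := by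
    intro A
    refine ⟨fun hA => ?_, fun hA => hS A hA⟩
    refine prs_e hCB (jt D b) (jt D a) hbB hab Y Y' hS j0 hind g f hf ?_ i0 hi0 A hA
    rw [← h1]
    exact Finset.sum_congr rfl fun i _ => by rw [hg]
  have hYY : ∀ j, prsS C y y' (Y j) (Y' j) := by
    intro j
    have h6 := prsS.val (C := C) y y' (X (Sum.inr j))
    rwa [aeval_X, aeval_X] at h6
  have hjj : ∀ w, prsS C y y' (jt D b w) (jt D a w) := by
    intro w
    have h6 := prsS.val (C := C) y y' (X (Sum.inl w))
    rwa [aeval_X, aeval_X] at h6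
  -- the logarithmic derivative
  let F0 : MvPolynomial ((Fin N × ℕ) ⊕ Fin (ρ + 1)) C :=
    ∑ i, MvPolynomial.C (κ i) * X (Sum.inl (c i, 1)) * ∏ j, X (Sum.inr j) ^ f i j
  let F1 : MvPolynomial ((Fin N × ℕ) ⊕ Fin (ρ + 1)) C :=
    ∑ i, MvPolynomial.C (n i) * MvPolynomial.C (κ i) * X (Sum.inl (c i, 0)) *
      ∏ j, X (Sum.inr j) ^ f i j
  have hCC : ∀ (z : (Fin N × ℕ) ⊕ Fin (ρ + 1) → G) (t : C),
      aeval z (MvPolynomial.C t : MvPolynomial ((Fin N × ℕ) ⊕ Fin (ρ + 1)) C) = (t : G) := by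
    intro z t
    rw [show (MvPolynomial.C t : MvPolynomial ((Fin N × ℕ) ⊕ Fin (ρ + 1)) C) =
      algebraMap C _ t from rfl, AlgHom.commutes]
    rfl
  have hF0 : aeval y F0 = ∑ i, (κ i : G) * D (b (c i)) * ∏ j, Y j ^ f i j := by
    simp only [F0, map_sum, map_mul, map_prod, map_pow, aeval_X, hCC]
    rfl
  have hF0' : aeval y' F0 = ∑ i, (κ i : G) * D (a (c i)) * ∏ j, Y' j ^ f i j := by
    simp only [F0, map_sum, map_mul, map_prod, map_pow, aeval_X, hCC]
    rfl
  have hF1 : aeval y F1 = ∑ i, (n i : G) * κ i * b (c i) * ∏ j, Y j ^ f i j := by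
    simp only [F1, map_sum, map_mul, map_prod, map_pow, aeval_X, hCC]
    rfl
  have hF1' : aeval y' F1 = ∑ i, (n i : G) * κ i * a (c i) * ∏ j, Y' j ^ f i j := by
    simp only [F1, map_sum, map_mul, map_prod, map_pow, aeval_X, hCC]
    rfl
  have hvv : prsS C y y' v v' := by
    refine ⟨-F0, F1, ?_, ?_, ?_, ?_⟩
    · rw [hF1]; exact h3
    · intro h6
      exact h3 (by rw [← hF1]; exact (hk F1).2 h6)
    · rw [map_neg, hF0, hF1]
      linear_combination h5
    · rw [map_neg, hF0', hF1']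
      linear_combination h4
  have hder : ∀ w, prsS C y y' (D (y w)) (D (y' w)) := by
    rintro (w | j)
    · have h6 := hjj (w.1, w.2 + 1)
      unfold jt at h6
      rw [Function.iterate_succ_apply', Function.iterate_succ_apply'] at h6
      exact h6
    · show prsS C y y' (D (Y j)) (D (Y' j))
      rw [hv, hv']
      exact ((prsS.const y y' (ν j)).mul hvv).mul (hYY j)
  have hβ : prsS C y y' (∏ j, Y j ^ ε j) (∏ j, Y' j ^ ε j) :=
    prsS.prod _ _ _ fun j _ => (hYY j).zpow hk (ε j)
  have hit : ∀ k : ℕ, prsS C y y' (D^[k] (∏ j, Y j ^ ε j)) (D^[k] (∏ j, Y' j ^ ε j)) := by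
    intro k
    induction k with
    | zero => exact hβ
    | succ k ih =>
      rw [Function.iterate_succ_apply', Function.iterate_succ_apply']
      exact ih.der D hC hk hder
  have hall : ∀ w, prsS C y y' (jt D (Fin.snoc b (∏ j, Y j ^ ε j) : Fin (N + 1) → G) w)
      (jt D (Fin.snoc a (∏ j, Y' j ^ ε j) : Fin (N + 1) → G) w) := by
    rintro ⟨i, k⟩
    unfold jt
    refine Fin.lastCases ?_ (fun i => ?_) i
    · simp only [Fin.snoc_last]
      exact hit k
    · simp only [Fin.snoc_castSucc]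
      exact hjj (i, k)
  obtain ⟨A, B1, hB, hB', hp, hq⟩ := prsS.aeval _ _ hall P
  rw [hP, zero_mul] at hp
  have h7 := (hk A).1 hp.symm
  rw [h7] at hq
  exact (mul_eq_zero.1 hq).resolve_right hB'

end Pool.Agent.FNS
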