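import Pool.Agent.FNS.AxC
import Pool.Agent.FNS.Ax2

/-!
# FNS/Ax1: exponential functions with a common `v` (project SPX, c9768e)
-/

set_option autoImplicit false

namespace Pool.Agent.FNS

theorem ax1 {L : Type} [Field L] [CharZero L] [IsAlgClosed L] (δ : Derivation ℤ L L)
    (B : Subfield L) (hB : ∀ x ∈ B, δ x ∈ B) (hC : ∀ x, δ x = 0 → x ∈ B) {r : ℕ}
    (Y : Fin (r + 1) → L) (hY : ∀ j, Y j ≠ 0) (v : L) (ν : Fin (r + 1) → L)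
    (hν : ∀ j, δ (ν j) = 0) (hν0 : ∀ j, ν j ≠ 0) (hYv : ∀ j, δ (Y j) = ν j * v * Y j)
    (hn : ∀ e : Fin (r + 1) → ℤ, e ≠ 0 → ¬ IsAlgebraic B (∏ j, Y j ^ e j)) :
    ∃ j0 : Fin (r + 1), AlgebraicIndependent B fun j : {j // j ≠ j0} => Y j := by
  by_contra hcon
  push Not at hcon
  obtain ⟨μ, hμ0, hμc, hμ⟩ := ax1_const δ B hB hC Y hY v ν hν hYv hcon
  obtain ⟨e, he, hal⟩ := ax2 B Y hY μ (fun j => hC _ (hμc j)) hμ0 hμ
  exact hn e he hal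

end Pool.Agent.FNS
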