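import Mathlib

/-!
# FNS/AxC: if every `r` of the `Y j` are dependent over `B`, a relation with constant coefficients holds on all
`B`-derivations (project SPX, c9768e)
-/

set_option autoImplicit false

open Polynomial

namespace Pool.Agent.FNS

/-- a derivation kills what is algebraic over a subalgebra which it kills -/
theorem der_alg0 {k L : Type} [Field k] [Field L] [CharZero L] [Algebra k L]
    (d : Derivation k L L) (s : Set L) (hs : ∀ x ∈ s, d x = 0) {x : L}
    (hx : IsAlgebraic (Algebra.adjoin k s) x) : d x = 0 := by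
  have hA : ∀ a ∈ Algebra.adjoin k s, d a = 0 := by
    intro a ha
    induction ha using Algebra.adjoin_induction with
    | mem x hx => exact hs x hx
    | algebraMap r => exact d.map_algebraMap r
    | add x y _ _ h1 h2 => rw [map_add, h1, h2, add_zero]
    | mul x y _ _ h1 h2 => rw [d.leibniz, h1, h2]; simp
  let d' : Derivation (Algebra.adjoin k s) L L :=
    Derivation.mk' { toFun := d
                     map_add' := d.map_add
                     map_smul' := fun a x => by
                      have h1 : d (a : L) = 0 := hA a a.2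
                      have h2 : a • x = (a : L) * x := rfl
                      rw [h2, d.leibniz, h1]
                      simp [Algebra.smul_def] } (fun a b => d.leibniz a b)
  have hd' : ∀ y, d' y = d y := fun _ => rfl
  have key : ∀ n : ℕ, ∀ p : (Algebra.adjoin k s)[X], p.natDegree = n → p ≠ 0 → aeval x p = 0 →
      d x = 0 := by
    intro n
    induction n using Nat.strong_induction_on with
    | _ n ih =>
      intro p hn hp h0
      have h1 : aeval x (derivative p) • d' x = 0 := by
        rw [← d'.map_aeval, h0, map_zero]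
      by_cases h2 : aeval x (derivative p) = 0
      · have h4 : p.natDegree ≠ 0 := by
          intro h
          rw [Polynomial.eq_C_of_natDegree_eq_zero h] at h0 hp
          rw [aeval_C] at h0
          apply hp
          have h5 : p.coeff 0 = 0 := Subtype.ext (by simpa using h0)
          rw [h5, C_0]
        have h3 : derivative p ≠ 0 := by
          intro h
          exact h4 (Polynomial.derivative_eq_zero.1 h)
        exact ih _ (hn ▸ natDegree_derivative_lt h4) _ rfl h3 h2
      · rcases smul_eq_zero.1 h1 with h | h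
        · exact absurd h h2
        · exact h
  obtain ⟨p, hp, h0⟩ := hx
  exact key _ p rfl hp h0

/-- a nonzero stable subspace contains a nonzero constant vector -/
theorem const_vec {L : Type} [Field L] (δ : Derivation ℤ L L) {n : ℕ} (W : Submodule L (Fin n → L))
    (hW : ∀ f ∈ W, (fun j => δ (f j)) ∈ W) (h0 : W ≠ ⊥) :
    ∃ f ∈ W, f ≠ 0 ∧ ∀ j, δ (f j) = 0 := by
  classical
  have hex : ∃ m, ∃ f ∈ W, f ≠ 0 ∧ (Finset.univ.filter fun j => f j ≠ 0).card = m := by
    obtain ⟨f, hf, hf0⟩ := W.ne_bot_iff.1 h0
    exact ⟨_, f, hf, hf0, rfl⟩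
  obtain ⟨f, hf, hf0, hc⟩ := Nat.find_spec hex
  obtain ⟨j0, hj0⟩ : ∃ j0, f j0 ≠ 0 := Function.ne_iff.1 hf0
  refine ⟨(f j0)⁻¹ • f, W.smul_mem _ hf, ?_, ?_⟩
  · intro h
    have := congrFun h j0
    simp [hj0] at this
  · by_contra hcon
    push Not at hcon
    obtain ⟨j1, hj1⟩ := hcon
    have h1 := hW _ (W.smul_mem (f j0)⁻¹ hf)
    have h2 : (Finset.univ.filter fun j => δ (((f j0)⁻¹ • f) j) ≠ 0).card < Nat.find hex := by
      rw [← hc]
      apply Finset.card_lt_card
      rw [Finset.ssubset_iff_of_subset]
      · refine ⟨j0, by simpa using hj0, ?_⟩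
        have h5 : ((f j0)⁻¹ • f) j0 = 1 := by simp [hj0]
        rw [Finset.mem_filter, h5]
        simp
      · intro j hj
        rw [Finset.mem_filter] at hj ⊢
        refine ⟨Finset.mem_univ _, fun h => hj.2 ?_⟩
        simp [h]
    exact Nat.find_min hex h2 ⟨_, h1, fun h => hj1 (congrFun h j1), rfl⟩

/-- logarithmic derivative at `y` as a functional on derivations -/
noncomputable def ld {L : Type} [Field L] (B : Subfield L) (y : L) :
    Derivation B L L →ₗ[L] L where
  toFun d := d y / y
  map_add' a b := by simp [add_div]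
  map_smul' a b := by simp [mul_div_assoc]

/-- the commutator with `δ` -/
noncomputable def br {L : Type} [Field L] (δ : Derivation ℤ L L) (B : Subfield L)
    (hB : ∀ x ∈ B, δ x ∈ B) (d : Derivation B L L) : Derivation B L L :=
  Derivation.mk' { toFun := fun x => δ (d x) - d (δ x)
                   map_add' := fun x y => by simp only [map_add]; ring
                   map_smul' := fun b x => by
                    have h1 : ∀ c : B, ∀ y : L, c • y = (c : L) * y := fun _ _ => rfl
                    have h2 : ∀ c ∈ B, d c = 0 := fun c hc => d.map_algebraMap ⟨c, hc⟩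
                    simp only [h1, RingHom.id_apply]
                    have h3 : d ((b : L) * x) = (b : L) * d x := by
                      rw [← h1, d.map_smul, h1]
                    rw [h3, δ.leibniz, δ.leibniz, map_add, smul_eq_mul, smul_eq_mul, smul_eq_mul,
                      smul_eq_mul, d.leibniz, d.leibniz, h2 _ b.2, h2 _ (hB _ b.2)]
                    simp only [smul_eq_mul]
                    ring }
    (fun x y => by
      simp only [LinearMap.coe_mk, AddHom.coe_mk, δ.leibniz, d.leibniz, map_add, smul_eq_mul]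
      ring)

theorem br_apply {L : Type} [Field L] (δ : Derivation ℤ L L) (B : Subfield L)
    (hB : ∀ x ∈ B, δ x ∈ B) (d : Derivation B L L) (x : L) :
    br δ B hB d x = δ (d x) - d (δ x) := rfl

theorem ax1_const {L : Type} [Field L] [CharZero L] (δ : Derivation ℤ L L)
    (B : Subfield L) (hB : ∀ x ∈ B, δ x ∈ B) (hC : ∀ x, δ x = 0 → x ∈ B) {r : ℕ}
    (Y : Fin (r + 1) → L) (hY : ∀ j, Y j ≠ 0) (v : L) (ν : Fin (r + 1) → L)
    (hν : ∀ j, δ (ν j) = 0) (hYv : ∀ j, δ (Y j) = ν j * v * Y j)
    (hn : ∀ j0 : Fin (r + 1), ¬ AlgebraicIndependent B fun j : {j // j ≠ j0} => Y j) :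
    ∃ μ : Fin (r + 1) → L, μ ≠ 0 ∧ (∀ j, δ (μ j) = 0) ∧
      ∀ d : Derivation B L L, ∑ j, μ j * (d (Y j) / Y j) = 0 := by
  classical
  -- a maximal independent set
  obtain ⟨s, hs, hmax⟩ : ∃ s : Finset (Fin (r + 1)), AlgebraicIndepOn B Y (s : Set (Fin (r + 1))) ∧
      ∀ t : Finset (Fin (r + 1)), AlgebraicIndepOn B Y (t : Set (Fin (r + 1))) → t.card ≤ s.card := by
    have h0 : (Finset.univ.filter fun t : Finset (Fin (r + 1)) =>
        AlgebraicIndepOn B Y (t : Set (Fin (r + 1)))).Nonempty := by
      refine ⟨∅, ?_⟩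
      rw [Finset.mem_filter]
      refine ⟨Finset.mem_univ _, ?_⟩
      unfold AlgebraicIndepOn
      rw [Finset.coe_empty]
      exact algebraicIndependent_empty_type
    obtain ⟨s, hs, h⟩ := Finset.exists_max_image _ Finset.card h0
    exact ⟨s, (Finset.mem_filter.1 hs).2, fun t ht =>
      h t (Finset.mem_filter.2 ⟨Finset.mem_univ _, ht⟩)⟩
  -- it has at most `r - 1` elements
  have hcard : s.card + 1 < r + 1 := by
    by_contra hcon
    have h1 : sᶜ.card ≤ 1 := by
      have := Finset.card_add_card_compl s
      rw [Fintype.card_fin] at this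
      omega
    obtain ⟨j0, hj0⟩ : ∃ j0, ∀ j, j ≠ j0 → j ∈ s := by
      by_cases he : sᶜ = ∅
      · exact ⟨0, fun j _ => by
          by_contra hj
          have : j ∈ sᶜ := Finset.mem_compl.2 hj
          rw [he] at this
          exact absurd this (Finset.notMem_empty _)⟩
      · obtain ⟨j0, hj0⟩ := Finset.nonempty_iff_ne_empty.2 he
        refine ⟨j0, fun j hj => ?_⟩
        by_contra hjs
        exact hj (Finset.card_le_one.1 h1 j (Finset.mem_compl.2 hjs) j0 hj0)
    apply hn j0
    have h2 : AlgebraicIndepOn B Y {j | j ≠ j0} := hs.mono fun j hj => hj0 j hj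
    exact h2
  -- the functionals of `s` generate all
  have hspan : ∀ j, ∃ c : s → L, ∑ i, c i • ld B (Y i) = ld B (Y j) := by
    intro j
    have h1 : ld B (Y j) ∈ Submodule.span L (Set.range fun i : s => ld B (Y i)) := by
      apply mem_span_of_iInf_ker_le_ker
      intro d hd
      rw [Submodule.mem_iInf] at hd
      have h2 : ∀ i ∈ s, d (Y i) = 0 := by
        intro i hi
        have h3 := hd ⟨i, hi⟩
        rw [LinearMap.mem_ker] at h3
        exact (div_eq_zero_iff.1 h3).resolve_right (hY i)
      rw [LinearMap.mem_ker]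
      have h4 : d (Y j) = 0 := by
        by_cases hj : j ∈ s
        · exact h2 j hj
        · refine der_alg0 d (Y '' (s : Set (Fin (r + 1)))) ?_ ?_
          · rintro _ ⟨i, hi, rfl⟩
            exact h2 i hi
          · by_contra htr
            have h5 : AlgebraicIndepOn B Y (insert j (s : Set (Fin (r + 1)))) :=
              (AlgebraicIndepOn.insert_iff (by simpa using hj)).2 ⟨hs, htr⟩
            have h6 := hmax (insert j s) (by rw [Finset.coe_insert]; exact h5)
            rw [Finset.card_insert_of_notMem hj] at h6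
            omega
      change d (Y j) / Y j = 0
      rw [h4, zero_div]
    exact (Submodule.mem_span_range_iff_exists_fun L).1 h1
  choose c hc using hspan
  -- the stable subspace
  let W : Submodule L (Fin (r + 1) → L) :=
    { carrier := {f | (∀ d : Derivation B L L, ∑ j, f j * (d (Y j) / Y j) = 0) ∧
        ∑ j, f j * ν j = 0}
      add_mem' := by
        rintro f g ⟨h1, h2⟩ ⟨h3, h4⟩
        refine ⟨fun d => ?_, ?_⟩
        · simp only [Pi.add_apply, add_mul, Finset.sum_add_distrib, h1 d, h3 d, add_zero]
        · simp only [Pi.add_apply, add_mul, Finset.sum_add_distrib, h2, h4, add_zero]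
      zero_mem' := ⟨fun d => by simp, by simp⟩
      smul_mem' := by
        rintro a f ⟨h1, h2⟩
        refine ⟨fun d => ?_, ?_⟩
        · simp only [Pi.smul_apply, smul_eq_mul, mul_assoc, ← Finset.mul_sum, h1 d, mul_zero]
        · simp only [Pi.smul_apply, smul_eq_mul, mul_assoc, ← Finset.mul_sum, h2, mul_zero] }
  have hWmem : ∀ f, f ∈ W ↔ (∀ d : Derivation B L L, ∑ j, f j * (d (Y j) / Y j) = 0) ∧
      ∑ j, f j * ν j = 0 := fun _ => Iff.rfl
  have hW0 : W ≠ ⊥ := by
    let Ψ : (Fin (r + 1) → L) →ₗ[L] ((s → L) × L) :=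
      { toFun := fun f => (fun i => ∑ j, f j * c j i, ∑ j, f j * ν j)
        map_add' := fun f g => by
          ext i
          · simp [add_mul, Finset.sum_add_distrib]
          · simp [add_mul, Finset.sum_add_distrib]
        map_smul' := fun a f => by
          ext i
          · simp [mul_assoc, ← Finset.mul_sum]
          · simp [mul_assoc, ← Finset.mul_sum] }
    have hk : LinearMap.ker Ψ ≠ ⊥ := by
      apply LinearMap.ker_ne_bot_of_finrank_lt
      rw [Module.finrank_prod, Module.finrank_fintype_fun_eq_card, Module.finrank_self,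
        Module.finrank_fin_fun, Fintype.card_coe]
      exact hcard
    obtain ⟨f, hf, hf0⟩ := (Submodule.ne_bot_iff _).1 hk
    refine (Submodule.ne_bot_iff _).2 ⟨f, ?_, hf0⟩
    rw [LinearMap.mem_ker] at hf
    have hf1 : ∀ i, ∑ j, f j * c j i = 0 := fun i => congrFun (congrArg Prod.fst hf) i
    have hf2 : ∑ j, f j * ν j = 0 := congrArg Prod.snd hf
    refine (hWmem f).2 ⟨fun d => ?_, hf2⟩
    have h1 : ∀ j, d (Y j) / Y j = ∑ i, c j i * (d (Y (i : Fin (r + 1))) / Y i) := by
      intro j
      have h2 := LinearMap.congr_fun (hc j) d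
      rw [LinearMap.sum_apply] at h2
      exact h2.symm
    calc ∑ j, f j * (d (Y j) / Y j) = ∑ j, ∑ i, f j * c j i * (d (Y (i : Fin (r + 1))) / Y i) := by
          refine Finset.sum_congr rfl fun j _ => ?_
          rw [h1 j, Finset.mul_sum]
          exact Finset.sum_congr rfl fun i _ => by ring
      _ = ∑ i, (∑ j, f j * c j i) * (d (Y (i : Fin (r + 1))) / Y i) := by
          rw [Finset.sum_comm]
          exact Finset.sum_congr rfl fun i _ => by rw [Finset.sum_mul]
      _ = 0 := Finset.sum_eq_zero fun i _ => by rw [hf1 i, zero_mul]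
  have hWδ : ∀ f ∈ W, (fun j => δ (f j)) ∈ W := by
    intro f hf
    obtain ⟨h1, h2⟩ := (hWmem f).1 hf
    refine (hWmem _).2 ⟨fun d => ?_, ?_⟩
    · have h3 := congrArg δ (h1 d)
      rw [map_zero, map_sum] at h3
      have h4 : ∀ j, δ (f j * (d (Y j) / Y j)) = δ (f j) * (d (Y j) / Y j) +
          (f j * ((br δ B hB d) (Y j) / Y j) + f j * ν j * d v) := by
        intro j
        have h5 : δ (d (Y j)) = (br δ B hB d) (Y j) + d (δ (Y j)) := by
          rw [br_apply]
          ring
        have h6 : d (δ (Y j)) = ν j * d v * Y j + ν j * v * d (Y j) := by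
          have h7 : d (ν j) = 0 := d.map_algebraMap ⟨ν j, hC _ (hν j)⟩
          rw [hYv j, d.leibniz, d.leibniz, h7]
          simp only [smul_eq_mul]
          ring
        have h8 : δ ((Y j)⁻¹) = - (Y j)⁻¹ ^ 2 * δ (Y j) := by
          rw [Derivation.leibniz_inv]
          simp
        have hYj := hY j
        rw [div_eq_mul_inv, δ.leibniz, δ.leibniz, h8, h5, h6, hYv j]
        simp only [smul_eq_mul]
        field_simp
        ring
      rw [Finset.sum_congr rfl fun j _ => h4 j, Finset.sum_add_distrib, Finset.sum_add_distrib,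
        h1 (br δ B hB d), ← Finset.sum_mul, h2] at h3
      simpa using h3
    · have h3 := congrArg δ h2
      rw [map_zero, map_sum] at h3
      rw [← h3]
      refine Finset.sum_congr rfl fun j _ => ?_
      rw [δ.leibniz, hν j]
      simp only [smul_eq_mul]
      ring
  obtain ⟨μ, hμ, hμ0, hμc⟩ := const_vec δ W hWδ hW0
  exact ⟨μ, hμ0, hμc, ((hWmem μ).1 hμ).1⟩

end Pool.Agent.FNS
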