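import Pool.Agent.FNS.Germ2
import Pool.Agent.FNS.Pairs
import Pool.Agent.FNS.Ax1
import Pool.Agent.FNR.Lift

/-! # Case G: zeros of sparse polynomials which are not of root type -/

namespace Pool.Agent.FNS

open MvPolynomial Pool.Agent.FN Pool.Agent.FNX Pool.Agent.FNR Filter

theorem zpow_fin_sum {F : Type} [Field F] {x : F} (hx : x ≠ 0) {r : ℕ} (g : Fin r → ℤ) :
    x ^ ∑ j, g j = ∏ j, x ^ g j := by
  classical
  refine Finset.induction_on (motive := fun s => x ^ ∑ j ∈ s, g j = ∏ j ∈ s, x ^ g j)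
    Finset.univ ?_ fun j s hj ih => ?_
  · rw [Finset.sum_empty, Finset.prod_empty, zpow_zero]
  · rw [Finset.sum_insert hj, Finset.prod_insert hj, zpow_add₀ hx, ih]

section powers

variable {U : Ultrafilter ℕ} {K L G : Type} [Field K] [Field L] [Algebra K L] [Field G]
  (u : UP U L G)

theorem UP.cl_zpow (f : ℕ → L) (hf : ∀ E, f E ≠ 0) (k : ℤ) :
    (u.cl f) ^ k = u.cl fun E => f E ^ k := by
  obtain ⟨n, rfl | rfl⟩ := k.eq_nat_or_neg
  · rw [zpow_natCast, ← map_pow]
    congr 1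
    funext E
    rw [Pi.pow_apply, zpow_natCast]
  · rw [zpow_neg, zpow_natCast, inv_eq_iff_eq_inv, ← one_div, eq_div_iff, ← map_pow, ← map_mul,
      ← map_one u.cl]
    · congr 1
      funext E
      rw [Pi.mul_apply, Pi.pow_apply, Pi.one_apply, zpow_neg, zpow_natCast]
      exact mul_inv_cancel₀ (pow_ne_zero _ (hf E))
    · rw [Ne, u.zero]
      intro h
      obtain ⟨E, hE⟩ := h.exists
      exact zpow_ne_zero _ (hf E) hE

theorem UP.cl_prod {r : ℕ} (ν : Fin r → ℕ → ℕ) (x : ℕ → L) (hx : ∀ E, x E ≠ 0)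
    (w : Fin r → ℤ) (m : ℕ → ℤ) (h : ∀ᶠ E in (U : Filter ℕ), m E = ∑ j, w j * (ν j E : ℤ)) :
    ∏ j, (u.cl fun E => x E ^ ν j E) ^ w j = u.cl fun E => x E ^ m E := by
  have h1 : ∀ j, (u.cl fun E => x E ^ ν j E) ^ w j = u.cl fun E => (x E ^ ν j E) ^ w j :=
    fun j => u.cl_zpow _ (fun E => pow_ne_zero _ (hx E)) _
  simp only [h1]
  rw [← map_prod, u.eq_iff]
  filter_upwards [h] with E hE
  rw [Finset.prod_apply, hE, zpow_fin_sum (hx E)]
  refine Finset.prod_congr rfl fun j _ => ?_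
  rw [← zpow_natCast, ← zpow_mul, mul_comm]

/-- a sum of terms with shifted exponents -/
theorem UP.cl_terms {r s : ℕ} (ν : Fin r → ℕ → ℕ) (x : ℕ → L) (hx : ∀ E, x E ≠ 0)
    (n : ℕ → Fin s → ℕ) (e : Fin s → Fin r → ℤ)
    (he : ∀ i, ∀ᶠ E in (U : Filter ℕ), (n E i : ℤ) = ∑ j, e i j * (ν j E : ℤ))
    (M : ℕ) (f : Fin s → Fin r → ℕ) (hf : ∀ i j, (f i j : ℤ) = e i j + M)
    (g : Fin s → ℕ → L) :
    ∑ i, u.cl (g i) * ∏ j, (u.cl fun E => x E ^ ν j E) ^ f i j =
      (∏ j, (u.cl fun E => x E ^ ν j E)) ^ M * u.cl fun E => ∑ i, g i E * x E ^ n E i := by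
  have h0 : ∀ j, (u.cl fun E => x E ^ ν j E) ≠ 0 := fun j =>
    (u.ne_iff _).2 (Eventually.of_forall fun E => pow_ne_zero _ (hx E))
  have h1 : (fun E => ∑ i, g i E * x E ^ n E i) = ∑ i, g i * fun E => x E ^ n E i := by
    funext E
    rw [Finset.sum_apply]
    rfl
  rw [h1, map_sum, Finset.mul_sum]
  refine Finset.sum_congr rfl fun i _ => ?_
  have h2 : ∏ j, (u.cl fun E => x E ^ ν j E) ^ f i j =
      (∏ j, (u.cl fun E => x E ^ ν j E)) ^ M * u.cl fun E => x E ^ n E i := by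
    have h3 := u.cl_prod ν x hx (e i) (fun E => (n E i : ℤ)) (he i)
    simp only [zpow_natCast] at h3
    rw [← h3, ← Finset.prod_pow, ← Finset.prod_mul_distrib]
    refine Finset.prod_congr rfl fun j _ => ?_
    rw [← zpow_natCast, ← zpow_natCast, ← zpow_add₀ (h0 j), hf i j, add_comm]
  rw [h2, map_mul]
  ring

theorem UP.der_pow (δ : ℕ → Derivation K L L) (x : ℕ → L) (hx : ∀ E, x E ≠ 0) (ν : ℕ → ℕ) :
    u.der δ (u.cl fun E => x E ^ ν E) = (u.cl fun E => algebraMap K L (ν E : K)) *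
      (u.cl fun E => δ E (x E) / x E) * u.cl fun E => x E ^ ν E := by
  rw [u.der_mk, ← map_mul, ← map_mul]
  congr 1
  funext E
  rw [Pi.mul_apply, Pi.mul_apply, Derivation.leibniz_pow, map_natCast, smul_eq_mul,
    nsmul_eq_mul]
  rcases Nat.eq_zero_or_pos (ν E) with h | h
  · rw [h, Nat.cast_zero, zero_mul, zero_mul, zero_mul]
  · obtain ⟨k, hk⟩ := Nat.exists_eq_add_of_lt h
    rw [hk]
    have h1 := hx E
    rw [show 0 + k + 1 - 1 = k by omega, show 0 + k + 1 = k + 1 by omega, pow_succ]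
    field_simp

end powers

/-- case G, for sequences -/
theorem case_g_core (K L : Type) [Field K] [CharZero K] [Field L] [IsAlgClosed L] [Algebra K L]
    (s N D : ℕ) (c : Fin s → Fin N) (δ : ℕ → Derivation K L L) (hδ : ∀ E, CK (δ E))
    (a b : ℕ → Fin N → L)
    (hrel : ∀ E, ¬ RelV (δ E) E (a E) (b E)) (κ : ℕ → Fin s → K) (n : ℕ → Fin s → ℕ)
    (hn : ∀ E, Function.Injective (n E)) (α β : ℕ → L) (hβ : ∀ E, β E ≠ 0)
    (hb0 : ∀ E, ∑ i, (n E i : L) * (algebraMap K L (κ E i) * b E (c i) * β E ^ n E i) ≠ 0)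
    (hb : ∀ E, ∑ i, algebraMap K L (κ E i) * b E (c i) * β E ^ n E i = 0)
    (hR : ∀ E, ∀ m : ℕ, m ≠ 0 → ¬ ∃ R : Fin (E + 1) → MvPolynomial (Fin N × ℕ) K,
      (∀ k, Bdd E (R k)) ∧ (∃ k, aeval (jet (δ E) (b E)) (R k) ≠ 0) ∧
        ∑ k, aeval (jet (δ E) (b E)) (R k) * (β E ^ m) ^ (k : ℕ) = 0)
    (ha : ∀ E, ∑ i, algebraMap K L (κ E i) * a E (c i) * α E ^ n E i = 0)
    (hS : ∀ E, Spz (δ E) (Fin.snoc (a E) (α E) : Fin (N + 1) → L) (Fin.snoc (b E) (β E)))
    (hD : ∀ E, RelV (δ E) D (Fin.snoc (a E) (α E) : Fin (N + 1) → L)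
      (Fin.snoc (b E) (β E))) : False := by
  classical
  have : CharZero L := charZero_of_injective_algebraMap (algebraMap K L).injective
  obtain ⟨U, G, _, hU, _, _, ⟨u⟩⟩ := exists_up L
  have hα : ∀ E, α E ≠ 0 := by
    intro E
    have h1 := spz_ne (hS E) (i := Fin.last N) (by
      rw [Fin.snoc_last]
      exact hβ E)
    rwa [Fin.snoc_last] at h1
  -- the exponents
  obtain ⟨r, ν, e0, he0, hind⟩ := exps U (Fin.cons (fun _ => 1) (fun i E => (n E i : ℤ)) :
    Fin (s + 1) → ℕ → ℤ)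
  obtain ⟨ε, hε⟩ : ∃ ε, ε = e0 0 := ⟨_, rfl⟩
  obtain ⟨e, he'⟩ : ∃ e : Fin s → Fin r → ℤ, e = fun i => e0 i.succ := ⟨_, rfl⟩
  have h1' : ∀ᶠ E in (U : Filter ℕ), (1 : ℤ) = ∑ j, ε j * (ν j E : ℤ) := by
    have h1 := he0 0
    rw [Fin.cons_zero] at h1
    rw [hε]
    exact h1
  have he : ∀ i, ∀ᶠ E in (U : Filter ℕ), (n E i : ℤ) = ∑ j, e i j * (ν j E : ℤ) := by
    intro i
    have h1 := he0 i.succ
    rw [Fin.cons_succ] at h1
    rw [he']
    exact h1
  obtain ⟨ρ, rfl⟩ : ∃ ρ, r = ρ + 1 := by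
    rcases r with _ | ρ
    · exfalso
      obtain ⟨E, hE⟩ := h1'.exists
      rw [Fin.sum_univ_zero] at hE
      exact one_ne_zero hE
    · exact ⟨ρ, rfl⟩
  -- the objects
  let dh : Derivation ℤ G G := u.der δ
  let A' : Fin N → G := fun i => u.cl fun E => a E i
  let B' : Fin N → G := fun i => u.cl fun E => b E i
  let Y : Fin (ρ + 1) → G := fun j => u.cl fun E => β E ^ ν j E
  let Y' : Fin (ρ + 1) → G := fun j => u.cl fun E => α E ^ ν j E
  have hY : ∀ j, Y j ≠ 0 := fun j =>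
    (u.ne_iff _).2 (Eventually.of_forall fun E => pow_ne_zero _ (hβ E))
  have hY' : ∀ j, Y' j ≠ 0 := fun j =>
    (u.ne_iff _).2 (Eventually.of_forall fun E => pow_ne_zero _ (hα E))
  obtain ⟨B, hCB, hbB, hDB, hBalg⟩ := exists_field dh (u.cst K) (u.der_cst δ) B'
  have hjt : ∀ (c : ℕ → Fin N → L), (jt dh fun i => u.cl fun E => c E i) =
      fun w => u.cl fun E => jet (δ E) (c E) w := fun c => funext fun w => u.jt_mk δ c w
  -- (b) not of root type
  have hpos : ∀ w : Fin (ρ + 1) → ℤ, (∀ᶠ E in (U : Filter ℕ), 0 < ∑ j, w j * (ν j E : ℤ)) →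
      ¬ IsAlgebraic B (∏ j, Y j ^ w j) := by
    intro w hw halg
    obtain ⟨d, R, ⟨k0, hk0⟩, hsum⟩ := hBalg _ halg
    rw [u.cl_prod ν β hβ w (fun E => ∑ j, w j * (ν j E : ℤ)) (Eventually.of_forall fun _ => rfl)]
      at hsum
    choose Q hQ hQp using fun k => u.trans (R k)
    choose DD hDD using fun k => Pool.Agent.FNA.exists_bdd (R k)
    change aeval (jt dh B') (R k0) ≠ 0 at hk0
    rw [hjt b, hQp, u.ne_iff] at hk0
    have hsum' : ∀ᶠ E in (U : Filter ℕ), ∑ k : Fin (d + 1),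
        aeval (jet (δ E) (b E)) (Q k E) * (β E ^ (∑ j, w j * (ν j E : ℤ))) ^ (k : ℕ) = 0 := by
      rw [← u.zero (fun E => ∑ k : Fin (d + 1),
        aeval (jet (δ E) (b E)) (Q k E) * (β E ^ (∑ j, w j * (ν j E : ℤ))) ^ (k : ℕ)), ← hsum]
      have h2 : (fun E => ∑ k : Fin (d + 1),
          aeval (jet (δ E) (b E)) (Q k E) * (β E ^ (∑ j, w j * (ν j E : ℤ))) ^ (k : ℕ)) =
          ∑ k : Fin (d + 1), (fun E => aeval (jet (δ E) (b E)) (Q k E)) *
            (fun E => β E ^ (∑ j, w j * (ν j E : ℤ))) ^ (k : ℕ) := by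
        funext E
        rw [Finset.sum_apply]
        rfl
      rw [h2, map_sum]
      refine Finset.sum_congr rfl fun k _ => ?_
      rw [map_mul, map_pow]
      congr 1
      rw [hjt b, hQp]
    have hbig : ∀ᶠ E in (U : Filter ℕ), max d (∑ k, DD k) ≤ E := hU _
    obtain ⟨E, hE1, hE2, hE3, hE4⟩ := (hk0.and (hsum'.and (hbig.and hw))).exists
    have hd : d ≤ E := (le_max_left _ _).trans hE3
    have hDDE : ∀ k, DD k ≤ E := fun k => (Finset.single_le_sum (f := DD)
      (fun _ _ => Nat.zero_le _) (Finset.mem_univ k)).trans ((le_max_right _ _).trans hE3)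
    refine hR E (∑ j, w j * (ν j E : ℤ)).toNat (by omega) ⟨fun k => if h : (k : ℕ) < d + 1 then
      Q ⟨k, h⟩ E else 0, fun k => ?_, ⟨⟨k0, by omega⟩, ?_⟩, ?_⟩
    · dsimp only
      split_ifs with h
      · exact (bdd_of_support (hQ _ E) (hDD _)).mono (hDDE _)
      · exact ⟨by rw [totalDegree_zero]; exact Nat.zero_le _, fun v hv => by
          rw [vars_0] at hv
          exact absurd hv (Finset.notMem_empty _)⟩
    · dsimp only
      rw [dif_pos k0.2]
      exact hE1
    · have h3 : β E ^ (∑ j, w j * (ν j E : ℤ)).toNat = β E ^ (∑ j, w j * (ν j E : ℤ)) := by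
        rw [← zpow_natCast, Int.toNat_of_nonneg hE4.le]
      rw [h3]
      rw [Fin.sum_univ_eq_sum_range (fun k => aeval (jet (δ E) (b E))
        (if h : k < d + 1 then Q ⟨k, h⟩ E else 0) * (β E ^ (∑ j, w j * (ν j E : ℤ))) ^ k) (E + 1)]
      rw [← Finset.sum_subset (s₁ := Finset.range (d + 1)) (fun x hx => Finset.mem_range.2
        (by have := Finset.mem_range.1 hx; omega)) (fun x _ hx => by
          rw [dif_neg (fun h => hx (Finset.mem_range.2 h)), map_zero, zero_mul])]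
      rw [← hE2, ← Fin.sum_univ_eq_sum_range (fun k => aeval (jet (δ E) (b E))
        (if h : k < d + 1 then Q ⟨k, h⟩ E else 0) * (β E ^ (∑ j, w j * (ν j E : ℤ))) ^ k) (d + 1)]
      refine Finset.sum_congr rfl fun k _ => ?_
      rw [dif_pos k.2]
  have hnalg : ∀ w : Fin (ρ + 1) → ℤ, w ≠ 0 → ¬ IsAlgebraic B (∏ j, Y j ^ w j) := by
    intro w hw halg
    rcases U.em fun E => ∑ j, w j * (ν j E : ℤ) = 0 with h | h
    · exact hw (hind w h)
    · rcases U.em fun E => 0 < ∑ j, w j * (ν j E : ℤ) with h2 | h2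
      · exact hpos w h2 halg
      · refine hpos (fun j => -w j) ?_ ?_
        · filter_upwards [h, h2] with E hE hE2
          simp only [neg_mul, Finset.sum_neg_distrib]
          omega
        · have h3 : ∏ j, Y j ^ (-w j) = (∏ j, Y j ^ w j)⁻¹ := by
            rw [← Finset.prod_inv_distrib]
            exact Finset.prod_congr rfl fun j _ => zpow_neg _ _
          rw [h3]
          exact halg.inv
  -- (c)
  let vb : G := u.cl fun E => δ E (β E) / β E
  let va : G := u.cl fun E => δ E (α E) / α E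
  let νh : Fin (ρ + 1) → u.cst K := fun j => ⟨u.cl fun E => algebraMap K L (ν j E : K), _, rfl⟩
  have hνh0 : ∀ j, (νh j : G) ≠ 0 := by
    intro j h
    have h1 : ∀ᶠ E in (U : Filter ℕ), algebraMap K L (ν j E : K) = 0 := (u.zero _).1 h
    have h2 := hind (Pi.single j 1) (by
      filter_upwards [h1] with E hE
      rw [map_natCast, Nat.cast_eq_zero] at hE
      rw [Finset.sum_eq_single j]
      · rw [hE]
        simp
      · intro k _ hk
        rw [Pi.single_eq_of_ne hk, zero_mul]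
      · intro h3
        exact absurd (Finset.mem_univ _) h3)
    have h3 := congrFun h2 j
    rw [Pi.single_eq_same] at h3
    exact one_ne_zero h3
  have hYv : ∀ j, dh (Y j) = νh j * vb * Y j := fun j => u.der_pow δ β hβ (ν j)
  have hYv' : ∀ j, dh (Y' j) = νh j * va * Y' j := fun j => u.der_pow δ α hα (ν j)
  obtain ⟨j0, hj0⟩ := ax1 dh B hDB (fun x hx => hCB (u.cst_of_der δ hδ x hx)) Y hY vb
    (fun j => (νh j : G)) (fun j => u.der_cst δ _ (νh j).2) hνh0 hYv hnalg
  -- the exponents, shifted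
  let M : ℕ := ∑ i, ∑ j, (e i j).natAbs
  have hM : ∀ i j, 0 ≤ e i j + M := by
    intro i j
    have h1 : (e i j).natAbs ≤ ∑ j, (e i j).natAbs :=
      Finset.single_le_sum (f := fun j => (e i j).natAbs) (fun _ _ => Nat.zero_le _)
        (Finset.mem_univ j)
    have h2 : ∑ j, (e i j).natAbs ≤ M :=
      Finset.single_le_sum (f := fun i => ∑ j, (e i j).natAbs) (fun _ _ => Nat.zero_le _)
        (Finset.mem_univ i)
    omega
  let f : Fin s → Fin (ρ + 1) → ℕ := fun i j => (e i j + M).toNat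
  have hf : ∀ i j, (f i j : ℤ) = e i j + M := fun i j => Int.toNat_of_nonneg (hM i j)
  have hfinj : Function.Injective f := by
    intro i i' hii
    have h1 : ∀ j, e i j = e i' j := by
      intro j
      have h2 := congrFun hii j
      have h3 := hf i j
      have h4 := hf i' j
      rw [h2] at h3
      omega
    obtain ⟨E, hE, hE'⟩ := ((he i).and (he i')).exists
    have h5 : (n E i : ℤ) = n E i' := by
      rw [hE, hE']
      exact Finset.sum_congr rfl fun j _ => by rw [h1 j]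
    exact hn E (by exact_mod_cast h5)
  let κh : Fin s → u.cst K := fun i => ⟨u.cl fun E => algebraMap K L (κ E i), _, rfl⟩
  let nh : Fin s → u.cst K := fun i => ⟨u.cl fun E => algebraMap K L (n E i : K), _, rfl⟩
  have hPY : ∏ j, Y j ≠ 0 := Finset.prod_ne_zero_iff.2 fun j _ => hY j
  have hlog : ∀ (x : ℕ → L) (hx : ∀ E, x E ≠ 0) (p : ℕ → Fin N → L),
      (∀ E, ∑ i, algebraMap K L (κ E i) * p E (c i) * x E ^ n E i = 0) →
      ∑ i, (κh i : G) * dh (u.cl fun E => p E (c i)) *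
        ∏ j, (u.cl fun E => x E ^ ν j E) ^ f i j + (u.cl fun E => δ E (x E) / x E) *
        ∑ i, (nh i : G) * κh i * (u.cl fun E => p E (c i)) *
          ∏ j, (u.cl fun E => x E ^ ν j E) ^ f i j = 0 := by
    intro x hx p hp
    have h1 : ∀ i, (κh i : G) * dh (u.cl fun E => p E (c i)) =
        u.cl fun E => algebraMap K L (κ E i) * δ E (p E (c i)) := by
      intro i
      rw [u.der_mk, ← map_mul]
      rfl
    have h2 : ∀ i, (nh i : G) * κh i * (u.cl fun E => p E (c i)) =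
        u.cl fun E => (n E i : L) * (algebraMap K L (κ E i) * p E (c i)) := by
      intro i
      change (u.cl _) * (u.cl _) * _ = _
      rw [← map_mul, ← map_mul]
      congr 1
      funext E
      simp only [Pi.mul_apply, map_natCast]
      ring
    simp only [h1, h2]
    rw [u.cl_terms ν x hx n e he M f hf fun i E => algebraMap K L (κ E i) * δ E (p E (c i)),
      u.cl_terms ν x hx n e he M f hf fun i E => (n E i : L) * (algebraMap K L (κ E i) *
        p E (c i)), mul_left_comm, ← mul_add, ← map_mul, ← map_add]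
    refine mul_eq_zero_of_right _ ?_
    rw [u.zero]
    refine Eventually.of_forall fun E => ?_
    rw [Pi.add_apply, Pi.mul_apply]
    have h3 := congrArg (δ E) (hp E)
    rw [map_sum, map_zero] at h3
    rw [← h3, Finset.mul_sum, ← Finset.sum_add_distrib]
    refine Finset.sum_congr rfl fun i _ => ?_
    rw [Derivation.leibniz, Derivation.leibniz, Derivation.map_algebraMap,
      Derivation.leibniz_pow, smul_zero, add_zero]
    simp only [smul_eq_mul, nsmul_eq_mul]
    rcases Nat.eq_zero_or_pos (n E i) with h | h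
    · rw [h, Nat.cast_zero]
      ring
    · obtain ⟨k, hk⟩ := Nat.exists_eq_add_of_lt h
      rw [hk]
      have h4 := hx E
      rw [show 0 + k + 1 - 1 = k by omega, show 0 + k + 1 = k + 1 by omega, pow_succ]
      field_simp
      ring
  have hfin := pairs dh (u.cst K) (u.der_cst δ) A' B' (fun P hP => faith u hU δ a b hrel P hP)
    Y Y' hY hY' (fun P hP => ?_) B hCB hbB j0 hj0 κh nh c f hfinj ?_ ?_ νh vb va hYv hYv'
    (hlog α hα a ha) (hlog β hβ b hb) ε
  · -- the end
    have hYε : ∏ j, Y j ^ ε j = u.cl β := by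
      have h3 := u.cl_prod ν β hβ ε (fun _ => 1) h1'
      simp only [zpow_one] at h3
      exact h3
    have hYε' : ∏ j, Y' j ^ ε j = u.cl α := by
      have h3 := u.cl_prod ν α hα ε (fun _ => 1) h1'
      simp only [zpow_one] at h3
      exact h3
    rw [hYε, hYε'] at hfin
    choose Φ hΦ1 hΦ2 hΦ3 using hD
    obtain ⟨S, hSS⟩ := exists_supp (N + 1) D
    obtain ⟨P, hP⟩ := u.back S Φ fun E => hSS _ (hΦ1 E)
    have hsn : ∀ (p : ℕ → Fin N → L) (x : ℕ → L),
        (Fin.snoc (fun i => u.cl fun E => p E i) (u.cl x) : Fin (N + 1) → G) =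
          fun i => u.cl fun E => (Fin.snoc (p E) (x E) : Fin (N + 1) → L) i := by
      intro p x
      funext i
      refine Fin.lastCases ?_ (fun i => ?_) i
      · simp only [Fin.snoc_last]
      · simp only [Fin.snoc_castSucc]
    have hjt2 : ∀ (c : ℕ → Fin (N + 1) → L), (jt dh fun i => u.cl fun E => c E i) =
        fun w => u.cl fun E => jet (δ E) (c E) w := fun c => funext fun w => u.jt_mk δ c w
    have h4 := hfin P (by
      rw [hsn b β, hjt2 fun E => Fin.snoc (b E) (β E), hP, u.zero]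
      exact Eventually.of_forall fun E => hΦ3 E)
    rw [hsn a α, hjt2 fun E => Fin.snoc (a E) (α E), hP, u.zero] at h4
    obtain ⟨E, hE⟩ := h4.exists
    exact hΦ2 E hE
  · -- specialization for the powers
    obtain ⟨Q, -, hQp⟩ := u.trans P
    have hel : ∀ (p : ℕ → Fin N → L) (x : ℕ → L),
        (Sum.elim (jt dh fun i => u.cl fun E => p E i) fun j => u.cl fun E => x E ^ ν j E) =
          fun t => u.cl fun E => (Sum.elim (jet (δ E) (p E)) fun j => x E ^ ν j E :
            (Fin N × ℕ) ⊕ Fin (ρ + 1) → L) t := by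
      intro p x
      funext t
      rcases t with w | j
      · exact u.jt_mk δ p w
      · rfl
    have h1 := hP
    rw [hel a α, hQp, u.zero] at h1
    rw [hel b β, hQp, u.zero]
    filter_upwards [h1] with E hE
    have h2 : ∀ (p : Fin N → L) (x : L),
        aeval (Sum.elim (jet (δ E) p) fun j => x ^ ν j E : (Fin N × ℕ) ⊕ Fin (ρ + 1) → L) (Q E) =
          aeval (jet (δ E) (Fin.snoc p x : Fin (N + 1) → L)) (bind₁ (Sum.elim
            (fun v : Fin N × ℕ => (X (v.1.castSucc, v.2) : MvPolynomial (Fin (N + 1) × ℕ) K))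
            fun j => X (Fin.last N, 0) ^ ν j E) (Q E)) := by
      intro p x
      rw [aeval_bind₁]
      congr 1
      congr 1
      funext t
      rcases t with w | j
      · change jet (δ E) p w = aeval _ (X (w.1.castSucc, w.2))
        rw [aeval_X]
        change _ = (δ E)^[w.2] ((Fin.snoc p x : Fin (N + 1) → L) w.1.castSucc)
        rw [Fin.snoc_castSucc]
        rfl
      · change x ^ ν j E = aeval _ (X (Fin.last N, 0) ^ ν j E)
        rw [map_pow, aeval_X]
        change _ = ((Fin.snoc p x : Fin (N + 1) → L) (Fin.last N)) ^ ν j E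
        rw [Fin.snoc_last]
    rw [h2 (a E) (α E)] at hE
    rw [h2 (b E) (β E)]
    exact hS E _ hE
  · -- the equation at `a`
    have h1 : ∀ i, (κh i : G) * A' (c i) = u.cl fun E => algebraMap K L (κ E i) * a E (c i) := by
      intro i
      change u.cl _ * u.cl _ = _
      rw [← map_mul]
      rfl
    simp only [h1]
    rw [u.cl_terms ν α hα n e he M f hf fun i E => algebraMap K L (κ E i) * a E (c i)]
    refine mul_eq_zero_of_right _ ?_
    rw [u.zero]
    exact Eventually.of_forall ha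
  · -- the derivative at `b`
    have h1 : ∀ i, (nh i : G) * κh i * B' (c i) =
        u.cl fun E => (n E i : L) * (algebraMap K L (κ E i) * b E (c i)) := by
      intro i
      change u.cl _ * u.cl _ * u.cl _ = _
      rw [← map_mul, ← map_mul]
      congr 1
      funext E
      simp only [Pi.mul_apply, map_natCast]
      ring
    simp only [h1]
    rw [u.cl_terms ν β hβ n e he M f hf fun i E => (n E i : L) * (algebraMap K L (κ E i) *
      b E (c i))]
    refine mul_ne_zero (pow_ne_zero _ hPY) ?_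
    rw [u.ne_iff]
    refine Eventually.of_forall fun E => ?_
    have h2 := hb0 E
    refine fun h3 => h2 ?_
    rw [← h3]
    exact Finset.sum_congr rfl fun i _ => by ring

/-- case G -/
theorem case_g (K L : Type) [Field K] [CharZero K] [Field L] [IsAlgClosed L] [Algebra K L]
    (s N D : ℕ) (c : Fin s → Fin N) : ∃ D1 E : ℕ, ∀ δ : Derivation K L L, CK δ →
      ∀ a b : Fin N → L, Spz δ a b → ¬ RelV δ E a b → ∀ (κ : Fin s → K) (n : Fin s → ℕ),
        Function.Injective n → ∀ α β : L, β ≠ 0 →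
          ∑ i, algebraMap K L (κ i) * b (c i) * β ^ n i = 0 →
          ∑ i, (n i : L) * (algebraMap K L (κ i) * b (c i) * β ^ n i) ≠ 0 →
          (∀ m : ℕ, m ≠ 0 → ¬ ∃ R : Fin (D1 + 1) → MvPolynomial (Fin N × ℕ) K,
            (∀ k, Bdd D1 (R k)) ∧ (∃ k, aeval (jet δ b) (R k) ≠ 0) ∧
              ∑ k, aeval (jet δ b) (R k) * (β ^ m) ^ (k : ℕ) = 0) →
          ∑ i, algebraMap K L (κ i) * a (c i) * α ^ n i = 0 →
          Spz δ (Fin.snoc a α : Fin (N + 1) → L) (Fin.snoc b β) →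
            ¬ RelV δ D (Fin.snoc a α : Fin (N + 1) → L) (Fin.snoc b β) := by
  by_contra hcon
  have h : ∀ E : ℕ, ∃ (δ : Derivation K L L) (a b : Fin N → L) (κ : Fin s → K) (n : Fin s → ℕ)
      (α β : L), CK δ ∧ Spz δ a b ∧ ¬ RelV δ E a b ∧ Function.Injective n ∧ β ≠ 0 ∧
        ∑ i, algebraMap K L (κ i) * b (c i) * β ^ n i = 0 ∧
        ∑ i, (n i : L) * (algebraMap K L (κ i) * b (c i) * β ^ n i) ≠ 0 ∧
        (∀ m : ℕ, m ≠ 0 → ¬ ∃ R : Fin (E + 1) → MvPolynomial (Fin N × ℕ) K,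
            (∀ k, Bdd E (R k)) ∧ (∃ k, aeval (jet δ b) (R k) ≠ 0) ∧
              ∑ k, aeval (jet δ b) (R k) * (β ^ m) ^ (k : ℕ) = 0) ∧
        ∑ i, algebraMap K L (κ i) * a (c i) * α ^ n i = 0 ∧
        Spz δ (Fin.snoc a α : Fin (N + 1) → L) (Fin.snoc b β) ∧
          RelV δ D (Fin.snoc a α : Fin (N + 1) → L) (Fin.snoc b β) := by
    intro E
    by_contra h
    refine hcon ⟨E, E, fun δ hδ a b hab hrel κ n hn α β hβ h1 h2 h3 h4 h5 h6 => h
      ⟨δ, a, b, κ, n, α, β, hδ, hab, hrel, hn, hβ, h1, h2, h3, h4, h5, h6⟩⟩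
  choose δ a b κ n α β hδ hab hrel hn hβ h1 h2 h3 h4 h5 h6 using h
  exact case_g_core K L s N D c δ hδ a b hrel κ n hn α β hβ h2 h1 h3 h4 h5 h6

end Pool.Agent.FNS
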