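import Pool.Agent.FNR.Form
import Pool.Agent.FNR.Multi
import Pool.Agent.FNX.Pow2

/-! # A zero of a sparse polynomial of which a power is algebraic of bounded size -/

namespace Pool.Agent.FNS

open MvPolynomial Pool.Agent.FN Pool.Agent.FNX Pool.Agent.FNR

/-- the substitution of differential polynomials -/
theorem subst_jets {N M : ℕ} (D e : ℕ) {K : Type} [Field K]
    (q : Fin M → MvPolynomial (Fin N × ℕ) K) (hq : ∀ j, Bdd e (q j))
    (Φ : MvPolynomial (Fin M × ℕ) K) (h1 : Bdd D Φ) :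
    ∃ Φ' : MvPolynomial (Fin N × ℕ) K, Bdd (D * (e + D)) Φ' ∧
      ∀ {L : Type} [Field L] [Algebra K L] (δ : Derivation K L L) (a : Fin N → L),
        aeval (jet δ a) Φ' = aeval (jet δ fun j => aeval (jet δ a) (q j)) Φ := by
  refine ⟨aeval (fun v : Fin M × ℕ => (sh K N)^[v.2] (q v.1)) Φ,
    Bdd.subst Φ _ h1 fun v hv => ?_, fun {L} _ _ δ a => ?_⟩
  · exact Bdd.mono (by omega) (Bdd.iter v.2 (hq v.1))
  · have key : ∀ v : Fin M × ℕ, aeval (jet δ a) ((sh K N)^[v.2] (q v.1)) =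
        jet δ (fun j => aeval (jet δ a) (q j)) v := by
      intro v
      rw [sh_iter_jet]
      rfl
    rw [comp_aeval_apply, funext key]

theorem rel_jets (D e N M : ℕ) : ∃ D' : ℕ, ∀ {K L : Type} [Field K] [Field L] [Algebra K L]
    (δ : Derivation K L L) (a b : Fin N → L) (q : Fin M → MvPolynomial (Fin N × ℕ) K),
      (∀ j, Bdd e (q j)) →
      RelV δ D (fun j => aeval (jet δ a) (q j)) (fun j => aeval (jet δ b) (q j)) →
        RelV δ D' a b := by
  refine ⟨D * (e + D), fun {K L} _ _ _ δ a b q hq h => ?_⟩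
  obtain ⟨Φ, h1, h2, h3⟩ := h
  obtain ⟨Φ', g1, g2⟩ := subst_jets D e q hq Φ h1
  exact ⟨Φ', g1, by rw [g2]; exact h2, by rw [g2]; exact h3⟩

theorem spz_jets {K L : Type} [Field K] [Field L] [Algebra K L] {δ : Derivation K L L} {N M : ℕ}
    {a b : Fin N → L} (hab : Spz δ a b) (e : ℕ) (q : Fin M → MvPolynomial (Fin N × ℕ) K)
    (hq : ∀ j, Bdd e (q j)) :
    Spz δ (fun j => aeval (jet δ a) (q j)) (fun j => aeval (jet δ b) (q j)) := by
  intro Φ hΦ
  obtain ⟨D, hD⟩ := exists_bdd Φ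
  obtain ⟨Φ', -, h⟩ := subst_jets D e q hq Φ hD
  rw [← h] at hΦ ⊢
  exact hab Φ' hΦ

/-- a sum of few terms with powers of one entry -/
theorem sum_elim (s : ℕ) : ∀ N : ℕ, ∃ D' : ℕ, ∀ {K L : Type} [Field K] [CharZero K] [Field L]
    [Algebra K L] (δ : Derivation K L L), CK δ → ∀ (a b : Fin N → L), Spz δ a b →
      ∀ (i j : Fin N) (c : Fin s → Fin N) (κ : Fin s → K) (n : Fin s → ℕ),
        a j + ∑ k, algebraMap K L (κ k) * a (c k) * a i ^ n k ≠ 0 →
        b j + ∑ k, algebraMap K L (κ k) * b (c k) * b i ^ n k = 0 → RelV δ D' a b := by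
  induction s with
  | zero =>
    intro N
    refine ⟨1, ?_⟩
    intro K L _ _ _ _ δ _ a b _ i j c κ n ha hb
    refine ⟨X (j, 0), Bdd.X _ (Nat.zero_le _) le_rfl, ?_, ?_⟩
    · rw [aeval_X]
      intro h
      apply ha
      rw [Finset.univ_eq_empty, Finset.sum_empty, add_zero]
      exact h
    · rw [aeval_X]
      rw [Finset.univ_eq_empty, Finset.sum_empty, add_zero] at hb
      exact hb
  | succ s ih =>
    intro N
    obtain ⟨D1, h1⟩ := ih (N + 2)
    obtain ⟨D2, h2⟩ := rel_polyV D1 2 (N + 1)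
    obtain ⟨D3, h3⟩ := rel_powV D2 N
    refine ⟨D3, ?_⟩
    intro K L _ _ _ _ δ hδ a b hab i j c κ n ha hb
    refine h3 δ hδ a b hab i (n 0) ?_
    obtain ⟨f, hf⟩ : ∃ f : MvPolynomial (Fin (N + 1)) K, f = X (Fin.castSucc j) +
        C (κ 0) * (X (Fin.castSucc (c 0)) * X (Fin.last N)) := ⟨_, rfl⟩
    have hfd : f.totalDegree ≤ 2 := by
      rw [hf]
      refine (totalDegree_add _ _).trans (max_le ?_ ?_)
      · rw [totalDegree_X]
        omega
      · refine (totalDegree_mul _ _).trans ?_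
        rw [totalDegree_C, zero_add]
        refine (totalDegree_mul _ _).trans ?_
        rw [totalDegree_X, totalDegree_X]
    have hpow : ∀ y : Fin N → L, aeval y ((X i : MvPolynomial (Fin N) K) ^ n 0) = y i ^ n 0 := by
      intro y
      rw [map_pow, aeval_X]
    have hab1 : Spz δ (Fin.snoc a (a i ^ n 0) : Fin (N + 1) → L) (Fin.snoc b (b i ^ n 0)) := by
      have h := spz_poly hab ((X i : MvPolynomial (Fin N) K) ^ n 0)
      rwa [hpow, hpow] at h
    have hval : ∀ y : Fin N → L, aeval (Fin.snoc y (y i ^ n 0) : Fin (N + 1) → L) f =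
        y j + algebraMap K L (κ 0) * y (c 0) * y i ^ n 0 := by
      intro y
      rw [hf, map_add, map_mul, map_mul, aeval_X, aeval_X, aeval_X, aeval_C]
      simp only [Fin.snoc_last, Fin.snoc_castSucc]
      ring
    refine h2 δ _ _ f hfd ?_
    have hab2 := spz_poly hab1 f
    refine h1 δ hδ _ _ hab2 (Fin.castSucc (Fin.castSucc i)) (Fin.last (N + 1))
      (fun k => Fin.castSucc (Fin.castSucc (c k.succ))) (fun k => κ k.succ)
      (fun k => n k.succ) ?_ ?_
    · rw [Fin.snoc_last, hval]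
      simp only [Fin.snoc_castSucc]
      intro h
      apply ha
      rw [Fin.sum_univ_succ, ← add_assoc]
      exact h
    · rw [Fin.snoc_last, hval]
      simp only [Fin.snoc_castSucc]
      rw [Fin.sum_univ_succ, ← add_assoc] at hb
      exact hb

theorem case_r (s N D D1 : ℕ) : ∃ E : ℕ, ∀ {K L : Type} [Field K] [CharZero K] [Field L]
    [IsAlgClosed L] [Algebra K L] (δ : Derivation K L L), CK δ → ∀ (a b : Fin N → L), Spz δ a b →
      ¬ RelV δ E a b → ∀ (c : Fin s → Fin N) (κ : Fin s → K) (n : Fin s → ℕ) (β : L), β ≠ 0 →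
        ∑ i, algebraMap K L (κ i) * b (c i) * β ^ n i = 0 → ∀ m : ℕ, m ≠ 0 →
          (∃ R : Fin (D1 + 1) → MvPolynomial (Fin N × ℕ) K, (∀ k, Bdd D1 (R k)) ∧
            (∃ k, aeval (jet δ b) (R k) ≠ 0) ∧
              ∑ k, aeval (jet δ b) (R k) * (β ^ m) ^ (k : ℕ) = 0) →
          ∃ α : L, ∑ i, algebraMap K L (κ i) * a (c i) * α ^ n i = 0 ∧
            Spz δ (Fin.snoc a α : Fin (N + 1) → L) (Fin.snoc b β) ∧
              ¬ RelV δ D (Fin.snoc a α : Fin (N + 1) → L) (Fin.snoc b β) := by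
  obtain ⟨G1, g1⟩ := sum_elim s (N + (D1 + 1) + 1 + 1 + 1)
  obtain ⟨G2, g2⟩ := rel_polyV G1 0 (N + (D1 + 1) + 1 + 1)
  obtain ⟨G3, g3⟩ := rel_root (max D G2) (N + (D1 + 1) + 1)
  obtain ⟨G4, g4⟩ := Pool.Agent.FNA.spz_alg D1 (N + (D1 + 1))
  obtain ⟨G5, g5⟩ := rel_jets (G4 G3) (D1 + 1) N (N + (D1 + 1))
  refine ⟨G5, ?_⟩
  intro K L _ _ _ _ _ δ hδ a b hab hnr c κ n β hβ hF m hm hR
  obtain ⟨R, hRb, hR0, hRs⟩ := hR
  obtain ⟨q, hqdef⟩ : ∃ q : Fin (N + (D1 + 1)) → MvPolynomial (Fin N × ℕ) K,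
    q = Fin.append (fun i => X (i, 0)) R := ⟨_, rfl⟩
  have hq : ∀ j, Bdd (D1 + 1) (q j) := by
    intro j
    rw [hqdef]
    refine Fin.addCases (fun i => ?_) (fun k => ?_) j
    · rw [Fin.append_left]
      exact Bdd.X _ (Nat.zero_le _) (by omega)
    · rw [Fin.append_right]
      exact (hRb k).mono (Nat.le_succ _)
  obtain ⟨J, hJ⟩ : ∃ J : (Fin N → L) → Fin (N + (D1 + 1)) → L,
    J = fun y j => aeval (jet δ y) (q j) := ⟨_, rfl⟩
  have hJl : ∀ (y : Fin N → L) (i : Fin N), J y (Fin.castAdd (D1 + 1) i) = y i := by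
    intro y i
    rw [hJ]
    simp only
    rw [hqdef, Fin.append_left, aeval_X]
    rfl
  have hJr : ∀ (y : Fin N → L) (k : Fin (D1 + 1)),
      J y (Fin.natAdd N k) = aeval (jet δ y) (R k) := by
    intro y k
    rw [hJ]
    simp only
    rw [hqdef, Fin.append_right]
  have hab1 : Spz δ (J a) (J b) := by
    rw [hJ]
    exact spz_jets hab (D1 + 1) q hq
  have hnr1 : ¬ RelV δ (G4 G3) (J a) (J b) := by
    intro h
    rw [hJ] at h
    exact hnr (g5 δ a b q hq h)
  -- the algebraic entry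
  obtain ⟨γ, -, hγs, hγr⟩ := g4 δ (J a) (J b) hab1 D1 le_rfl (fun k => Fin.natAdd N k)
    (by
      obtain ⟨k, hk⟩ := hR0
      exact ⟨k, by rw [hJr]; exact hk⟩) (β ^ m) (by
      rw [← hRs]
      refine Finset.sum_congr rfl fun k _ => ?_
      rw [hJr])
  have hnr2 : ¬ RelV δ G3 (Fin.snoc (J a) γ : Fin (N + (D1 + 1) + 1) → L)
      (Fin.snoc (J b) (β ^ m)) := fun h => hnr1 (hγr G3 h)
  -- the root
  have hlb : (Fin.snoc (J b) (β ^ m) : Fin (N + (D1 + 1) + 1) → L) (Fin.last _) = β ^ m := by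
    rw [Fin.snoc_last]
  have hla : (Fin.snoc (J a) γ : Fin (N + (D1 + 1) + 1) → L) (Fin.last _) = γ := by
    rw [Fin.snoc_last]
  have hb0 : (Fin.snoc (J b) (β ^ m) : Fin (N + (D1 + 1) + 1) → L) (Fin.last _) ≠ 0 := by
    rw [hlb]
    exact pow_ne_zero m hβ
  obtain ⟨α, hα, hαs⟩ := spz_root δ _ _ hγs (Fin.last _) 1 m hm hb0 β (by rw [hlb, pow_one])
  have ha0 := spz_ne hγs hb0
  have hnr3 : ¬ RelV δ (max D G2)
      (Fin.snoc (Fin.snoc (J a) γ : Fin (N + (D1 + 1) + 1) → L) α : Fin (N + (D1 + 1) + 1 + 1) → L)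
      (Fin.snoc (Fin.snoc (J b) (β ^ m) : Fin (N + (D1 + 1) + 1) → L) β) := by
    intro h
    exact hnr2 (g3 δ hδ _ _ α β hαs (Fin.last _) (((1 : ℕ) : K) / m) ha0 hb0 hβ
      (der_root δ ha0 hm hα) (der_root δ hb0 hm (by rw [hlb, pow_one])) h)
  refine ⟨α, ?_, ?_, ?_⟩
  · -- the equation
    by_contra hne
    apply hnr3
    refine RelV.mono (le_max_right _ _) (g2 δ _ _ (C 0) (by rw [totalDegree_C]) ?_)
    refine g1 δ hδ _ _ (spz_poly hαs (C 0)) (Fin.castSucc (Fin.last _)) (Fin.last _)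
      (fun k => Fin.castSucc (Fin.castSucc (Fin.castSucc (Fin.castAdd (D1 + 1) (c k)))))
      κ n ?_ ?_
    · rw [Fin.snoc_last, aeval_C, map_zero, zero_add]
      simp only [Fin.snoc_castSucc, Fin.snoc_last, hJl]
      exact hne
    · rw [Fin.snoc_last, aeval_C, map_zero, zero_add]
      simp only [Fin.snoc_castSucc, Fin.snoc_last, hJl]
      exact hF
  · refine spz_comp hαs (Fin.snoc (fun i => Fin.castSucc (Fin.castSucc
      (Fin.castAdd (D1 + 1) i))) (Fin.last _)) (fun i => ?_) (fun i => ?_)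
    · refine Fin.lastCases ?_ (fun i => ?_) i
      · simp only [Fin.snoc_last]
      · simp only [Fin.snoc_castSucc, hJl]
    · refine Fin.lastCases ?_ (fun i => ?_) i
      · simp only [Fin.snoc_last]
      · simp only [Fin.snoc_castSucc, hJl]
  · intro h
    refine hnr3 (RelV.mono (le_max_left _ _) ?_)
    refine relV_comp h (Fin.snoc (fun i => Fin.castSucc (Fin.castSucc
      (Fin.castAdd (D1 + 1) i))) (Fin.last _)) (fun i => ?_) (fun i => ?_)
    · refine Fin.lastCases ?_ (fun i => ?_) i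
      · simp only [Fin.snoc_last]
      · simp only [Fin.snoc_castSucc, hJl]
    · refine Fin.lastCases ?_ (fun i => ?_) i
      · simp only [Fin.snoc_last]
      · simp only [Fin.snoc_castSucc, hJl]

end Pool.Agent.FNS
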