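import Pool.Agent.FNR.Form

/-! # Chains of zeros of polynomials with few terms -/

namespace Pool.Agent.FNS

open MvPolynomial

/-- `z_1 .. z_s` is an `s`-chain over `S`: each entry is in `S` or a zero of a nonzero polynomial
with at most `s` terms in the entries before it (and in itself) -/
def Chn (K : Type) {L : Type} [Field K] [Field L] [Algebra K L] (s : ℕ) (S : Set L)
    (z : Fin s → L) : Prop :=
  ∀ j, z j ∈ S ∨ ∃ P : MvPolynomial (Fin s) K, P.support.card ≤ s ∧ (∀ i ∈ P.vars, i ≤ j) ∧
    aeval z P = 0 ∧ ∃ y : L, aeval (Function.update z j y) P ≠ 0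

end Pool.Agent.FNS
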