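import Pool.Agent.FNS.Jt
import Pool.Agent.FNA.Lift

/-! # The ultraproduct of a field, with a derivation -/

namespace Pool.Agent.FNS

open MvPolynomial Pool.Agent.FN Pool.Agent.FNX Filter

/-- `G` is the ultraproduct field of `L` -/
structure UP (U : Ultrafilter ℕ) (L G : Type) [Field L] [Field G] where
  cl : (ℕ → L) →+* G
  surj : Function.Surjective cl
  zero : ∀ x, cl x = 0 ↔ ∀ᶠ E in (U : Filter ℕ), x E = 0

section basic

variable {U : Ultrafilter ℕ} {K L G : Type} [Field K] [Field L] [Algebra K L] [Field G]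
  (u : UP U L G)

theorem UP.eq_iff (x y : ℕ → L) : u.cl x = u.cl y ↔ ∀ᶠ E in (U : Filter ℕ), x E = y E := by
  rw [← sub_eq_zero, ← map_sub, u.zero]
  simp only [Pi.sub_apply, sub_eq_zero]

theorem UP.ne_iff (x : ℕ → L) : u.cl x ≠ 0 ↔ ∀ᶠ E in (U : Filter ℕ), x E ≠ 0 := by
  rw [Ne, u.zero]
  exact Ultrafilter.eventually_not.symm

/-- representatives -/
noncomputable def UP.rep (g : G) : ℕ → L := Function.surjInv u.surj g

theorem UP.cl_rep (g : G) : u.cl (u.rep g) = g := Function.surjInv_eq u.surj g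

theorem UP.rep_mk (x : ℕ → L) : ∀ᶠ E in (U : Filter ℕ), u.rep (u.cl x) E = x E :=
  (u.eq_iff _ _).1 (u.cl_rep _)

theorem UP.der_aux (δ : ℕ → Derivation K L L) (x : ℕ → L) :
    (u.cl fun E => δ E (u.rep (u.cl x) E)) = u.cl fun E => δ E (x E) := by
  rw [u.eq_iff]
  filter_upwards [u.rep_mk x] with E hE
  rw [hE]

/-- the derivation of the ultraproduct -/
noncomputable def UP.der (δ : ℕ → Derivation K L L) : Derivation ℤ G G :=
  Derivation.mk' (AddMonoidHom.toIntLinearMap
    (AddMonoidHom.mk' (fun g => u.cl fun E => δ E (u.rep g E)) (by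
      intro g h
      obtain ⟨x, rfl⟩ := u.surj g
      obtain ⟨y, rfl⟩ := u.surj h
      rw [← map_add u.cl x y, u.der_aux, u.der_aux, u.der_aux, ← map_add]
      congr 1
      funext E
      simp only [Pi.add_apply, map_add]))) (by
      intro g h
      obtain ⟨x, rfl⟩ := u.surj g
      obtain ⟨y, rfl⟩ := u.surj h
      change (u.cl fun E => δ E (u.rep (u.cl x * u.cl y) E)) =
        u.cl x • (u.cl fun E => δ E (u.rep (u.cl y) E)) +
          u.cl y • (u.cl fun E => δ E (u.rep (u.cl x) E))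
      rw [← map_mul u.cl x y, u.der_aux, u.der_aux, u.der_aux, smul_eq_mul, smul_eq_mul,
        ← map_mul, ← map_mul, ← map_add]
      congr 1
      funext E
      simp only [Pi.add_apply, Pi.mul_apply, Derivation.leibniz, smul_eq_mul])

theorem UP.der_mk (δ : ℕ → Derivation K L L) (x : ℕ → L) :
    u.der δ (u.cl x) = u.cl fun E => δ E (x E) := u.der_aux δ x

theorem UP.iter_mk (δ : ℕ → Derivation K L L) (k : ℕ) (x : ℕ → L) :
    (u.der δ)^[k] (u.cl x) = u.cl fun E => (δ E)^[k] (x E) := by
  induction k generalizing x with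
  | zero => rfl
  | succ k ih =>
    rw [Function.iterate_succ_apply, u.der_mk, ih]
    rfl

theorem UP.jt_mk (δ : ℕ → Derivation K L L) {N : ℕ} (a : ℕ → Fin N → L) (w : Fin N × ℕ) :
    jt (u.der δ) (fun i => u.cl fun E => a E i) w = u.cl fun E => jet (δ E) (a E) w :=
  u.iter_mk δ _ _

variable (K) in
/-- the image of the sequences of elements of `K` -/
noncomputable def UP.cst : Subfield G where
  carrier := {g | ∃ k : ℕ → K, g = u.cl fun E => algebraMap K L (k E)}
  mul_mem' := by
    rintro _ _ ⟨k, rfl⟩ ⟨l, rfl⟩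
    refine ⟨k * l, ?_⟩
    rw [← map_mul]
    congr 1
    funext E
    simp only [Pi.mul_apply, map_mul]
  one_mem' := ⟨1, by
    rw [← map_one u.cl]
    congr 1
    funext E
    simp only [Pi.one_apply, map_one]⟩
  add_mem' := by
    rintro _ _ ⟨k, rfl⟩ ⟨l, rfl⟩
    refine ⟨k + l, ?_⟩
    rw [← map_add]
    congr 1
    funext E
    simp only [Pi.add_apply, map_add]
  zero_mem' := ⟨0, by
    rw [← map_zero u.cl]
    congr 1
    funext E
    simp only [Pi.zero_apply, map_zero]⟩
  neg_mem' := by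
    rintro _ ⟨k, rfl⟩
    refine ⟨-k, ?_⟩
    rw [← map_neg]
    congr 1
    funext E
    simp only [Pi.neg_apply, map_neg]
  inv_mem' := by
    rintro _ ⟨k, rfl⟩
    by_cases h : (u.cl fun E => algebraMap K L (k E)) = 0
    · refine ⟨0, ?_⟩
      rw [h, inv_zero, ← map_zero u.cl]
      congr 1
      funext E
      simp only [Pi.zero_apply, map_zero]
    · refine ⟨fun E => (k E)⁻¹, ?_⟩
      rw [inv_eq_iff_eq_inv, eq_comm, inv_eq_iff_eq_inv, eq_comm, ← one_div, eq_comm,
        eq_div_iff h, ← map_mul, ← map_one u.cl, u.eq_iff]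
      filter_upwards [(u.ne_iff _).1 h] with E hE
      simp only [Pi.mul_apply, Pi.one_apply, map_inv₀]
      exact inv_mul_cancel₀ hE

theorem UP.mem_cst {g : G} : g ∈ u.cst K ↔ ∃ k : ℕ → K, g = u.cl fun E => algebraMap K L (k E) :=
  Iff.rfl

theorem UP.der_cst (δ : ℕ → Derivation K L L) : ∀ x ∈ u.cst K, u.der δ x = 0 := by
  rintro _ ⟨k, rfl⟩
  rw [u.der_mk, u.zero]
  exact Eventually.of_forall fun E => (δ E).map_algebraMap _

theorem UP.cst_of_der (δ : ℕ → Derivation K L L) (hδ : ∀ E, CK (δ E)) (x : G)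
    (hx : u.der δ x = 0) : x ∈ u.cst K := by
  classical
  obtain ⟨y, rfl⟩ := u.surj x
  rw [u.der_mk, u.zero] at hx
  have h : ∀ E, ∃ c : K, δ E (y E) = 0 → algebraMap K L c = y E := by
    intro E
    by_cases h : δ E (y E) = 0
    · obtain ⟨c, hc⟩ := hδ E _ h
      exact ⟨c, fun _ => hc⟩
    · exact ⟨0, fun h' => absurd h' h⟩
  choose k hk using h
  refine ⟨k, ?_⟩
  rw [u.eq_iff]
  filter_upwards [hx] with E hE
  exact (hk E hE).symm

/-- from a polynomial over the constants to a sequence of polynomials -/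
theorem UP.trans {τ : Type} (P : MvPolynomial τ (u.cst K)) : ∃ Q : ℕ → MvPolynomial τ K,
    (∀ E, (Q E).support ⊆ P.support) ∧ ∀ p : τ → ℕ → L,
      aeval (fun t => u.cl (p t)) P = u.cl fun E => aeval (fun t => p t E) (Q E) := by
  classical
  choose k hk using fun x : u.cst K => u.mem_cst.1 x.2
  refine ⟨fun E => ∑ m ∈ P.support, monomial m (k (coeff m P) E), fun E => ?_, fun p => ?_⟩
  · intro m hm
    have h1 : m ∈ (∑ m ∈ P.support, monomial m (k (coeff m P) E)).support := hm
    obtain ⟨n, hn, h2⟩ := Finset.mem_biUnion.1 (support_sum h1)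
    have h3 := support_monomial_subset h2
    rw [Finset.mem_singleton] at h3
    rwa [h3]
  · rw [aeval_def, eval₂_eq]
    have h1 : (fun E => aeval (fun t => p t E) (∑ m ∈ P.support, monomial m (k (coeff m P) E))) =
        ∑ m ∈ P.support, (fun E => algebraMap K L (k (coeff m P) E)) *
          ∏ i ∈ m.support, p i ^ m i := by
      funext E
      rw [map_sum, Finset.sum_apply]
      refine Finset.sum_congr rfl fun m _ => ?_
      rw [aeval_monomial, Pi.mul_apply, Finset.prod_apply]
      rfl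
    rw [h1, map_sum]
    refine Finset.sum_congr rfl fun m _ => ?_
    rw [map_mul, map_prod]
    congr 1
    · exact hk _
    · refine Finset.prod_congr rfl fun i _ => ?_
      rw [map_pow]

/-- from a sequence of polynomials to a polynomial over the constants -/
theorem UP.back {τ : Type} (S : Finset (τ →₀ ℕ)) (Q : ℕ → MvPolynomial τ K)
    (hQ : ∀ E, (Q E).support ⊆ S) : ∃ P : MvPolynomial τ (u.cst K), ∀ p : τ → ℕ → L,
      aeval (fun t => u.cl (p t)) P = u.cl fun E => aeval (fun t => p t E) (Q E) := by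
  classical
  refine ⟨∑ m ∈ S, monomial m ⟨u.cl fun E => algebraMap K L (coeff m (Q E)), ⟨_, rfl⟩⟩,
    fun p => ?_⟩
  have h1 : (fun E => aeval (fun t => p t E) (Q E)) =
      ∑ m ∈ S, (fun E => algebraMap K L (coeff m (Q E))) * ∏ i ∈ m.support, p i ^ m i := by
    funext E
    rw [aeval_def, eval₂_eq, Finset.sum_apply]
    refine (Finset.sum_subset (hQ E) fun m _ hm => ?_).trans
      (Finset.sum_congr rfl fun m _ => ?_)
    · rw [notMem_support_iff.1 hm, map_zero, zero_mul]
    · rw [Pi.mul_apply, Finset.prod_apply]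
      rfl
  rw [h1, map_sum, map_sum]
  refine Finset.sum_congr rfl fun m _ => ?_
  rw [aeval_monomial, map_mul, map_prod]
  congr 1
  refine Finset.prod_congr rfl fun i _ => ?_
  rw [map_pow]

end basic

end Pool.Agent.FNS
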