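import Mathlib

namespace Pool.Agent.FNS

open Polynomial

theorem germ_closed {F : Type} [Field F] [IsAlgClosed F] :
    IsAlgClosed (Filter.Germ (↑(Filter.hyperfilter ℕ) : Filter ℕ) F) := by
  classical
  apply IsAlgClosed.of_exists_root
  intro p hp hirr
  have hn : p.natDegree ≠ 0 := (hirr.natDegree_pos).ne'
  have hc : ∀ i, ∃ c : ℕ → F, ((c : ℕ → F) : Filter.Germ (↑(Filter.hyperfilter ℕ) : Filter ℕ) F)
      = p.coeff i := fun i => by
    induction p.coeff i using Filter.Germ.inductionOn with
    | h f => exact ⟨f, rfl⟩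
  choose c hc using hc
  have hroot : ∀ k : ℕ, ∃ x : F, x ^ p.natDegree
      + ∑ i ∈ Finset.range p.natDegree, c i k * x ^ i = 0 := by
    intro k
    set P : F[X] := X ^ p.natDegree + ∑ i ∈ Finset.range p.natDegree, C (c i k) * X ^ i with hP
    have hlt : (∑ i ∈ Finset.range p.natDegree, C (c i k) * X ^ i : F[X]).degree
        < (p.natDegree : WithBot ℕ) := by
      refine lt_of_le_of_lt (degree_sum_le _ _) ?_
      rw [Finset.sup_lt_iff (by exact WithBot.bot_lt_coe _)]
      intro i hi
      refine lt_of_le_of_lt (degree_C_mul_X_pow_le i _) ?_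
      exact_mod_cast Finset.mem_range.mp hi
    have hmon : P.Monic := monic_X_pow_add hlt
    have hdeg : P.degree = (p.natDegree : WithBot ℕ) := by
      rw [hP, degree_add_eq_left_of_degree_lt (by rw [degree_X_pow]; exact hlt), degree_X_pow]
    obtain ⟨x, hx⟩ := IsAlgClosed.exists_root P (by
      rw [hdeg]
      exact_mod_cast hn)
    refine ⟨x, ?_⟩
    have := hx
    rw [IsRoot.def, hP, eval_add, eval_pow, eval_X, eval_finsetSum] at this
    simpa [eval_mul, eval_C, eval_pow, eval_X] using this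
  choose x hx using hroot
  refine ⟨((x : ℕ → F) : Filter.Germ (↑(Filter.hyperfilter ℕ) : Filter ℕ) F), ?_⟩
  set φ : (ℕ → F) →+* Filter.Germ (↑(Filter.hyperfilter ℕ) : Filter ℕ) F :=
    Filter.Germ.coeRingHom _ with hφ
  have h1 : p.eval (φ x) = φ (x ^ p.natDegree + ∑ i ∈ Finset.range p.natDegree, c i * x ^ i) := by
    conv_lhs => rw [hp.as_sum]
    rw [eval_add, eval_pow, eval_X, eval_finsetSum, map_add, map_pow, map_sum]
    congr 1
    refine Finset.sum_congr rfl fun i _ => ?_
    rw [eval_mul, eval_C, eval_pow, eval_X, map_mul, map_pow]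
    congr 1
    exact (hc i).symm
  have h2 : (x ^ p.natDegree + ∑ i ∈ Finset.range p.natDegree, c i * x ^ i : ℕ → F) = 0 := by
    funext k
    simpa [Finset.sum_apply] using hx k
  have h3 : p.eval (φ x) = 0 := by rw [h1, h2, map_zero]
  exact h3

end Pool.Agent.FNS
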