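import Mathlib

namespace Pool.Agent.FNS

theorem lattice {M : Type} [AddCommGroup M] (htf : ∀ (n : ℤ) (x : M), n • x = 0 → n = 0 ∨ x = 0)
    {q : ℕ} (m : Fin q → M) : ∃ (r : ℕ) (ν : Fin r → M) (e : Fin q → Fin r → ℤ),
      (∀ i, m i = ∑ j, e i j • ν j) ∧ ∀ c : Fin r → ℤ, ∑ j, c j • ν j = 0 → c = 0 := by
  classical
  set N : Submodule ℤ M := Submodule.span ℤ (Set.range m) with hN
  have h1 : Module.Finite ℤ N := Module.Finite.span_of_finite ℤ (Set.finite_range m)
  have h2 : Module.IsTorsionFree ℤ N := by
    refine Module.IsTorsionFree.of_smul_eq_zero fun n x h => ?_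
    rcases htf n (x : M) (by simpa using congrArg (fun y : N => (y : M)) h) with h | h
    · exact Or.inl h
    · exact Or.inr (Subtype.ext h)
  have h3 : Module.Free ℤ N := Module.free_of_finite_type_torsion_free'
  let b := Module.finBasis ℤ N
  have hm : ∀ i, m i ∈ N := fun i => Submodule.subset_span ⟨i, rfl⟩
  refine ⟨Module.finrank ℤ N, fun j => (b j : M), fun i j => b.repr ⟨m i, hm i⟩ j, ?_, ?_⟩
  · intro i
    have h := b.sum_repr ⟨m i, hm i⟩
    have h2 := congrArg (fun x : N => (x : M)) h
    simp only [Submodule.coe_sum, Submodule.coe_smul] at h2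
    exact h2.symm
  · intro c hc
    have h : ∑ j, c j • b j = 0 := by
      apply Subtype.ext
      simp only [Submodule.coe_sum, Submodule.coe_smul]
      exact hc
    have := Fintype.linearIndependent_iff.mp b.linearIndependent c h
    funext j
    exact this j

end Pool.Agent.FNS
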