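import Pool.Agent.FNS.Germ
import Pool.Agent.FNS.Lat
import Pool.Agent.FNS.GermC

/-! # The ultraproduct of a field: faithful tuples, the field of the jets -/

namespace Pool.Agent.FNS

open MvPolynomial Pool.Agent.FN Pool.Agent.FNX Filter

/-- the ultraproduct -/
theorem exists_up (L : Type) [Field L] [CharZero L] [IsAlgClosed L] :
    ∃ (U : Ultrafilter ℕ) (G : Type) (_ : Field G), (∀ n : ℕ, ∀ᶠ E in (U : Filter ℕ), n ≤ E) ∧
      CharZero G ∧ IsAlgClosed G ∧ Nonempty (UP U L G) := by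
  refine ⟨hyperfilter ℕ, Germ (↑(hyperfilter ℕ) : Filter ℕ) L, inferInstance, fun n => ?_, ?_,
    germ_closed, ⟨⟨Germ.coeRingHom _, fun g => ?_, fun x => ?_⟩⟩⟩
  · exact (eventually_ge_atTop n).filter_mono Nat.hyperfilter_le_atTop
  · refine charZero_of_inj_zero fun n hn => ?_
    have h1 : ((fun _ => (n : L) : ℕ → L) : Germ (↑(hyperfilter ℕ) : Filter ℕ) L) =
      ((fun _ => (0 : L) : ℕ → L) : Germ (↑(hyperfilter ℕ) : Filter ℕ) L) := hn
    rw [Germ.coe_eq] at h1
    obtain ⟨E, hE⟩ := h1.exists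
    have hE' : (n : L) = 0 := hE
    exact Nat.cast_eq_zero.1 hE'
  · exact Germ.inductionOn g fun f => ⟨f, rfl⟩
  · exact Germ.coe_eq

/-- exponents in a lattice -/
theorem exps (U : Ultrafilter ℕ) {q : ℕ} (m : Fin q → ℕ → ℤ) :
    ∃ (r : ℕ) (ν : Fin r → ℕ → ℕ) (e : Fin q → Fin r → ℤ),
      (∀ i, ∀ᶠ E in (U : Filter ℕ), m i E = ∑ j, e i j * (ν j E : ℤ)) ∧
        ∀ c : Fin r → ℤ, (∀ᶠ E in (U : Filter ℕ), ∑ j, c j * (ν j E : ℤ) = 0) → c = 0 := by
  classical
  obtain ⟨r, ν, e, he, hind⟩ := lattice (M := Germ (U : Filter ℕ) ℤ) (fun n x hx => by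
    induction x using Germ.inductionOn with
    | _ f =>
      by_cases hn : n = 0
      · exact Or.inl hn
      · right
        have h1 : ((n • f : ℕ → ℤ) : Germ (U : Filter ℕ) ℤ) = ((0 : ℕ → ℤ) : Germ _ ℤ) := hx
        rw [Germ.coe_eq] at h1
        change (f : Germ (U : Filter ℕ) ℤ) = ((0 : ℕ → ℤ) : Germ _ ℤ)
        rw [Germ.coe_eq]
        filter_upwards [h1] with E hE
        simpa [hn] using hE) (fun i => (m i : Germ (U : Filter ℕ) ℤ))
  have hrep : ∀ j, ∃ (f : ℕ → ℤ), (f : Germ (U : Filter ℕ) ℤ) = ν j := fun j =>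
    Germ.inductionOn (ν j) fun f => ⟨f, rfl⟩
  choose f hf using hrep
  -- the signs
  have hsg : ∀ j, ∃ sg : ℤ, sg * sg = 1 ∧ ∀ᶠ E in (U : Filter ℕ), f j E = sg * ((f j E).natAbs : ℤ) := by
    intro j
    rcases U.em fun E => 0 ≤ f j E with h | h
    · refine ⟨1, by norm_num, ?_⟩
      filter_upwards [h] with E hE
      omega
    · refine ⟨-1, by norm_num, ?_⟩
      filter_upwards [h] with E hE
      omega
  choose sg hsg1 hsg2 using hsg
  have hsum : ∀ c : Fin r → ℤ, ∑ j, c j • ν j =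
      ((fun E => ∑ j, c j * f j E : ℕ → ℤ) : Germ (U : Filter ℕ) ℤ) := by
    intro c
    have h1 : (fun E => ∑ j, c j * f j E : ℕ → ℤ) = ∑ j, c j • f j := by
      funext E
      rw [Finset.sum_apply]
      rfl
    rw [h1]
    have h2 : ∀ g : ℕ → ℤ, (g : Germ (U : Filter ℕ) ℤ) = Germ.coeRingHom (U : Filter ℕ) g :=
      fun g => rfl
    rw [h2, map_sum]
    refine Finset.sum_congr rfl fun j _ => ?_
    rw [← hf j]
    rfl
  refine ⟨r, fun j E => (f j E).natAbs, fun i j => e i j * sg j, fun i => ?_, fun c hc => ?_⟩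
  · have h1 := he i
    rw [hsum, Germ.coe_eq] at h1
    have h2 : ∀ᶠ E in (U : Filter ℕ), ∀ j, f j E = sg j * ((f j E).natAbs : ℤ) :=
      eventually_all.2 hsg2
    filter_upwards [h1, h2] with E hE hE2
    rw [hE]
    refine Finset.sum_congr rfl fun j _ => ?_
    rw [mul_assoc, ← hE2 j]
  · have h1 := hind (fun j => c j * sg j) (by
      rw [hsum]
      change _ = ((0 : ℕ → ℤ) : Germ (U : Filter ℕ) ℤ)
      rw [Germ.coe_eq]
      have h2 : ∀ᶠ E in (U : Filter ℕ), ∀ j, f j E = sg j * ((f j E).natAbs : ℤ) :=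
        eventually_all.2 hsg2
      filter_upwards [hc, h2] with E hE hE2
      rw [Pi.zero_apply, ← hE]
      refine Finset.sum_congr rfl fun j _ => ?_
      rw [mul_assoc]
      congr 1
      nth_rewrite 1 [hE2 j]
      rw [← mul_assoc, hsg1 j, one_mul])
    funext j
    have h3 := congrFun h1 j
    have h4 : c j * sg j = 0 := h3
    have h5 : c j * sg j * sg j = 0 := by rw [h4, zero_mul]
    rwa [mul_assoc, hsg1 j, mul_one] at h5

section faith

variable {U : Ultrafilter ℕ} {K L G : Type} [Field K] [Field L] [Algebra K L] [Field G]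
  (u : UP U L G)

theorem bdd_of_support {k k' : Type} [Field k] [Field k'] {N D : ℕ}
    {P : MvPolynomial (Fin N × ℕ) k} {Q : MvPolynomial (Fin N × ℕ) k'}
    (h : Q.support ⊆ P.support) (hP : Bdd D P) : Bdd D Q := by
  classical
  constructor
  · refine le_trans ?_ hP.1
    rw [totalDegree, totalDegree]
    exact Finset.sup_mono h
  · intro v hv
    obtain ⟨d, hd, hd2⟩ := (mem_vars_iff_mem_support v).1 hv
    exact hP.2 v ((mem_vars_iff_mem_support v).2 ⟨d, h hd, hd2⟩)

/-- finitely many monomials -/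
theorem exists_supp (N D : ℕ) : ∃ S : Finset ((Fin N × ℕ) →₀ ℕ), ∀ {k : Type} [Field k]
    (P : MvPolynomial (Fin N × ℕ) k), Bdd D P → P.support ⊆ S := by
  classical
  refine ⟨(Finset.univ ×ˢ Finset.range (D + 1)).finsupp fun _ => Finset.range (D + 1),
    fun {k} _ P hP m hm => ?_⟩
  rw [Finset.mem_finsupp_iff]
  constructor
  · intro v hv
    have h1 := hP.2 v ((mem_vars_iff_mem_support v).2 ⟨m, hm, hv⟩)
    exact Finset.mem_product.2 ⟨Finset.mem_univ _, Finset.mem_range.2 (Nat.lt_succ_of_le h1)⟩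
  · intro v _
    have h1 : m v ≤ m.sum fun _ e => e := by
      by_cases h : v ∈ m.support
      · exact Finset.single_le_sum (f := fun w => m w) (fun _ _ => Nat.zero_le _) h
      · rw [Finsupp.notMem_support_iff.1 h]
        exact Nat.zero_le _
    exact Finset.mem_range.2 (Nat.lt_succ_of_le (h1.trans ((le_totalDegree hm).trans hP.1)))

theorem faith (hU : ∀ n : ℕ, ∀ᶠ E in (U : Filter ℕ), n ≤ E) (δ : ℕ → Derivation K L L) {N : ℕ}
    (a b : ℕ → Fin N → L) (h : ∀ E, ¬ RelV (δ E) E (a E) (b E))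
    (P : MvPolynomial (Fin N × ℕ) (u.cst K))
    (hP : aeval (jt (u.der δ) fun i => u.cl fun E => b E i) P = 0) :
    aeval (jt (u.der δ) fun i => u.cl fun E => a E i) P = 0 := by
  obtain ⟨Q, hQ, hQp⟩ := u.trans P
  obtain ⟨D, hD⟩ := Pool.Agent.FNA.exists_bdd P
  have h1 : ∀ c : ℕ → Fin N → L, (jt (u.der δ) fun i => u.cl fun E => c E i) =
      fun w => u.cl fun E => jet (δ E) (c E) w := fun c => funext fun w => u.jt_mk δ c w
  rw [h1, hQp, u.zero] at hP ⊢
  filter_upwards [hP, hU D] with E hE hDE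
  by_contra hne
  exact h E ⟨Q E, (bdd_of_support (hQ E) hD).mono hDE, hne, hE⟩

/-- the field generated by the constants and the jets -/
theorem exists_field (D : Derivation ℤ G G) (C : Subfield G) (hC : ∀ x ∈ C, D x = 0) {N : ℕ}
    (b : Fin N → G) : ∃ B : Subfield G, C ≤ B ∧ (∀ w, jt D b w ∈ B) ∧ (∀ x ∈ B, D x ∈ B) ∧
      ∀ x : G, IsAlgebraic B x → ∃ (d : ℕ) (R : Fin (d + 1) → MvPolynomial (Fin N × ℕ) C),
        (∃ k, aeval (jt D b) (R k) ≠ 0) ∧ ∑ k, aeval (jt D b) (R k) * x ^ (k : ℕ) = 0 := by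
  classical
  have hD : ∀ P : MvPolynomial (Fin N × ℕ) C, ∃ P' : MvPolynomial (Fin N × ℕ) C,
      aeval (jt D b) P' = D (aeval (jt D b) P) := by
    intro P
    induction P using MvPolynomial.induction_on with
    | C c => exact ⟨0, by rw [map_zero, aeval_C]; exact (hC _ c.2).symm⟩
    | add p q hp hq =>
      obtain ⟨p', hp'⟩ := hp
      obtain ⟨q', hq'⟩ := hq
      exact ⟨p' + q', by rw [map_add, map_add, map_add, hp', hq']⟩
    | mul_X p v hp =>
      obtain ⟨p', hp'⟩ := hp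
      refine ⟨p * X (v.1, v.2 + 1) + X v * p', ?_⟩
      rw [map_add, map_mul, map_mul, map_mul, aeval_X, aeval_X, hp', Derivation.leibniz,
        smul_eq_mul, smul_eq_mul]
      congr 1
      change _ * D^[v.2 + 1] (b v.1) = _ * D (D^[v.2] (b v.1))
      rw [Function.iterate_succ_apply']
  let B : Subfield G :=
    { carrier := {x | ∃ P W : MvPolynomial (Fin N × ℕ) C, aeval (jt D b) W ≠ 0 ∧
        aeval (jt D b) W * x = aeval (jt D b) P}
      mul_mem' := by
        rintro x y ⟨P, W, hW, h⟩ ⟨P', W', hW', h'⟩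
        refine ⟨P * P', W * W', ?_, ?_⟩
        · rw [map_mul]
          exact mul_ne_zero hW hW'
        · rw [map_mul, map_mul, ← h, ← h']
          ring
      one_mem' := ⟨1, 1, by rw [map_one]; exact one_ne_zero, by rw [map_one, one_mul]⟩
      add_mem' := by
        rintro x y ⟨P, W, hW, h⟩ ⟨P', W', hW', h'⟩
        refine ⟨P * W' + P' * W, W * W', ?_, ?_⟩
        · rw [map_mul]
          exact mul_ne_zero hW hW'
        · rw [map_mul, map_add, map_mul, map_mul, ← h, ← h']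
          ring
      zero_mem' := ⟨0, 1, by rw [map_one]; exact one_ne_zero, by rw [map_zero, mul_zero]⟩
      neg_mem' := by
        rintro x ⟨P, W, hW, h⟩
        exact ⟨-P, W, hW, by rw [map_neg, ← h, mul_neg]⟩
      inv_mem' := by
        rintro x ⟨P, W, hW, h⟩
        by_cases hx : x = 0
        · rw [hx, inv_zero]
          exact ⟨0, 1, by rw [map_one]; exact one_ne_zero, by rw [map_zero, mul_zero]⟩
        · refine ⟨W, P, ?_, ?_⟩
          · rw [← h]
            exact mul_ne_zero hW hx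
          · rw [← h, mul_assoc, mul_inv_cancel₀ hx, mul_one] }
  refine ⟨B, fun x hx => ⟨MvPolynomial.C ⟨x, hx⟩, 1, by rw [map_one]; exact one_ne_zero, ?_⟩,
    fun w => ⟨X w, 1, by rw [map_one]; exact one_ne_zero, ?_⟩, ?_, ?_⟩
  · rw [map_one, one_mul, aeval_C]
    rfl
  · rw [map_one, one_mul, aeval_X]
  · rintro x ⟨P, W, hW, h⟩
    obtain ⟨P', hP'⟩ := hD P
    obtain ⟨W', hW'⟩ := hD W
    refine ⟨W * P' - W' * P, W * W, ?_, ?_⟩
    · rw [map_mul]
      exact mul_ne_zero hW hW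
    · rw [map_mul, map_sub, map_mul, map_mul, hP', hW', ← h, Derivation.leibniz, smul_eq_mul,
        smul_eq_mul]
      ring
  · rintro x ⟨p, hp0, hp⟩
    have hB : ∀ c : B, ∃ P W : MvPolynomial (Fin N × ℕ) C, aeval (jt D b) W ≠ 0 ∧
        aeval (jt D b) W * (c : G) = aeval (jt D b) P := fun c => c.2
    choose P W hW h using hB
    let R : Fin (p.natDegree + 1) → MvPolynomial (Fin N × ℕ) C := fun k =>
      P (p.coeff k) * ∏ l ∈ Finset.univ.erase k, W (p.coeff (l : ℕ))
    have hR : ∀ k, aeval (jt D b) (R k) = (∏ l : Fin (p.natDegree + 1),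
        aeval (jt D b) (W (p.coeff (l : ℕ)))) * (p.coeff (k : ℕ) : G) := by
      intro k
      rw [map_mul, ← h, map_prod, ← Finset.mul_prod_erase Finset.univ _ (Finset.mem_univ k)]
      ring
    refine ⟨p.natDegree, R, ⟨Fin.last _, ?_⟩, ?_⟩
    · rw [hR]
      refine mul_ne_zero (Finset.prod_ne_zero_iff.2 fun l _ => hW _) ?_
      rw [Fin.val_last]
      intro h1
      exact hp0 (Polynomial.leadingCoeff_eq_zero.1 (Subtype.ext h1))
    · simp only [hR, mul_assoc]
      rw [← Finset.mul_sum]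
      have h1 : ∑ k : Fin (p.natDegree + 1), (p.coeff (k : ℕ) : G) * x ^ (k : ℕ) = 0 := by
        rw [Fin.sum_univ_eq_sum_range (fun k => (p.coeff k : G) * x ^ k)]
        rw [Polynomial.aeval_eq_sum_range] at hp
        rw [← hp]
        rfl
      rw [h1, mul_zero]

end faith

end Pool.Agent.FNS
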