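import Pool.Agent.FNR.Form

/-! # Iterated derivatives in an abstract differential field -/

namespace Pool.Agent.FNS

/-- all iterated derivatives of a tuple -/
def jt {G : Type} [Field G] (D : Derivation ℤ G G) {N : ℕ} (y : Fin N → G) : Fin N × ℕ → G :=
  fun v => D^[v.2] (y v.1)

end Pool.Agent.FNS
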