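import Pool.Agent.FNS.Entry

/-! # One step: a zero of a polynomial with few terms in the entries -/

set_option autoImplicit false

namespace Pool.Agent.FNS

open MvPolynomial Pool.Agent.FN Pool.Agent.FNX Pool.Agent.FNR

/-- several values of polynomials with few terms as entries -/
theorem entries (s N r : ℕ) : ∀ D : ℕ, ∃ E : ℕ, ∀ {K L : Type} [Field K] [CharZero K] [Field L]
    [Algebra K L] (δ : Derivation K L L), CK δ → ∀ (a b : Fin N → L), Spz δ a b →
      ∀ f : Fin r → MvPolynomial (Fin N) K, (∀ i, (f i).support.card ≤ s) →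
        Spz δ (Fin.append a fun i => aeval a (f i) : Fin (N + r) → L)
          (Fin.append b fun i => aeval b (f i)) ∧
        (RelV δ D (Fin.append a fun i => aeval a (f i) : Fin (N + r) → L)
          (Fin.append b fun i => aeval b (f i)) → RelV δ E a b) := by
  classical
  induction r with
  | zero =>
    intro D
    refine ⟨D, ?_⟩
    intro K L _ _ _ _ δ _ a b hab f _
    have key : ∀ (c : Fin N → L) (i : Fin (N + 0)),
        (Fin.append c fun i => aeval c (f i) : Fin (N + 0) → L) i = c i := by
      intro c i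
      rw [Fin.append_right_nil _ _ rfl]
      rfl
    refine ⟨spz_comp hab (fun i : Fin (N + 0) => i) (key a) (key b), fun h => ?_⟩
    exact relV_comp h (fun i : Fin (N + 0) => i) (key a) (key b)
  | succ r ih =>
    intro D
    obtain ⟨E1, h1⟩ := entry s (N + r) D
    obtain ⟨E2, h2⟩ := ih E1
    refine ⟨E2, ?_⟩
    intro K L _ _ _ _ δ hδ a b hab f hf
    obtain ⟨h3, h4⟩ := h2 δ hδ a b hab (fun i => f i.castSucc) fun i => hf i.castSucc
    have hcard : (rename (Fin.castAdd r) (f (Fin.last r)) :
        MvPolynomial (Fin (N + r)) K).support.card ≤ s :=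
      ((Finset.card_le_card Finsupp.mapDomain_support).trans Finset.card_image_le).trans
        (hf (Fin.last r))
    have key : ∀ (c : Fin N → L) (i : Fin (N + (r + 1))),
        (Fin.append c fun i => aeval c (f i) : Fin (N + (r + 1)) → L) i =
        (Fin.snoc (Fin.append c fun i => aeval c (f i.castSucc) : Fin (N + r) → L)
          (aeval (Fin.append c fun i => aeval c (f i.castSucc) : Fin (N + r) → L)
            (rename (Fin.castAdd r) (f (Fin.last r)))) : Fin (N + r + 1) → L) i := by
      intro c i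
      have hval : aeval (Fin.append c fun i => aeval c (f i.castSucc) : Fin (N + r) → L)
          (rename (Fin.castAdd r) (f (Fin.last r))) = aeval c (f (Fin.last r)) := by
        rw [aeval_rename]
        congr 1
        congr 1
        funext j
        exact Fin.append_left _ _ _
      rw [hval]
      refine Fin.addCases (fun i => ?_) (fun i => ?_) i
      · rw [Fin.append_left]
        have e : (Fin.castAdd (r + 1) i : Fin (N + (r + 1))) =
          (Fin.castSucc (Fin.castAdd r i) : Fin (N + r + 1)) := rfl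
        rw [e, Fin.snoc_castSucc, Fin.append_left]
      · rw [Fin.append_right]
        refine Fin.lastCases ?_ (fun i => ?_) i
        · have e : (Fin.natAdd N (Fin.last r) : Fin (N + (r + 1))) = Fin.last (N + r) := rfl
          rw [e, Fin.snoc_last]
        · have e : (Fin.natAdd N (Fin.castSucc i) : Fin (N + (r + 1))) =
            (Fin.castSucc (Fin.natAdd N i) : Fin (N + r + 1)) := rfl
          rw [e, Fin.snoc_castSucc, Fin.append_right]
    refine ⟨spz_comp (spz_poly h3 _) (fun i : Fin (N + (r + 1)) => i) (key a) (key b),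
      fun h => h4 (h1 δ hδ _ _ h3 _ hcard ?_)⟩
    exact relV_comp h (fun i : Fin (N + (r + 1)) => i) (key a) (key b)

/-- a polynomial with at most `s` terms, sorted by the powers of the last variable -/
theorem by_last {K : Type} [Field K] {N s : ℕ} (P : MvPolynomial (Fin (N + 1)) K)
    (hP : P.support.card ≤ s) : ∃ (n : Fin s → ℕ) (f : Fin s → MvPolynomial (Fin N) K),
      Function.Injective n ∧ (∀ i, (f i).support.card ≤ s) ∧
      (∀ i, ∀ j ∈ (f i).vars, j.castSucc ∈ P.vars) ∧
      ∀ {L : Type} [Field L] [Algebra K L] (c : Fin N → L) (y : L),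
        aeval (Fin.snoc c y : Fin (N + 1) → L) P = ∑ i, aeval c (f i) * y ^ n i := by
  classical
  obtain ⟨T, hT1, hT2⟩ := Infinite.exists_superset_card_eq
    (P.support.image fun m => m (Fin.last N)) s (Finset.card_image_le.trans hP)
  obtain ⟨res, hres⟩ : ∃ res : (Fin (N + 1) →₀ ℕ) → (Fin N →₀ ℕ), ∀ m i,
      res m i = m i.castSucc :=
    ⟨fun m => Finsupp.equivFunOnFinite.symm fun i => m i.castSucc, fun m i => rfl⟩
  obtain ⟨g, hg⟩ : ∃ g : ℕ → MvPolynomial (Fin N) K, ∀ e,
      g e = ∑ m ∈ P.support.filter (fun m => m (Fin.last N) = e), monomial (res m) (P.coeff m) :=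
    ⟨_, fun e => rfl⟩
  have hsupp : ∀ e, (g e).support ⊆
      (P.support.filter fun m => m (Fin.last N) = e).image res := by
    intro e
    rw [hg]
    refine (support_sum (R := K)).trans ?_
    intro x hx
    obtain ⟨m, hm, hx⟩ := Finset.mem_biUnion.1 hx
    have h1 := support_monomial_subset hx
    rw [Finset.mem_singleton] at h1
    rw [h1]
    exact Finset.mem_image_of_mem _ hm
  refine ⟨T.orderEmbOfFin hT2, fun i => g (T.orderEmbOfFin hT2 i),
    (T.orderEmbOfFin hT2).injective, fun i => ?_, fun i j hj => ?_, ?_⟩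
  · exact ((Finset.card_le_card (hsupp _)).trans Finset.card_image_le).trans
      ((Finset.card_le_card (Finset.filter_subset _ _)).trans hP)
  · obtain ⟨x, hx, hjx⟩ := (mem_vars_iff_mem_support j).1 hj
    obtain ⟨m, hm, hmx⟩ := Finset.mem_image.1 (hsupp _ hx)
    refine (mem_vars_iff_mem_support _).2 ⟨m, (Finset.mem_filter.1 hm).1, ?_⟩
    rw [Finsupp.mem_support_iff] at hjx ⊢
    rw [← hres, hmx]
    exact hjx
  · intro L _ _ c y
    have h1 : ∑ i, aeval c (g (T.orderEmbOfFin hT2 i)) * y ^ (T.orderEmbOfFin hT2 i) =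
        ∑ e ∈ T, aeval c (g e) * y ^ e := by
      conv_rhs => rw [← Finset.map_orderEmbOfFin_univ T hT2]
      rw [Finset.sum_map]
      rfl
    rw [h1, aeval_def, eval₂_eq']
    have h2 : ∀ e ∈ T, aeval c (g e) * y ^ e =
        ∑ m ∈ P.support.filter (fun m => m (Fin.last N) = e),
          algebraMap K L (P.coeff m) * ∏ i, (Fin.snoc c y : Fin (N + 1) → L) i ^ m i := by
      intro e _
      rw [hg, map_sum, Finset.sum_mul]
      refine Finset.sum_congr rfl fun m hm => ?_
      rw [aeval_monomial, Finsupp.prod_fintype _ _ (fun i => pow_zero _), Fin.prod_univ_castSucc,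
        Fin.snoc_last, (Finset.mem_filter.1 hm).2]
      simp only [hres, Fin.snoc_castSucc, mul_assoc]
    rw [Finset.sum_congr rfl h2]
    exact (Finset.sum_fiberwise_of_maps_to
      (fun m hm => hT1 (Finset.mem_image_of_mem (fun m : Fin (N + 1) →₀ ℕ => m (Fin.last N)) hm))
      (fun m => algebraMap K L (P.coeff m) *
        ∏ i, (Fin.snoc c y : Fin (N + 1) → L) i ^ m i)).symm

/-- one step; the hypothesis is `sp` for `N + s` entries -/
theorem sstep_of (K L : Type) [Field K] [CharZero K] [Field L] [IsAlgClosed L] [Algebra K L]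
    (s N D : ℕ)
    (hsp : ∃ E : ℕ, ∀ δ : Derivation K L L, CK δ → ∀ a b : Fin (N + s) → L, Spz δ a b →
      ¬ RelV δ E a b → ∀ (c : Fin s → Fin (N + s)) (n : Fin s → ℕ), Function.Injective n →
        (∃ i, b (c i) ≠ 0) → ∀ β : L, ∑ i, b (c i) * β ^ n i = 0 →
          ∃ α : L, IsAlgebraic (Algebra.adjoin K (Set.range fun i => a (c i))) α ∧
            Spz δ (Fin.snoc a α : Fin (N + s + 1) → L) (Fin.snoc b β) ∧
              ¬ RelV δ D (Fin.snoc a α : Fin (N + s + 1) → L) (Fin.snoc b β)) :
    ∃ E : ℕ, ∀ δ : Derivation K L L, CK δ → ∀ a b : Fin N → L, Spz δ a b →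
      ¬ RelV δ E a b → ∀ F : IntermediateField K L, (∀ x : L, IsAlgebraic F x → x ∈ F) →
        ∀ P : MvPolynomial (Fin (N + 1)) K, P.support.card ≤ s →
          (∀ i : Fin N, i.castSucc ∈ P.vars → a i ∈ F) → ∀ β : L,
            aeval (Fin.snoc b β : Fin (N + 1) → L) P = 0 →
            (∃ y : L, aeval (Fin.snoc b y : Fin (N + 1) → L) P ≠ 0) →
              ∃ α ∈ F, Spz δ (Fin.snoc a α : Fin (N + 1) → L) (Fin.snoc b β) ∧
                ¬ RelV δ D (Fin.snoc a α : Fin (N + 1) → L) (Fin.snoc b β) := by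
  classical
  obtain ⟨E1, h1⟩ := hsp
  obtain ⟨E2, h2⟩ := entries s N s E1
  refine ⟨E2, fun δ hδ a b hab hnr F hF P hP hPF β hβ hy => ?_⟩
  obtain ⟨n, f, hn, hfs, hfv, hfe⟩ := by_last P hP
  obtain ⟨h3, h4⟩ := h2 δ hδ a b hab f hfs
  obtain ⟨α, hα, hs, hr⟩ := h1 δ hδ _ _ h3 (fun h => hnr (h4 h)) (Fin.natAdd N) n hn
    (by
      by_contra hno
      push Not at hno
      obtain ⟨y, hy⟩ := hy
      apply hy
      rw [hfe]
      refine Finset.sum_eq_zero fun i _ => ?_
      have h5 := hno i
      rw [Fin.append_right] at h5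
      rw [h5, zero_mul]) β
    (by
      rw [← hβ, hfe]
      refine Finset.sum_congr rfl fun i _ => ?_
      rw [Fin.append_right])
  have key : ∀ (c : Fin N → L) (g : Fin s → L) (x : L) (i : Fin (N + 1)),
      (Fin.snoc c x : Fin (N + 1) → L) i =
      (Fin.snoc (Fin.append c g : Fin (N + s) → L) x : Fin (N + s + 1) → L)
        ((Fin.snoc (fun i : Fin N => (Fin.castAdd s i).castSucc) (Fin.last (N + s)) :
          Fin (N + 1) → Fin (N + s + 1)) i) := by
    intro c g x i
    refine Fin.lastCases ?_ (fun i => ?_) i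
    · rw [Fin.snoc_last, Fin.snoc_last, Fin.snoc_last]
    · rw [Fin.snoc_castSucc, Fin.snoc_castSucc, Fin.snoc_castSucc, Fin.append_left]
  refine ⟨α, hF α ?_, spz_comp hs _ (key a _ α) (key b _ β),
    fun h => hr (relV_comp h _ (key a _ α) (key b _ β))⟩
  have hle : Algebra.adjoin K (Set.range fun i => (Fin.append a fun i => aeval a (f i) :
      Fin (N + s) → L) (Fin.natAdd N i)) ≤ F.toSubalgebra := by
    refine Algebra.adjoin_le ?_
    rintro _ ⟨i, rfl⟩
    simp only [Fin.append_right]
    change aeval a (f i) ∈ F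
    rw [aeval_def, eval₂_eq']
    refine sum_mem fun m hm => mul_mem (F.algebraMap_mem _) (prod_mem fun j _ => ?_)
    by_cases h0 : m j = 0
    · rw [h0, pow_zero]
      exact one_mem _
    · exact pow_mem (hPF j (hfv i j ((mem_vars_iff_mem_support j).2
        ⟨m, hm, Finsupp.mem_support_iff.2 h0⟩))) _
  exact hα.tower_top_of_subalgebra_le hle

end Pool.Agent.FNS
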