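import Pool.Agent.FNS.Sp
import Pool.Agent.FNS.SStepC

/-! # One step: a zero of a polynomial with few terms in the entries -/

set_option autoImplicit false

namespace Pool.Agent.FNS

open MvPolynomial Pool.Agent.FN Pool.Agent.FNX Pool.Agent.FNR

/-- one step: a zero of a polynomial with at most `s` terms in the entries and `Z` -/
theorem sstep (K L : Type) [Field K] [CharZero K] [Field L] [IsAlgClosed L] [Algebra K L]
    (s N D : ℕ) : ∃ E : ℕ, ∀ δ : Derivation K L L, CK δ → ∀ a b : Fin N → L, Spz δ a b →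
      ¬ RelV δ E a b → ∀ F : IntermediateField K L, (∀ x : L, IsAlgebraic F x → x ∈ F) →
        ∀ P : MvPolynomial (Fin (N + 1)) K, P.support.card ≤ s →
          (∀ i : Fin N, i.castSucc ∈ P.vars → a i ∈ F) → ∀ β : L,
            aeval (Fin.snoc b β : Fin (N + 1) → L) P = 0 →
            (∃ y : L, aeval (Fin.snoc b y : Fin (N + 1) → L) P ≠ 0) →
              ∃ α ∈ F, Spz δ (Fin.snoc a α : Fin (N + 1) → L) (Fin.snoc b β) ∧
                ¬ RelV δ D (Fin.snoc a α : Fin (N + 1) → L) (Fin.snoc b β) :=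
  sstep_of K L s N D (sp K L s (N + s) D)

end Pool.Agent.FNS
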