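import Pool.Agent.FNS.MainC
import Pool.Agent.FNS.MultiS

/-! # Chains and the density theorem -/

set_option autoImplicit false

namespace Pool.Agent.FNS

open MvPolynomial Pool.Agent.FN Pool.Agent.FNX Pool.Agent.FNR

/-- as `FNR.keyR` -/
theorem keyS (k l s : ℕ) : ∃ E r : ℕ, ∀ x : Fin k → ℂ,
    ∃ δ : Derivation KA ℂ ℂ, CK δ ∧ ∃ Ψ : MvPolynomial (Fin l × ℕ) ℂ, Ψ ≠ 0 ∧
      Ψ.totalDegree ≤ E ∧ (∀ v ∈ Ψ.vars, v.2 < r) ∧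
        ∀ y : Fin l → ℂ, DepS s x y → eval (jet δ y) Ψ = 0 :=
  keyS_of k l s fun N => multiS KA ℂ s (N + N) (k + l) 2

/-- as `FNR.no_dep` -/
theorem no_depS (k l s : ℕ) : ∃ C : ℕ, ∀ (x : Fin k → ℂ) (t : Fin l → ℂ) (X : ℕ), 16 ≤ X →
    ∀ N : Fin l → ℕ, (∀ i, X ≤ N i) →
      ({a : Fin l → ℕ | (∀ i, 1 ≤ a i ∧ a i ≤ N i) ∧
        DepS s x fun i => t i + ((Real.log (a i : ℝ) : ℝ) : ℂ)}.ncard : ℝ) ≤
          C * Real.log (Real.log X) ^ C / Real.log X * ∏ i, (N i : ℝ) := by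
  obtain ⟨E, r, hk⟩ := keyS k l s
  obtain ⟨C, hC⟩ := dens E r l
  exact ⟨C, fun x t X hX N hN => hC (DepS s x) (hk x) t X hX N hN⟩

end Pool.Agent.FNS
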