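import Pool.Agent.FNS.Entry
import Pool.Agent.FNR.Form

/-! # Laurent monomials in the entries as new entries -/

namespace Pool.Agent.FNS

open MvPolynomial Pool.Agent.FN Pool.Agent.FNX Pool.Agent.FNR

/-- several steps, each from the entries at the beginning -/
theorem app_steps (E : ℕ → ℕ → ℕ) (N M : ℕ) : ∀ D : ℕ, ∃ D' : ℕ, ∀ {K L : Type} [Field K]
    [Field L] [Algebra K L] (δ : Derivation K L L) (a b : Fin N → L), Spz δ a b →
      ∀ v w : Fin M → L, (∀ (j : Fin M) (k : ℕ) (v' w' : Fin k → L),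
        Spz δ (Fin.append a v') (Fin.append b w') →
          Stp δ (E (N + k)) (Fin.append a v') (Fin.append b w') (v j) (w j)) →
      Spz δ (Fin.append a v) (Fin.append b w) ∧
        (RelV δ D (Fin.append a v) (Fin.append b w) → RelV δ D' a b) := by
  induction M with
  | zero =>
    intro D
    refine ⟨D, ?_⟩
    intro K L _ _ _ δ a b hab v w _
    refine ⟨spz_comp hab (fun i : Fin (N + 0) => (i : Fin N)) (fun i => ?_) (fun i => ?_),
      fun h => relV_comp h (fun i : Fin (N + 0) => (i : Fin N)) (fun i => ?_) (fun i => ?_)⟩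
    · exact Fin.append_left a v (i : Fin N)
    · exact Fin.append_left b w (i : Fin N)
    · exact Fin.append_left a v (i : Fin N)
    · exact Fin.append_left b w (i : Fin N)
  | succ M ih =>
    intro D
    obtain ⟨D', hD'⟩ := ih (E (N + M) D)
    refine ⟨D', ?_⟩
    intro K L _ _ _ δ a b hab v w h
    obtain ⟨h1, h2⟩ := hD' δ a b hab (Fin.init v) (Fin.init w)
      fun j k v' w' hs => h j.castSucc k v' w' hs
    have h3 := h (Fin.last M) M (Fin.init v) (Fin.init w) h1
    have hv : Fin.append a v = Fin.snoc (Fin.append a (Fin.init v)) (v (Fin.last M)) := by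
      rw [← Fin.append_snoc, Fin.snoc_init_self]
    have hw : Fin.append b w = Fin.snoc (Fin.append b (Fin.init w)) (w (Fin.last M)) := by
      rw [← Fin.append_snoc, Fin.snoc_init_self]
    rw [hv, hw]
    exact ⟨h3.1, fun hr => h2 (h3.2 D hr)⟩

/-- inverses of entries -/
theorem inv_entries (N r D : ℕ) : ∃ D' : ℕ, ∀ {K L : Type} [Field K] [CharZero K] [Field L]
    [IsAlgClosed L] [Algebra K L] (δ : Derivation K L L), CK δ → ∀ a b : Fin N → L, Spz δ a b →
      ∀ u : Fin r → Fin N, (∀ k, b (u k) ≠ 0) →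
        Spz δ (Fin.append a fun k => (a (u k))⁻¹) (Fin.append b fun k => (b (u k))⁻¹) ∧
          (RelV δ D (Fin.append a fun k => (a (u k))⁻¹) (Fin.append b fun k => (b (u k))⁻¹) →
            RelV δ D' a b) := by
  choose E hE using fun N => exists_stp 0 N
  obtain ⟨D', hD'⟩ := app_steps E N r D
  refine ⟨D', ?_⟩
  intro K L _ _ _ _ _ δ hδ a b hab u hu
  refine hD' δ a b hab _ _ fun j k v' w' hs => ?_
  have h1 := (hE (N + k) δ hδ _ _ hs).2.1 (Fin.castAdd k (u j))
    (by rw [Fin.append_left]; exact hu j)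
  rw [Fin.append_left, Fin.append_left] at h1
  exact h1

/-- values of polynomials with few terms -/
theorem poly_entries (s N M D : ℕ) : ∃ D' : ℕ, ∀ {K L : Type} [Field K] [CharZero K] [Field L]
    [Algebra K L] (δ : Derivation K L L), CK δ → ∀ a b : Fin N → L, Spz δ a b →
      ∀ f : Fin M → MvPolynomial (Fin N) K, (∀ j, (f j).support.card ≤ s) →
        Spz δ (Fin.append a fun j => aeval a (f j)) (Fin.append b fun j => aeval b (f j)) ∧
          (RelV δ D (Fin.append a fun j => aeval a (f j)) (Fin.append b fun j => aeval b (f j)) →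
            RelV δ D' a b) := by
  classical
  choose E hE using fun N D => entry s N D
  obtain ⟨D', hD'⟩ := app_steps E N M D
  refine ⟨D', ?_⟩
  intro K L _ _ _ _ δ hδ a b hab f hf
  refine hD' δ a b hab _ _ fun j k v' w' hs => ?_
  have hval : ∀ (y : Fin N → L) (z : Fin k → L),
      aeval (Fin.append y z) (rename (Fin.castAdd k) (f j)) = aeval y (f j) := by
    intro y z
    rw [aeval_rename]
    congr 1
    congr 1
    funext i
    exact Fin.append_left y z i
  have hcard : (rename (Fin.castAdd k) (f j)).support.card ≤ s := by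
    rw [support_rename_of_injective (Fin.castAdd_injective N k)]
    exact Finset.card_image_le.trans (hf j)
  refine ⟨?_, fun D1 h => ?_⟩
  · have h1 := spz_poly hs (rename (Fin.castAdd k) (f j))
    rw [hval, hval] at h1
    exact h1
  · refine hE (N + k) D1 δ hδ _ _ hs (rename (Fin.castAdd k) (f j)) hcard ?_
    rw [hval, hval]
    exact h

/-- a polynomial with one term -/
def IsMono {K : Type} [Field K] {N : ℕ} (f : MvPolynomial (Fin N) K) : Prop :=
  ∃ (e : Fin N →₀ ℕ) (c : K), f = monomial e c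

theorem IsMono.mul {K : Type} [Field K] {N : ℕ} {f g : MvPolynomial (Fin N) K} (hf : IsMono f)
    (hg : IsMono g) : IsMono (f * g) := by
  obtain ⟨e, c, rfl⟩ := hf
  obtain ⟨e', c', rfl⟩ := hg
  exact ⟨e + e', c * c', monomial_mul⟩

theorem IsMono.one {K : Type} [Field K] {N : ℕ} : IsMono (1 : MvPolynomial (Fin N) K) :=
  ⟨0, 1, rfl⟩

theorem IsMono.X_pow {K : Type} [Field K] {N : ℕ} (i : Fin N) (n : ℕ) :
    IsMono (X i ^ n : MvPolynomial (Fin N) K) :=
  ⟨Finsupp.single i n, 1, X_pow_eq_monomial⟩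

theorem IsMono.prod {K : Type} [Field K] {N : ℕ} {ι : Type} (s : Finset ι)
    (f : ι → MvPolynomial (Fin N) K) (h : ∀ i ∈ s, IsMono (f i)) : IsMono (∏ i ∈ s, f i) := by
  classical
  induction s using Finset.induction_on with
  | empty => rw [Finset.prod_empty]; exact IsMono.one
  | insert a s ha ih =>
    rw [Finset.prod_insert ha]
    exact (h a (Finset.mem_insert_self a s)).mul (ih fun i hi => h i (Finset.mem_insert_of_mem hi))

theorem IsMono.card {K : Type} [Field K] {N : ℕ} {f : MvPolynomial (Fin N) K} (h : IsMono f) :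
    f.support.card ≤ 1 := by
  classical
  obtain ⟨e, c, rfl⟩ := h
  exact (Finset.card_le_card support_monomial_subset).trans (by rw [Finset.card_singleton])

/-- Laurent monomials in the entries, as the new tuple -/
theorem mono_entries (N r M D : ℕ) : ∃ D' : ℕ, ∀ {K L : Type} [Field K] [CharZero K] [Field L]
    [IsAlgClosed L] [Algebra K L] (δ : Derivation K L L), CK δ → ∀ a b : Fin N → L, Spz δ a b →
      ∀ u : Fin r → Fin N, (∀ k, b (u k) ≠ 0) → ∀ (c : Fin M → Fin N) (n : Fin M → Fin r → ℤ),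
        Spz δ (fun j => a (c j) * ∏ k, a (u k) ^ n j k) (fun j => b (c j) * ∏ k, b (u k) ^ n j k) ∧
          (RelV δ D (fun j => a (c j) * ∏ k, a (u k) ^ n j k)
            (fun j => b (c j) * ∏ k, b (u k) ^ n j k) → RelV δ D' a b) := by
  classical
  obtain ⟨D1, h1⟩ := poly_entries 1 (N + r) M D
  obtain ⟨D2, h2⟩ := inv_entries N r D1
  refine ⟨D2, ?_⟩
  intro K L _ _ _ _ _ δ hδ a b hab u hu c n
  obtain ⟨f, hf⟩ : ∃ f : Fin M → MvPolynomial (Fin (N + r)) K, f = fun j =>
    X (Fin.castAdd r (c j)) ^ 1 * ∏ k, (X (Fin.castAdd r (u k)) ^ (n j k).toNat *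
      X (Fin.natAdd N k) ^ (-(n j k)).toNat) := ⟨_, rfl⟩
  have hmono : ∀ j, (f j).support.card ≤ 1 := by
    intro j
    rw [hf]
    exact ((IsMono.X_pow _ _).mul (IsMono.prod _ _ fun k _ =>
      (IsMono.X_pow _ _).mul (IsMono.X_pow _ _))).card
  have hval : ∀ y : Fin N → L, (∀ k, y (u k) ≠ 0) → ∀ j,
      aeval (Fin.append y fun k => (y (u k))⁻¹) (f j) = y (c j) * ∏ k, y (u k) ^ n j k := by
    intro y hy j
    rw [hf]
    simp only
    rw [map_mul, map_pow, aeval_X, pow_one, Fin.append_left, map_prod]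
    congr 1
    refine Finset.prod_congr rfl fun k _ => ?_
    rw [map_mul, map_pow, map_pow, aeval_X, aeval_X, Fin.append_left, Fin.append_right]
    rcases le_total 0 (n j k) with h | h
    · obtain ⟨m, hm⟩ := Int.eq_ofNat_of_zero_le h
      rw [hm]
      simp
    · obtain ⟨m, hm⟩ := Int.eq_ofNat_of_zero_le (neg_nonneg.2 h)
      have hm' : n j k = -(m : ℤ) := by rw [← hm, neg_neg]
      rw [hm']
      simp
  have ha : ∀ k, a (u k) ≠ 0 := fun k => spz_ne hab (hu k)
  obtain ⟨h3, h4⟩ := h2 δ hδ a b hab u hu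
  obtain ⟨h5, h6⟩ := h1 δ hδ _ _ h3 f hmono
  have key : ∀ y : Fin N → L, (∀ k, y (u k) ≠ 0) → ∀ j,
      (fun j => y (c j) * ∏ k, y (u k) ^ n j k) j = (Fin.append (Fin.append y fun k =>
        (y (u k))⁻¹) fun j => aeval (Fin.append y fun k => (y (u k))⁻¹) (f j))
          (Fin.natAdd (N + r) j) := by
    intro y hy j
    rw [Fin.append_right, hval y hy]
  exact ⟨spz_comp h5 (fun j => Fin.natAdd (N + r) j) (key a ha) (key b hu),
    fun h => h4 (h6 (relV_comp h (fun j => Fin.natAdd (N + r) j) (key a ha) (key b hu)))⟩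

end Pool.Agent.FNS
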