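import Pool.Agent.FNR.Multi
import Pool.Agent.FNS.Chn

/-! # Chains of zeros of polynomials with few terms -/

set_option autoImplicit false

namespace Pool.Agent.FNS

open MvPolynomial Pool.Agent.FN Pool.Agent.FNX Pool.Agent.FNR

theorem aeval_rename_of_vars {K L σ τ : Type} [Field K] [Field L] [Algebra K L]
    (P : MvPolynomial σ K) (f : σ → τ) (c : τ → L) (c' : σ → L)
    (h : ∀ i ∈ P.vars, c (f i) = c' i) : aeval c (rename f P) = aeval c' P := by
  rw [aeval_rename]
  exact eval₂Hom_congr' rfl (fun i hi _ => h i hi) rfl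

theorem card_support_rename_le {K σ τ : Type} [Field K] (P : MvPolynomial σ K) (f : σ → τ) :
    (rename f P).support.card ≤ P.support.card := by
  classical
  exact (Finset.card_le_card Finsupp.mapDomain_support).trans Finset.card_image_le

theorem chain1_of (K L : Type) [Field K] [CharZero K] [Field L] [IsAlgClosed L] [Algebra K L]
    (s : ℕ)
    (hstep : ∀ N D : ℕ, ∃ E : ℕ, ∀ δ : Derivation K L L, CK δ → ∀ a b : Fin N → L, Spz δ a b →
      ¬ RelV δ E a b → ∀ F : IntermediateField K L, (∀ x : L, IsAlgebraic F x → x ∈ F) →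
        ∀ P : MvPolynomial (Fin (N + 1)) K, P.support.card ≤ s →
          (∀ i : Fin N, i.castSucc ∈ P.vars → a i ∈ F) → ∀ β : L,
            aeval (Fin.snoc b β : Fin (N + 1) → L) P = 0 →
            (∃ y : L, aeval (Fin.snoc b y : Fin (N + 1) → L) P ≠ 0) →
              ∃ α ∈ F, Spz δ (Fin.snoc a α : Fin (N + 1) → L) (Fin.snoc b β) ∧
                ¬ RelV δ D (Fin.snoc a α : Fin (N + 1) → L) (Fin.snoc b β)) (r : ℕ) :
    ∀ N D : ℕ, ∃ E : ℕ, ∀ δ : Derivation K L L, CK δ → ∀ a b : Fin N → L, Spz δ a b →
      ¬ RelV δ E a b → ∀ F : IntermediateField K L, (∀ x : L, IsAlgebraic F x → x ∈ F) →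
        ∀ (S : Set L) (z : Fin s → L), Chn K s S z → (∀ w ∈ S, ∃ k, b k = w ∧ a k ∈ F) →
          (∀ j : Fin s, (j : ℕ) + r < s → ∃ k, b k = z j ∧ a k ∈ F) →
            ∃ V : Fin s → L, (∀ j, V j ∈ F) ∧
              Spz δ (Fin.append a V : Fin (N + s) → L) (Fin.append b z) ∧
                ¬ RelV δ D (Fin.append a V : Fin (N + s) → L) (Fin.append b z) := by
  classical
  induction r with
  | zero =>
    intro N D
    refine ⟨D, fun δ _ a b hab hr F _ S z _ _ hk => ?_⟩
    choose k hkb hka using fun j : Fin s => hk j (by simp)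
    let f : Fin (N + s) → Fin N := Fin.append (fun i => i) k
    have hfa : ∀ i, (Fin.append a (fun j => a (k j)) : Fin (N + s) → L) i = a (f i) := by
      intro i
      refine Fin.addCases (fun i => ?_) (fun i => ?_) i
      · simp only [f, Fin.append_left]
      · simp only [f, Fin.append_right]
    have hfb : ∀ i, (Fin.append b z : Fin (N + s) → L) i = b (f i) := by
      intro i
      refine Fin.addCases (fun i => ?_) (fun i => ?_) i
      · simp only [f, Fin.append_left]
      · simp only [f, Fin.append_right]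
        exact (hkb i).symm
    exact ⟨fun j => a (k j), hka, spz_comp hab f hfa hfb, fun h => hr (relV_comp h f hfa hfb)⟩
  | succ r ih =>
    intro N D
    obtain ⟨E1, h1⟩ := ih N D
    obtain ⟨E2, h2⟩ := ih (N + 1) D
    obtain ⟨E3, h3⟩ := hstep N E2
    refine ⟨max E1 E3, fun δ hδ a b hab hr F hF S z hz hS hk => ?_⟩
    have hr1 : ¬ RelV δ E1 a b := fun h => hr (h.mono (le_max_left _ _))
    have hr3 : ¬ RelV δ E3 a b := fun h => hr (h.mono (le_max_right _ _))
    by_cases hrs : r < s
    · have hm : s - 1 - r < s := by omega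
      rcases hz ⟨s - 1 - r, hm⟩ with h0 | ⟨P, hP1, hP2, hP3, y, hP4⟩
      · refine h1 δ hδ a b hab hr1 F hF S z hz hS fun j hj => ?_
        by_cases hj' : (j : ℕ) + (r + 1) < s
        · exact hk j hj'
        · have hj0 : j = ⟨s - 1 - r, hm⟩ := Fin.ext (by simp only; omega)
          rw [hj0]
          exact hS _ h0
      · choose k hkb hka using fun j : {j : Fin s // (j : ℕ) + (r + 1) < s} => hk j.1 j.2
        let f : Fin s → Fin (N + 1) := fun j =>
          if h : (j : ℕ) + (r + 1) < s then (k ⟨j, h⟩).castSucc else Fin.last N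
        have hf1 : ∀ (j : Fin s) (h : (j : ℕ) + (r + 1) < s), f j = (k ⟨j, h⟩).castSucc :=
          fun j h => dif_pos h
        have hf2 : ∀ (j : Fin s), ¬ (j : ℕ) + (r + 1) < s → f j = Fin.last N :=
          fun j h => dif_neg h
        have hval : ∀ x : L, ∀ j ∈ P.vars, (Fin.snoc b x : Fin (N + 1) → L) (f j) =
            Function.update z ⟨s - 1 - r, hm⟩ x j := by
          intro x j hj
          have hle := hP2 j hj
          by_cases h : (j : ℕ) + (r + 1) < s
          · have hne : j ≠ ⟨s - 1 - r, hm⟩ := fun h' => by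
              rw [h'] at h
              simp only at h
              omega
            rw [hf1 j h, Fin.snoc_castSucc, Function.update_of_ne hne]
            exact hkb ⟨j, h⟩
          · have hj0 : j = ⟨s - 1 - r, hm⟩ := by
              apply Fin.ext
              have h' : (j : ℕ) ≤ s - 1 - r := hle
              simp only
              omega
            rw [hf2 j h, Fin.snoc_last, hj0, Function.update_self]
        obtain ⟨α, hα, hs1, hs2⟩ := h3 δ hδ a b hab hr3 F hF (rename f P)
          ((card_support_rename_le P f).trans hP1) (by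
            intro i hi
            obtain ⟨j, _, hji⟩ := Finset.mem_image.1 (vars_rename f P hi)
            by_cases h : (j : ℕ) + (r + 1) < s
            · rw [hf1 j h] at hji
              rw [← Fin.castSucc_injective _ hji]
              exact hka ⟨j, h⟩
            · rw [hf2 j h] at hji
              exact absurd hji.symm (Fin.castSucc_lt_last i).ne)
          (z ⟨s - 1 - r, hm⟩)
          (by
            rw [aeval_rename_of_vars P f _ z fun j hj => ?_]
            · exact hP3
            · rw [hval _ j hj, Function.update_eq_self])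
          ⟨y, by
            rw [aeval_rename_of_vars P f _ _ fun j hj => hval y j hj]
            exact hP4⟩
        obtain ⟨V, hV, hV1, hV2⟩ := h2 δ hδ _ _ hs1 hs2 F hF S z hz
          (fun w hw => by
            obtain ⟨k0, hk0, hk1⟩ := hS w hw
            exact ⟨k0.castSucc, by rw [Fin.snoc_castSucc]; exact hk0,
              by rw [Fin.snoc_castSucc]; exact hk1⟩)
          (fun j hj => by
            by_cases h : (j : ℕ) + (r + 1) < s
            · exact ⟨(k ⟨j, h⟩).castSucc, by rw [Fin.snoc_castSucc]; exact hkb ⟨j, h⟩,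
                by rw [Fin.snoc_castSucc]; exact hka ⟨j, h⟩⟩
            · have hj0 : j = ⟨s - 1 - r, hm⟩ := Fin.ext (by simp only; omega)
              exact ⟨Fin.last N, by rw [Fin.snoc_last, hj0], by rw [Fin.snoc_last]; exact hα⟩)
        let g : Fin (N + s) → Fin (N + 1 + s) :=
          Fin.append (fun i => Fin.castAdd s i.castSucc) (fun i => Fin.natAdd (N + 1) i)
        have hga : ∀ i, (Fin.append a V : Fin (N + s) → L) i =
            (Fin.append (Fin.snoc a α : Fin (N + 1) → L) V : Fin (N + 1 + s) → L) (g i) := by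
          intro i
          refine Fin.addCases (fun i => ?_) (fun i => ?_) i
          · simp only [g, Fin.append_left, Fin.snoc_castSucc]
          · simp only [g, Fin.append_right]
        have hgb : ∀ i, (Fin.append b z : Fin (N + s) → L) i =
            (Fin.append (Fin.snoc b (z ⟨s - 1 - r, hm⟩) : Fin (N + 1) → L) z :
              Fin (N + 1 + s) → L) (g i) := by
          intro i
          refine Fin.addCases (fun i => ?_) (fun i => ?_) i
          · simp only [g, Fin.append_left, Fin.snoc_castSucc]
          · simp only [g, Fin.append_right]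
        exact ⟨V, hV, spz_comp hV1 g hga hgb, fun h => hV2 (relV_comp h g hga hgb)⟩
    · exact h1 δ hδ a b hab hr1 F hF S z hz hS fun j hj => by omega

theorem multiS_of (K L : Type) [Field K] [CharZero K] [Field L] [IsAlgClosed L] [Algebra K L]
    (s : ℕ)
    (hstep : ∀ N D : ℕ, ∃ E : ℕ, ∀ δ : Derivation K L L, CK δ → ∀ a b : Fin N → L, Spz δ a b →
      ¬ RelV δ E a b → ∀ F : IntermediateField K L, (∀ x : L, IsAlgebraic F x → x ∈ F) →
        ∀ P : MvPolynomial (Fin (N + 1)) K, P.support.card ≤ s →
          (∀ i : Fin N, i.castSucc ∈ P.vars → a i ∈ F) → ∀ β : L,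
            aeval (Fin.snoc b β : Fin (N + 1) → L) P = 0 →
            (∃ y : L, aeval (Fin.snoc b y : Fin (N + 1) → L) P ≠ 0) →
              ∃ α ∈ F, Spz δ (Fin.snoc a α : Fin (N + 1) → L) (Fin.snoc b β) ∧
                ¬ RelV δ D (Fin.snoc a α : Fin (N + 1) → L) (Fin.snoc b β)) (M : ℕ) :
    ∀ n D : ℕ, ∃ E : ℕ, ∀ δ : Derivation K L L, CK δ → ∀ p q : Fin n → L, Spz δ p q →
      ¬ RelV δ E p q → ∀ (T : Fin M → Set (Fin n)) (z : Fin M → Fin s → L),
        (∀ t, Chn K s (q '' T t) (z t)) → ∀ i : Fin M → Fin s,
          ∃ V : Fin M → L, (∀ t, V t ∈ acl K (p '' T t)) ∧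
            Spz δ (Fin.append p V : Fin (n + M) → L) (Fin.append q fun t => z t (i t)) ∧
              ¬ RelV δ D (Fin.append p V : Fin (n + M) → L)
                (Fin.append q fun t => z t (i t)) := by
  classical
  induction M with
  | zero =>
    intro n D
    refine ⟨D, fun δ _ p q hpq hr T z _ i => ⟨Fin.elim0, fun t => t.elim0, ?_, ?_⟩⟩
    · refine spz_comp hpq (fun j : Fin (n + 0) => j) (fun j => ?_) (fun j => ?_)
      · rw [Fin.append_right_nil _ _ rfl]
        rfl
      · rw [Fin.append_right_nil _ _ rfl]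
        rfl
    · intro h
      refine hr (relV_comp h (fun j : Fin (n + 0) => j) (fun j => ?_) (fun j => ?_))
      · rw [Fin.append_right_nil _ _ rfl]
        rfl
      · rw [Fin.append_right_nil _ _ rfl]
        rfl
  | succ M ih =>
    intro n D
    obtain ⟨E1, h1⟩ := ih (n + 1) D
    obtain ⟨E2, h2⟩ := chain1_of K L s hstep s n E1
    refine ⟨E2, fun δ hδ p q hpq hr T z hz i => ?_⟩
    obtain ⟨W, hW, hW1, hW2⟩ := h2 δ hδ p q hpq hr (aclF K (p '' T 0))
      (fun x hx => aclF_closed hx) (q '' T 0) (z 0) (hz 0)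
      (by
        rintro _ ⟨k, hk, rfl⟩
        exact ⟨k, rfl, mem_aclF.2 (subset_acl _ ⟨k, hk, rfl⟩)⟩)
      (fun j hj => by omega)
    -- the entry of the first chain
    let g : Fin (n + 1) → Fin (n + s) :=
      Fin.snoc (fun j => Fin.castAdd s j) (Fin.natAdd n (i 0))
    have hga : ∀ j, (Fin.snoc p (W (i 0)) : Fin (n + 1) → L) j =
        (Fin.append p W : Fin (n + s) → L) (g j) := by
      intro j
      refine Fin.lastCases ?_ (fun j => ?_) j
      · simp only [g, Fin.snoc_last, Fin.append_right]
      · simp only [g, Fin.snoc_castSucc, Fin.append_left]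
    have hgb : ∀ j, (Fin.snoc q (z 0 (i 0)) : Fin (n + 1) → L) j =
        (Fin.append q (z 0) : Fin (n + s) → L) (g j) := by
      intro j
      refine Fin.lastCases ?_ (fun j => ?_) j
      · simp only [g, Fin.snoc_last, Fin.append_right]
      · simp only [g, Fin.snoc_castSucc, Fin.append_left]
    have hs := spz_comp hW1 g hga hgb
    have hr' : ¬ RelV δ E1 (Fin.snoc p (W (i 0)) : Fin (n + 1) → L) (Fin.snoc q (z 0 (i 0))) :=
      fun h => hW2 (relV_comp h g hga hgb)
    have himg : ∀ (c : Fin n → L) (x : L) (U : Set (Fin n)),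
        (Fin.snoc c x : Fin (n + 1) → L) '' (Fin.castSucc '' U) = c '' U := by
      intro c x U
      rw [Set.image_image]
      exact Set.image_congr fun j _ => Fin.snoc_castSucc (α := fun _ => L) x c j
    obtain ⟨V, hV, hV1, hV2⟩ := h1 δ hδ _ _ hs hr' (fun t => Fin.castSucc '' T t.succ)
      (fun t => z t.succ) (fun t => by rw [himg]; exact hz t.succ) (fun t => i t.succ)
    let e : Fin (n + (M + 1)) → Fin (n + 1 + M) :=
      Fin.append (fun j => Fin.castAdd M j.castSucc)
        (Fin.cons (Fin.castAdd M (Fin.last n)) fun t => Fin.natAdd (n + 1) t)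
    have hea : ∀ j, (Fin.append p (Fin.cons (W (i 0)) V : Fin (M + 1) → L) :
        Fin (n + (M + 1)) → L) j =
        (Fin.append (Fin.snoc p (W (i 0)) : Fin (n + 1) → L) V : Fin (n + 1 + M) → L) (e j) := by
      intro j
      refine Fin.addCases (fun j => ?_) (fun j => ?_) j
      · simp only [e, Fin.append_left, Fin.snoc_castSucc]
      · refine Fin.cases ?_ (fun t => ?_) j
        · simp only [e, Fin.append_right, Fin.cons_zero, Fin.append_left, Fin.snoc_last]
        · simp only [e, Fin.append_right, Fin.cons_succ]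
    have heb : ∀ j, (Fin.append q (fun t => z t (i t)) : Fin (n + (M + 1)) → L) j =
        (Fin.append (Fin.snoc q (z 0 (i 0)) : Fin (n + 1) → L) (fun t => z t.succ (i t.succ)) :
          Fin (n + 1 + M) → L) (e j) := by
      intro j
      refine Fin.addCases (fun j => ?_) (fun j => ?_) j
      · simp only [e, Fin.append_left, Fin.snoc_castSucc]
      · refine Fin.cases ?_ (fun t => ?_) j
        · simp only [e, Fin.append_right, Fin.cons_zero, Fin.append_left, Fin.snoc_last]
        · simp only [e, Fin.append_right, Fin.cons_succ]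
    refine ⟨Fin.cons (W (i 0)) V, fun t => ?_, spz_comp hV1 e hea heb,
      fun h => hV2 (relV_comp h e hea heb)⟩
    refine Fin.cases ?_ (fun t => ?_) t
    · rw [Fin.cons_zero]
      exact mem_aclF.1 (hW (i 0))
    · rw [Fin.cons_succ]
      have h4 := hV t
      rw [himg] at h4
      exact h4

end Pool.Agent.FNS
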