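import Pool.Agent.FNS.SpA
import Pool.Agent.FNS.CaseG

/-! # The sparse step -/

namespace Pool.Agent.FNS

open MvPolynomial Pool.Agent.FN Pool.Agent.FNX Pool.Agent.FNR

/-- a zero of a polynomial with `s` terms, coefficients are entries: from `case_r`, `case_g`,
`FNA.lift` and the `θ` trick (section 0 of the page) -/
theorem sp (K L : Type) [Field K] [CharZero K] [Field L] [IsAlgClosed L] [Algebra K L]
    (s N D : ℕ) : ∃ E : ℕ, ∀ δ : Derivation K L L, CK δ → ∀ a b : Fin N → L, Spz δ a b →
      ¬ RelV δ E a b → ∀ (c : Fin s → Fin N) (n : Fin s → ℕ), Function.Injective n →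
        (∃ i, b (c i) ≠ 0) → ∀ β : L, ∑ i, b (c i) * β ^ n i = 0 →
          ∃ α : L, IsAlgebraic (Algebra.adjoin K (Set.range fun i => a (c i))) α ∧
            Spz δ (Fin.snoc a α : Fin (N + 1) → L) (Fin.snoc b β) ∧
              ¬ RelV δ D (Fin.snoc a α : Fin (N + 1) → L) (Fin.snoc b β) :=
  sp_of K L s N D fun c => case_g K L s N D c

end Pool.Agent.FNS
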