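import Pool.Agent.FNX.Defs

/-! # Reduction of a sparse equation to one with a nonvanishing logarithmic derivative -/

namespace Pool.Agent.FNS

/-- `theta = Z d/dZ` is applied until the next value is not zero -/
theorem theta_red {K L : Type} [Field K] [Field L] [CharZero L] [Algebra K L] {s : ℕ}
    (x : Fin s → L) (n : Fin s → ℕ) (hn : Function.Injective n) (hx : ∃ i, x i ≠ 0) (β : L)
    (hβ : β ≠ 0) (h : ∑ i, x i * β ^ n i = 0) :
    ∃ κ : Fin s → K, ∑ i, algebraMap K L (κ i) * x i * β ^ n i = 0 ∧
      ∑ i, algebraMap K L (κ i) * (n i : L) * x i * β ^ n i ≠ 0 := by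
  classical
  by_contra hcon
  push Not at hcon
  -- all the moments vanish
  have hall : ∀ j : ℕ, ∑ i, (n i : L) ^ j * (x i * β ^ n i) = 0 := by
    intro j
    induction j with
    | zero =>
      rw [← h]
      refine Finset.sum_congr rfl fun i _ => ?_
      rw [pow_zero, one_mul]
    | succ j ih =>
      have h1 := hcon (fun i => (n i : K) ^ j) (by
        rw [← ih]
        refine Finset.sum_congr rfl fun i _ => ?_
        rw [map_pow, map_natCast, mul_assoc])
      rw [← h1]
      refine Finset.sum_congr rfl fun i _ => ?_
      rw [map_pow, map_natCast, pow_succ]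
      ring
  have hinj : Function.Injective fun i : Fin s => (n i : L) := by
    intro i j hij
    exact hn (Nat.cast_injective hij)
  have h2 := Matrix.eq_zero_of_forall_pow_sum_mul_pow_eq_zero (f := fun i : Fin s => (n i : L))
    (v := fun i => x i * β ^ n i) hinj fun j => by
      rw [← hall j]
      exact Finset.sum_congr rfl fun i _ => mul_comm _ _
  obtain ⟨i, hi⟩ := hx
  have h3 := congrFun h2 i
  exact mul_ne_zero hi (pow_ne_zero _ hβ) h3

end Pool.Agent.FNS
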