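import Pool.Agent.FNS.CaseR
import Pool.Agent.FNS.Theta

/-! # A zero of a sparse polynomial whose coefficients are entries -/

namespace Pool.Agent.FNS

open MvPolynomial Pool.Agent.FN Pool.Agent.FNX Pool.Agent.FNR

/-- faithful for the entries themselves -/
theorem entry_zero {K L : Type} [Field K] [Field L] [Algebra K L] {δ : Derivation K L L}
    {N E : ℕ} {a b : Fin N → L} (hE : 1 ≤ E) (h : ¬ RelV δ E a b) {i : Fin N} (hb : b i = 0) :
    a i = 0 := by
  by_contra ha
  apply h
  refine RelV.mono hE ⟨X (i, 0), Bdd.X _ (Nat.zero_le _) le_rfl, ?_, ?_⟩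
  · rw [aeval_X]
    exact ha
  · rw [aeval_X]
    exact hb

/-- a zero of a sparse polynomial with coefficients in a ring is algebraic over it -/
theorem alg_sparse {K L : Type} [Field K] [Field L] [Algebra K L] {s : ℕ} (x : Fin s → L)
    (κ : Fin s → K) (n : Fin s → ℕ) (hn : Function.Injective n) (α : L)
    (h0 : ∃ i, algebraMap K L (κ i) * x i ≠ 0)
    (h : ∑ i, algebraMap K L (κ i) * x i * α ^ n i = 0) :
    IsAlgebraic (Algebra.adjoin K (Set.range x)) α := by
  classical
  have hmem : ∀ i, algebraMap K L (κ i) * x i ∈ Algebra.adjoin K (Set.range x) := fun i =>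
    Subalgebra.mul_mem _ (Subalgebra.algebraMap_mem _ _) (Algebra.subset_adjoin ⟨i, rfl⟩)
  refine ⟨∑ i, Polynomial.monomial (n i) ⟨algebraMap K L (κ i) * x i, hmem i⟩, ?_, ?_⟩
  · intro h1
    obtain ⟨i, hi⟩ := h0
    apply hi
    have h2 := congrArg (fun q => Polynomial.coeff q (n i)) h1
    simp only [Polynomial.finsetSum_coeff, Polynomial.coeff_monomial, Polynomial.coeff_zero] at h2
    rw [Finset.sum_eq_single i] at h2
    · rw [if_pos rfl] at h2
      exact congrArg Subtype.val h2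
    · intro j _ hj
      exact if_neg fun h3 => hj (hn h3)
    · intro h3
      exact absurd (Finset.mem_univ _) h3
  · rw [map_sum, ← h]
    refine Finset.sum_congr rfl fun i _ => ?_
    rw [Polynomial.aeval_monomial]
    rfl

/-- lifting a simple zero of a sparse polynomial -/
theorem lift_sparse {K L : Type} [Field K] [CharZero K] [Field L] [IsAlgClosed L] [Algebra K L]
    (δ : Derivation K L L) {s N E : ℕ} (a b : Fin N → L) (hab : Spz δ a b) (hE : 1 ≤ E)
    (hnr : ¬ RelV δ E a b) (c : Fin s → Fin N) (κ : Fin s → K) (n : Fin s → ℕ)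
    (hn : Function.Injective n) (β : L)
    (h1 : ∑ i, algebraMap K L (κ i) * b (c i) * β ^ n i = 0)
    (h2 : ∑ i, algebraMap K L (κ i) * (n i : L) * b (c i) * β ^ n i ≠ 0) :
    ∃ α : L, ∑ i, algebraMap K L (κ i) * a (c i) * α ^ n i = 0 ∧
      Spz δ (Fin.snoc a α : Fin (N + 1) → L) (Fin.snoc b β) := by
  classical
  obtain ⟨I, hI⟩ : ∃ I : Finset (Fin s),
    I = Finset.univ.filter fun i => algebraMap K L (κ i) * b (c i) ≠ 0 := ⟨_, rfl⟩
  have hmemI : ∀ i, i ∈ I ↔ algebraMap K L (κ i) * b (c i) ≠ 0 := by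
    intro i
    rw [hI, Finset.mem_filter]
    exact ⟨fun h => h.2, fun h => ⟨Finset.mem_univ _, h⟩⟩
  have hsumb : ∀ g : Fin s → L, ∑ i ∈ I, algebraMap K L (κ i) * b (c i) * g i =
      ∑ i, algebraMap K L (κ i) * b (c i) * g i := by
    intro g
    refine Finset.sum_subset (Finset.subset_univ _) fun i _ hi => ?_
    rw [hmemI, not_not] at hi
    rw [hi, zero_mul]
  have hsuma : ∀ g : Fin s → L, ∑ i ∈ I, algebraMap K L (κ i) * a (c i) * g i =
      ∑ i, algebraMap K L (κ i) * a (c i) * g i := by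
    intro g
    refine Finset.sum_subset (Finset.subset_univ _) fun i _ hi => ?_
    rw [hmemI, not_not] at hi
    rcases mul_eq_zero.1 hi with h | h
    · rw [h, zero_mul, zero_mul]
    · rw [entry_zero hE hnr h, mul_zero, zero_mul]
  -- there is a term
  have hne : I.Nonempty := by
    rw [Finset.nonempty_iff_ne_empty]
    intro h
    apply h2
    have h3 := hsumb fun i => (n i : L) * β ^ n i
    rw [h, Finset.sum_empty] at h3
    rw [h3]
    refine Finset.sum_congr rfl fun i _ => ?_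
    ring
  obtain ⟨P, hP⟩ : ∃ P : Polynomial (MvPolynomial (Fin N × ℕ) K),
    P = ∑ i ∈ I, Polynomial.monomial (n i) (C (κ i) * X (c i, 0)) := ⟨_, rfl⟩
  have hev : ∀ (y : Fin N → L) (t : L), Pool.Agent.FNA.ev δ y t P =
      ∑ i ∈ I, algebraMap K L (κ i) * y (c i) * t ^ n i := by
    intro y t
    rw [hP, map_sum]
    refine Finset.sum_congr rfl fun i _ => ?_
    rw [Pool.Agent.FNA.ev_monomial, map_mul, aeval_C, aeval_X]
    rfl
  have hcoef : ∀ i ∈ I, P.coeff (n i) = C (κ i) * X (c i, 0) := by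
    intro i hi
    rw [hP, Polynomial.finsetSum_coeff, Finset.sum_eq_single i]
    · rw [Polynomial.coeff_monomial, if_pos rfl]
    · intro j _ hj
      rw [Polynomial.coeff_monomial, if_neg fun h3 => hj (hn h3)]
    · intro h3
      exact absurd hi h3
  have hdeg : ∃ i ∈ I, P.leadingCoeff = C (κ i) * X (c i, 0) := by
    obtain ⟨i, hi, hmax⟩ := Finset.exists_max_image I n hne
    refine ⟨i, hi, ?_⟩
    have h3 : P.natDegree = n i := by
      apply le_antisymm
      · rw [hP]
        refine Polynomial.natDegree_sum_le_of_forall_le _ _ fun j hj => ?_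
        exact (Polynomial.natDegree_monomial_le _).trans (hmax j hj)
      · refine Polynomial.le_natDegree_of_ne_zero ?_
        rw [hcoef i hi]
        intro h4
        have h5 := congrArg (aeval (jet δ b)) h4
        rw [map_mul, aeval_C, aeval_X, map_zero] at h5
        exact (hmemI i).1 hi h5
    rw [Polynomial.leadingCoeff, h3, hcoef i hi]
  have hder : Pool.Agent.FNA.ev δ b β (Polynomial.derivative P) * β =
      ∑ i, algebraMap K L (κ i) * (n i : L) * b (c i) * β ^ n i := by
    have h3 := hsumb fun i => (n i : L) * β ^ n i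
    have h4 : ∑ i, algebraMap K L (κ i) * (n i : L) * b (c i) * β ^ n i =
        ∑ i, algebraMap K L (κ i) * b (c i) * ((n i : L) * β ^ n i) :=
      Finset.sum_congr rfl fun i _ => by ring
    rw [h4, ← h3, hP, Polynomial.derivative_sum, map_sum, Finset.sum_mul]
    refine Finset.sum_congr rfl fun i _ => ?_
    rw [Polynomial.derivative_monomial, Pool.Agent.FNA.ev_monomial, map_mul, map_mul, aeval_C,
      aeval_X, map_natCast]
    have h5 : jet δ b (c i, 0) = b (c i) := rfl
    rw [h5]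
    rcases Nat.eq_zero_or_pos (n i) with h0 | h0
    · rw [h0, Nat.cast_zero]
      ring
    · have h6 : β ^ n i = β ^ (n i - 1) * β := (pow_sub_one_mul h0.ne' β).symm
      rw [h6]
      ring
  obtain ⟨S, hS⟩ : ∃ S : ℕ, S = 1 + ∑ i, n i := ⟨_, rfl⟩
  have hPB : Pool.Agent.FNA.PB S P := by
    rw [hP]
    refine Pool.Agent.FNA.PB.sum _ _ fun i _ => ⟨?_, fun j => ?_⟩
    · refine (Polynomial.natDegree_monomial_le _).trans ?_
      rw [hS]
      exact (Finset.single_le_sum (f := n) (fun _ _ => Nat.zero_le _)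
        (Finset.mem_univ i)).trans (Nat.le_add_left _ _)
    · rw [Polynomial.coeff_monomial]
      split_ifs
      · have h3 : Bdd (0 + 1) (C (κ i) * X (c i, 0) : MvPolynomial (Fin N × ℕ) K) :=
          (Bdd.C (κ i)).mul (Bdd.X _ (Nat.zero_le _) le_rfl)
        exact h3.mono (by omega)
      · exact Bdd.zero
  obtain ⟨α, h3, h4⟩ := Pool.Agent.FNA.lift δ a b hab β P hPB (by
    obtain ⟨i, hi, hlc⟩ := hdeg
    rw [hlc, map_mul, aeval_C, aeval_X]
    exact (hmemI i).1 hi) (by rw [hev, hsumb]; exact h1) (by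
    intro h5
    rw [h5, zero_mul] at hder
    exact h2 hder.symm)
  refine ⟨α, ?_, h4⟩
  rw [hev, hsuma] at h3
  exact h3

/-- a zero of a polynomial with `s` terms, the generic case is a hypothesis -/
theorem sp_of (K L : Type) [Field K] [CharZero K] [Field L] [IsAlgClosed L] [Algebra K L]
    (s N D : ℕ)
    (hg : ∀ c : Fin s → Fin N, ∃ D1 E : ℕ, ∀ δ : Derivation K L L, CK δ →
      ∀ a b : Fin N → L, Spz δ a b → ¬ RelV δ E a b → ∀ (κ : Fin s → K) (n : Fin s → ℕ),
        Function.Injective n → ∀ α β : L, β ≠ 0 →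
          ∑ i, algebraMap K L (κ i) * b (c i) * β ^ n i = 0 →
          ∑ i, (n i : L) * (algebraMap K L (κ i) * b (c i) * β ^ n i) ≠ 0 →
          (∀ m : ℕ, m ≠ 0 → ¬ ∃ R : Fin (D1 + 1) → MvPolynomial (Fin N × ℕ) K,
            (∀ k, Bdd D1 (R k)) ∧ (∃ k, aeval (jet δ b) (R k) ≠ 0) ∧
              ∑ k, aeval (jet δ b) (R k) * (β ^ m) ^ (k : ℕ) = 0) →
          ∑ i, algebraMap K L (κ i) * a (c i) * α ^ n i = 0 →
          Spz δ (Fin.snoc a α : Fin (N + 1) → L) (Fin.snoc b β) →
            ¬ RelV δ D (Fin.snoc a α : Fin (N + 1) → L) (Fin.snoc b β)) :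
    ∃ E : ℕ, ∀ δ : Derivation K L L, CK δ → ∀ a b : Fin N → L, Spz δ a b →
      ¬ RelV δ E a b → ∀ (c : Fin s → Fin N) (n : Fin s → ℕ), Function.Injective n →
        (∃ i, b (c i) ≠ 0) → ∀ β : L, ∑ i, b (c i) * β ^ n i = 0 →
          ∃ α : L, IsAlgebraic (Algebra.adjoin K (Set.range fun i => a (c i))) α ∧
            Spz δ (Fin.snoc a α : Fin (N + 1) → L) (Fin.snoc b β) ∧
              ¬ RelV δ D (Fin.snoc a α : Fin (N + 1) → L) (Fin.snoc b β) := by
  classical
  choose D1 E1 h1 using hg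
  choose E2 h2 using fun c : Fin s → Fin N => case_r s N D (D1 c)
  obtain ⟨E3, h3⟩ := rel_polyV D 0 N
  refine ⟨max 1 (max E3 (∑ c, (E1 c + E2 c))), ?_⟩
  intro δ hδ a b hab hnr c n hn hc β hβ
  have hL : CharZero L := charZero_of_injective_algebraMap (algebraMap K L).injective
  have hle : E1 c + E2 c ≤ max 1 (max E3 (∑ c, (E1 c + E2 c))) :=
    (Finset.single_le_sum (f := fun c => E1 c + E2 c) (fun _ _ => Nat.zero_le _)
      (Finset.mem_univ c)).trans ((le_max_right _ _).trans (le_max_right _ _))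
  by_cases hβ0 : β = 0
  · refine ⟨0, isAlgebraic_zero, ?_, ?_⟩
    · have h := spz_poly hab (0 : MvPolynomial (Fin N) K)
      rw [map_zero, map_zero] at h
      rw [hβ0]
      exact h
    · intro h
      apply hnr
      refine RelV.mono ((le_max_left _ _).trans (le_max_right _ _)) (h3 δ a b 0 ?_ ?_)
      · rw [totalDegree_zero]
      · rw [map_zero, map_zero]
        rw [hβ0] at h
        exact h
  obtain ⟨κ, hκ1, hκ2⟩ := theta_red (K := K) (fun i => b (c i)) n hn hc β hβ0 hβ
  -- a nonzero coefficient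
  have hex : ∃ i, algebraMap K L (κ i) * a (c i) ≠ 0 := by
    by_contra hcon
    push Not at hcon
    apply hκ2
    refine Finset.sum_eq_zero fun i _ => ?_
    rcases mul_eq_zero.1 (hcon i) with h | h
    · rw [h]
      ring
    · have hb : b (c i) = 0 := by
        have h4 := hab (X (c i, 0)) (by rw [aeval_X]; exact h)
        rwa [aeval_X] at h4
      rw [hb]
      ring
  by_cases hR : ∃ m : ℕ, m ≠ 0 ∧ ∃ R : Fin (D1 c + 1) → MvPolynomial (Fin N × ℕ) K,
      (∀ k, Bdd (D1 c) (R k)) ∧ (∃ k, aeval (jet δ b) (R k) ≠ 0) ∧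
        ∑ k, aeval (jet δ b) (R k) * (β ^ m) ^ (k : ℕ) = 0
  · obtain ⟨m, hm, hR⟩ := hR
    obtain ⟨α, hα1, hα2, hα3⟩ := h2 c δ hδ a b hab
      (fun h => hnr (h.mono ((Nat.le_add_left _ _).trans hle))) c κ n β hβ0 hκ1 m hm hR
    exact ⟨α, alg_sparse (fun i => a (c i)) κ n hn α hex hα1, hα2, hα3⟩
  · obtain ⟨α, hα1, hα2⟩ := lift_sparse δ a b hab (le_max_left _ _) hnr c κ n hn β hκ1 hκ2
    refine ⟨α, alg_sparse (fun i => a (c i)) κ n hn α hex hα1, hα2, ?_⟩
    refine h1 c δ hδ a b hab (fun h => hnr (h.mono ((Nat.le_add_right _ _).trans hle))) κ n hn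
      α β hβ0 hκ1 ?_ (fun m hm h => hR ⟨m, hm, h⟩) hα1 hα2
    intro h
    apply hκ2
    rw [← h]
    refine Finset.sum_congr rfl fun i _ => ?_
    ring

end Pool.Agent.FNS
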